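import Pool.Agent.Work.MP_dd0d16_nt.S.Defs

/-!
Definitions used in the statement about solutions of Frobenius difference equations.
-/

set_option autoImplicit false

namespace Pool.Agent.Work.MP_dd0d16_nt.T

open MvPolynomial

section

variable {A : Type} [CommRing A] {m : ℕ}

/-- The polynomial `Φ (X, X b ^ p)`; the variable `none` of `Φ` is the last one. -/
noncomputable def dSub (p : ℕ) (b : Fin m) (Φ : MvPolynomial (Option (Fin m)) A) :
    MvPolynomial (Fin m) A :=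
  aeval (fun o : Option (Fin m) => o.elim (X b ^ p) X) Φ

/-- The equation `h a = X a ^ (p - 1) * h a ^ p - ∑ b, h b ^ p * ∂ a (R b / S b)` for `h = H / D`,
`p * R b = Φ b (X, X b ^ p)`, `S b = (∂ Φ b / ∂ Y) (X, X b ^ p)`, multiplied by
`p * D ^ p * ∏ b, S b ^ 2`. -/
noncomputable def dEq (p : ℕ) (Φ : Fin m → MvPolynomial (Option (Fin m)) A)
    (H : Fin m → MvPolynomial (Fin m) A) (D : MvPolynomial (Fin m) A) (a : Fin m) :
    MvPolynomial (Fin m) A :=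
  (p : MvPolynomial (Fin m) A) * (X a ^ (p - 1) * H a ^ p - H a * D ^ (p - 1)) *
      ∏ b, dSub p b (pderiv none (Φ b)) ^ 2 -
    ∑ b, H b ^ p * (pderiv a (dSub p b (Φ b)) * dSub p b (pderiv none (Φ b)) -
      dSub p b (Φ b) * pderiv a (dSub p b (pderiv none (Φ b)))) *
        ∏ c ∈ Finset.univ.erase b, dSub p c (pderiv none (Φ c)) ^ 2

end

variable {p : ℕ} [Fact p.Prime] {m : ℕ}

/-- `σ` induces the `p`-th power map on the residue field. -/
def Frob (σ : PadicAlgCl p ≃ₐ[ℚ_[p]] PadicAlgCl p) : Prop :=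
  ∀ u : PadicAlgCl p, ‖u‖ ≤ 1 → ‖σ u - u ^ p‖ < 1

/-- The ramification of `K` is at most `B`. -/
def RamLe (K : IntermediateField ℚ_[p] (PadicAlgCl p)) (B : ℕ) : Prop :=
  ∀ t ∈ K, ‖t‖ < 1 → ‖t‖ ^ B ≤ ‖(p : PadicAlgCl p)‖

/-- `P` has coefficients in `K` and total degree at most `B`. -/
def PolK {τ : Type} (K : IntermediateField ℚ_[p] (PadicAlgCl p)) (B : ℕ)
    (P : MvPolynomial τ (PadicAlgCl p)) : Prop :=
  (∀ μ, P.coeff μ ∈ K) ∧ P.totalDegree ≤ B

/-- The residues of `z` satisfy no relation of degree at most `N` over the residue field of `K`. -/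
def GenZ (K : IntermediateField ℚ_[p] (PadicAlgCl p)) (N : ℕ) (z : Fin m → PadicAlgCl p) : Prop :=
  ∀ P : MvPolynomial (Fin m) (PadicAlgCl p), PolK K N P → ∀ μ, ‖P.coeff μ‖ ≤ ‖eval z P‖

/-- Modulo the maximal ideal the equation `dEq` has only the solution zero. -/
def NonDeg (Φ : Fin m → MvPolynomial (Option (Fin m)) (PadicAlgCl p)) : Prop :=
  ∀ (H : Fin m → MvPolynomial (Fin m) (PadicAlgCl p)) (D : MvPolynomial (Fin m) (PadicAlgCl p)),
    (∀ a μ, ‖(H a).coeff μ‖ ≤ 1) → (∀ μ, ‖D.coeff μ‖ ≤ 1) → (∃ μ, ‖D.coeff μ‖ = 1) →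
    (∀ a μ, ‖(dEq p Φ H D a).coeff μ‖ < ‖(p : PadicAlgCl p)‖) → ∀ a μ, ‖(H a).coeff μ‖ < 1

/-- `z` is an unramified integral solution of a nondegenerate system `Φ a (z, σ (z a)) = 0` in which
`σ (z a)` is a simple root modulo the maximal ideal. -/
def DifEq (σ : PadicAlgCl p ≃ₐ[ℚ_[p]] PadicAlgCl p) (K : IntermediateField ℚ_[p] (PadicAlgCl p))
    (B : ℕ) (z : Fin m → PadicAlgCl p) : Prop :=
  ∃ Φ : Fin m → MvPolynomial (Option (Fin m)) (PadicAlgCl p), NonDeg Φ ∧ ∀ a,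
    z a ∈ Unr p ∧ ‖z a‖ ≤ 1 ∧ PolK (K ⊓ Unr p) B (Φ a) ∧ (∀ μ, ‖(Φ a).coeff μ‖ ≤ 1) ∧
    eval (fun o : Option (Fin m) => o.elim (σ (z a)) z) (Φ a) = 0 ∧
    ‖eval (fun o : Option (Fin m) => o.elim (σ (z a)) z) (pderiv none (Φ a))‖ = 1

/-- `a` is a root of a nonzero polynomial of degree at most `B` whose coefficients are values at `z`
of polynomials over `K` of degree at most `B`. -/
def AlgZ (K : IntermediateField ℚ_[p] (PadicAlgCl p)) (B : ℕ) (z : Fin m → PadicAlgCl p)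
    (a : PadicAlgCl p) : Prop :=
  ∃ g : Fin (B + 1) → MvPolynomial (Fin m) (PadicAlgCl p), (∀ i, PolK K B (g i)) ∧
    (∃ i, eval z (g i) ≠ 0) ∧ ∑ i, eval z (g i) * a ^ (i : ℕ) = 0

end Pool.Agent.Work.MP_dd0d16_nt.T
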