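import Pool.Agent.Work.MP_dd0d16_nt.D.SeqD

set_option autoImplicit false

namespace Pool.Agent.Work.MP_dd0d16_nt.D.FrobeniusOld

open Pool.Agent.Work.MP_dd0d16_nt Pool.Agent.Work.MP_dd0d16_nt.T

/-- The p-adic strong four exponentials conjecture for logarithms of values of polynomials at generic
solutions of Frobenius difference equations, up to the logarithms of the leading coefficients. -/
theorem result (p : ℕ) [Fact p.Prime] (L : PadicAlgCl p → PadicAlgCl p) (hL : IsLog L)
    (m n B : ℕ) :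
    ∃ N : ℕ, ∀ (σ : PadicAlgCl p ≃ₐ[ℚ_[p]] PadicAlgCl p)
      (K2 K : IntermediateField ℚ_[p] (PadicAlgCl p)) (z : Fin m → PadicAlgCl p)
      (f : Fin n → MvPolynomial (Fin m) (PadicAlgCl p)) (a : Fin 2 → Fin 2 → PadicAlgCl p)
      (c : Fin 2 → Fin 2 → Fin n → PadicAlgCl p), Frob σ → K2 ≤ K → RamLe K2 B →
      DifEq σ K B z → GenZ K N z → (∀ k, f k ≠ 0 ∧ PolK K2 B (f k)) →
      (∀ i j, IsAlgebraic ℚ (a i j) ∧ AlgZ K B z (a i j)) →
      (∀ i j k, IsAlgebraic ℚ (c i j k) ∧ AlgZ K B z (c i j k)) →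
      FourExp (Matrix.of fun i j => a i j + ∑ k, c i j k * L (MvPolynomial.eval z (f k))) ∨
        ∀ i j, a i j + ∑ k, c i j k * L (MvPolynomial.eval z (f k)) ∈
          Submodule.span (algebraicClosure ℚ (PadicAlgCl p))
            (insert 1 (Set.range fun k => L (MonomialOrder.lex.leadingCoeff (f k)))) :=
  finalD hL m n B

end Pool.Agent.Work.MP_dd0d16_nt.D.FrobeniusOld
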