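import Pool.Agent.Work.MP_dd0d16_nt.D.Defs
import Pool.Agent.Work.MP_dd0d16_nt.G.Cyc
import Pool.Agent.Work.MP_dd0d16_nt.T.Mat

/-!
Automorphisms of `PadicAlgCl p` and unramified elements.

PLAN. `norm_aut`: `PadicAlgCl.spectralNorm_eq`, the spectral norm depends only on the minimal
polynomial (`minpoly.algEquiv_eq`, or `spectralNorm_eq_of_equiv`). `log_aut`: as `log_mem` (S/Germ): for
`‖y‖ < 1` apply the continuous additive map `σ` (an isometry) to the series (`HasSum.map`, `HasSum.unique`);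
in general `(z ^ d! * p ^ r) ^ M = 1 + y`. `unr_disc`: `exists_br`, `Br.norm_unr`. `unr_comm`: two
automorphisms commute on roots of unity (`σ ω = ω ^ a`: `IsPrimitiveRoot.eq_pow_of_pow_eq_one` for
`IsPrimitiveRoot.orderOf ω`), then `IntermediateField.adjoin_induction`. `unr_stab`: `σ z` is fixed by
every automorphism that fixes `K` (`InfiniteGalois.fixedField_fixingSubgroup`,
`IntermediateField.mem_fixingSubgroup_iff`). `unr_lift`: `b = 0` or `exists_root_close`, `Ram_krasner`.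
-/

set_option autoImplicit false

namespace Pool.Agent.Work.MP_dd0d16_nt.T

variable {p : ℕ} [Fact p.Prime] {L : PadicAlgCl p → PadicAlgCl p} {z : PadicAlgCl p}
  {K : IntermediateField ℚ_[p] (PadicAlgCl p)}

theorem norm_aut (σ : PadicAlgCl p ≃ₐ[ℚ_[p]] PadicAlgCl p) (z : PadicAlgCl p) : ‖σ z‖ = ‖z‖ := by
  exact (spectralNorm_eq_of_equiv σ z).symm

theorem DPt_one (hL : IsLog L) (σ : PadicAlgCl p ≃ₐ[ℚ_[p]] PadicAlgCl p) {y : PadicAlgCl p}
    (hy : ‖y‖ < 1) : L (σ (1 + y)) = σ (L (1 + y)) := by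
  have hc : Continuous σ :=
    (AddMonoidHomClass.isometry_of_norm σ (norm_aut σ)).continuous
  have h1 := (hL.2.2 y hy).map σ hc
  have h2 := hL.2.2 (σ y) (by rwa [norm_aut])
  rw [map_add, map_one]
  refine h2.unique ?_
  convert h1 using 2 with n
  simp

theorem log_aut (hL : IsLog L) (σ : PadicAlgCl p ≃ₐ[ℚ_[p]] PadicAlgCl p) (h : z ≠ 0) :
    L (σ z) = σ (L z) := by
  obtain ⟨r, hr⟩ := exists_norm_pow h le_rfl
  set d := (minpoly ℚ_[p] z).natDegree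
  have hp : (p : PadicAlgCl p) ≠ 0 := Ram_p_ne
  have hp0 : (0 : ℝ) < p := zero_lt_one.trans Ram_one_lt
  have key : ∀ (w : PadicAlgCl p) (M : ℕ), w ≠ 0 →
      L ((w ^ d.factorial * (p : PadicAlgCl p) ^ r) ^ M) =
        ((d.factorial * M : ℕ) : PadicAlgCl p) * L w := fun w M h0 => by
    rw [log_pow hL (mul_ne_zero (pow_ne_zero _ h0) (zpow_ne_zero _ hp)),
      hL.1 _ _ (pow_ne_zero _ h0) (zpow_ne_zero _ hp), hL.zpow, log_pow hL h0]
    push_cast
    ring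
  have hu : ‖z ^ d.factorial * (p : PadicAlgCl p) ^ r‖ = 1 := by
    simp only [norm_mul, norm_pow, norm_zpow, hr, norm_p_eq, inv_zpow]
    exact mul_inv_cancel₀ (zpow_ne_zero _ hp0.ne')
  have h1 := unit_pow_close hu le_rfl
  set M := (p ^ (2 * (minpoly ℚ_[p] (z ^ d.factorial * (p : PadicAlgCl p) ^ r)).natDegree)).factorial
  have h2 := DPt_one hL σ (y := (z ^ d.factorial * (p : PadicAlgCl p) ^ r) ^ M - 1) (by linarith)
  rw [add_sub_cancel, key z M h, map_pow, map_mul, map_pow, map_zpow₀, map_natCast,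
    key (σ z) M ((map_ne_zero σ).2 h), map_mul, map_natCast] at h2
  exact mul_left_cancel₀
    (Nat.cast_ne_zero.2 (mul_ne_zero (Nat.factorial_ne_zero _) (Nat.factorial_ne_zero _))) h2

theorem unr_disc (hz : z ∈ Unr p) (h : ‖z‖ < 1) : ‖z‖ ≤ (p : ℝ)⁻¹ := by
  rcases eq_or_ne z 0 with rfl | h0
  · rw [norm_zero]
    exact Ram_inv_pos.le
  obtain ⟨O, j, hb⟩ := exists_br p
  obtain ⟨r, hr⟩ := hb.norm_unr hz h0
  rw [hr] at h ⊢
  have h1 : r < 0 := (zpow_lt_one_iff_right₀ (Ram_one_lt (p := p))).1 h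
  rw [← zpow_neg_one]
  exact zpow_le_zpow_right₀ Ram_one_lt.le (by omega)

theorem DPt_root (σ : PadicAlgCl p ≃ₐ[ℚ_[p]] PadicAlgCl p) (h : Root z) : ∃ a : ℕ, σ z = z ^ a := by
  obtain ⟨N, h1, h2⟩ := h
  have hN : N ≠ 0 := by
    rintro rfl
    exact h1 (dvd_zero p)
  have : NeZero (orderOf z) :=
    ⟨(isOfFinOrder_iff_pow_eq_one.2 ⟨N, Nat.pos_of_ne_zero hN, h2⟩).orderOf_pos.ne'⟩
  obtain ⟨a, -, ha⟩ := (IsPrimitiveRoot.orderOf z).eq_pow_of_pow_eq_one (ξ := σ z)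
    (by rw [← map_pow, pow_orderOf_eq_one, map_one])
  exact ⟨a, ha.symm⟩

theorem unr_comm (σ τ : PadicAlgCl p ≃ₐ[ℚ_[p]] PadicAlgCl p) (hz : z ∈ Unr p) :
    τ (σ z) = σ (τ z) := by
  refine IntermediateField.adjoin_induction ℚ_[p] (p := fun x _ => τ (σ x) = σ (τ x))
    (fun x hx => ?_) (fun c => ?_) (fun x y _ _ hx hy => ?_) (fun x _ hx => ?_)
    (fun x y _ _ hx hy => ?_) hz
  · obtain ⟨a, ha⟩ := DPt_root σ hx
    obtain ⟨b, hb⟩ := DPt_root τ hx
    rw [ha, map_pow, hb, map_pow, ha, ← pow_mul, ← pow_mul, mul_comm]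
  · simp only [AlgEquiv.commutes]
  · simp only [map_add, hx, hy]
  · simp only [map_inv₀, hx]
  · simp only [map_mul, hx, hy]

theorem unr_stab (σ : PadicAlgCl p ≃ₐ[ℚ_[p]] PadicAlgCl p) (h1 : z ∈ K) (h2 : z ∈ Unr p) :
    σ z ∈ K := by
  rw [← InfiniteGalois.fixedField_fixingSubgroup K, IntermediateField.mem_fixedField_iff]
  intro τ hτ
  rw [unr_comm σ τ h2, (IntermediateField.mem_fixingSubgroup_iff K τ).1 hτ z h1]

theorem unr_lift (h1 : z ∈ K) (h2 : ‖z‖ ≤ 1) : ∃ b ∈ K, b ∈ Unr p ∧ ‖z - b‖ < 1 := by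
  rcases h2.lt_or_eq with h | h
  · exact ⟨0, zero_mem _, zero_mem _, by rwa [sub_zero]⟩
  · obtain ⟨ω, o1, o2⟩ := exists_root_close h
    exact ⟨ω, Ram_krasner o1 o2 h1, Ram_root_mem o1, o2⟩

end Pool.Agent.Work.MP_dd0d16_nt.T
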