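import Pool.Agent.Work.MP_dd0d16_nt.E.Int
import Pool.Agent.Work.MP_dd0d16_nt.G.AxT1
import Pool.Agent.Work.MP_dd0d16_nt.G.GermB
import Pool.Agent.Work.MP_dd0d16_nt.T.ThmD
import Pool.Agent.Work.MP_dd0d16_nt.D.Pt
import Pool.Agent.Work.MP_dd0d16_nt.PAdic

-- merged part: Pool.Agent.Work.MP_dd0d16_nt.D.StepD
section
-- merged part: Pool.Agent.Work.MP_dd0d16_nt.D.AR
section
/-!
Limits at the scale of `p`.

PLAN. `ev_le`, `ev_sub`, `ev_taylor`: lift to the ring `v.integer` (`AxCore_lift`, `TaLin_ring`, see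
`taylor1` in G/TaLin), or `eval_eq'` and `SiRes_prod`. `ev_mem`: `eval_eq'`, `sum_mem`.
`AR.div`: `v p ^ d < v b`; take approximations `e`, `f` of order `c + d`, so `v f = v b`, and
`a / b - e / f = ((a - e) * f + e * (f - b)) / (b * f)` with `v e ≤ max (v a) (v p ^ (c + d)) ≤ v b`.
`AR.trans`: an approximation `e` of `y` is integral, so it lies in `AR v p F'`.
`AR.log`: `Tail` with `M = c`, `s = z - 1`; the finite sum is a polynomial in `s` with rational
coefficients; approximate `s` by `e ∈ F` (order `c + c'` where `v p ^ c'` is below all `v (n + 1)`,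
`n < T`; `LF.nat`, `SiRes_pow`); `v (L z) ≤ 1` by `LF.tail` with `T = 0`.
`AR.newton`: induction on `c`: `e ∈ AR` with `v (y - e) ≤ v p ^ (c + 1)`; put
`e' = e - Ψ e / Ψ' e` where `v (Ψ' e) = 1` (`ev_sub`); `ev_taylor` at the point `e` with the increment
`y - e` in the variable `none` gives `v (y - e') ≤ v (y - e) ^ 2`. Then use `AR.lim`.
-/

set_option autoImplicit false

namespace Pool.Agent.Work.MP_dd0d16_nt.T

open MvPolynomial

variable {Ω Γ : Type} [Field Ω] [LinearOrderedCommGroupWithZero Γ] {v : Valuation Ω Γ}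
  {L : Ω → Ω} {E F F' : Subfield Ω} {p : ℕ} {σ : Type}

theorem DAR_mon {x : σ → Ω} (hx : ∀ a, v (x a) ≤ 1) (c : Ω) (μ : σ →₀ ℕ) :
    v (c * ∏ i ∈ μ.support, x i ^ μ i) ≤ v c := by
  rw [map_mul]
  exact mul_le_of_le_one_right'
    (prod_mem (S := v.integer) fun i _ => pow_mem (show x i ∈ v.integer from hx i) _)

theorem ev_le {x : σ → Ω} (hx : ∀ a, v (x a) ≤ 1) {P : MvPolynomial σ Ω} {δ : Γ}
    (hP : ∀ μ, v (P.coeff μ) ≤ δ) : v (eval x P) ≤ δ := by
  rw [eval_eq]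
  exact v.map_sum_le fun μ _ => (DAR_mon hx _ μ).trans (hP μ)

theorem ev_lt {x : σ → Ω} (hx : ∀ a, v (x a) ≤ 1) {P : MvPolynomial σ Ω} {δ : Γ} (h0 : δ ≠ 0)
    (hP : ∀ μ, v (P.coeff μ) < δ) : v (eval x P) < δ := by
  rw [eval_eq]
  exact v.map_sum_lt h0 fun μ _ => (DAR_mon hx _ μ).trans_lt (hP μ)

theorem ev_sub {x x' : σ → Ω} (hx : ∀ a, v (x a) ≤ 1) (hx' : ∀ a, v (x' a) ≤ 1) {δ : Γ}
    (h : ∀ a, v (x' a - x a) ≤ δ) {P : MvPolynomial σ Ω} (hP : ∀ μ, v (P.coeff μ) ≤ 1) :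
    v (eval x' P - eval x P) ≤ δ := by
  rw [eval_eq, eval_eq, ← Finset.sum_sub_distrib]
  refine v.map_sum_le fun μ _ => ?_
  rw [← mul_sub, map_mul]
  exact (mul_le_of_le_one_left' (hP μ)).trans
    (SiRes_prod _ fun i => SiRes_pow ⟨hx' i, hx i, h i⟩ (μ i)).2.2

theorem co_pderiv {P : MvPolynomial σ Ω} {δ : Γ} (hP : ∀ μ, v (P.coeff μ) ≤ δ) (a : σ)
    (μ : σ →₀ ℕ) : v ((pderiv a P).coeff μ) ≤ δ := by
  rw [coeff_pderiv, map_mul]
  refine (mul_le_of_le_one_right' ?_).trans (hP _)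
  exact_mod_cast natCast_mem v.integer (μ a + 1)

theorem ev_taylor [Fintype σ] {x y : σ → Ω} (hx : ∀ a, v (x a) ≤ 1) (hy : ∀ a, v (y a) ≤ 1) {t : Ω}
    (ht : v t ≤ 1) {P : MvPolynomial σ Ω} (hP : ∀ μ, v (P.coeff μ) ≤ 1) :
    v (eval (fun a => x a + t * y a) P - eval x P - t * ∑ a, eval x (pderiv a P) * y a) ≤
      v t ^ 2 := by
  obtain ⟨P', rfl⟩ := AxCore_lift v.integer P hP
  obtain ⟨r, hr⟩ := TaLin_ring (R := v.integer) (fun i => ⟨x i, hx i⟩) (fun i => ⟨y i, hy i⟩)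
    ⟨t, ht⟩ P'
  have k := congrArg v.integer.subtype hr
  simp only [map_add, map_mul, map_sum, map_pow, map_eval, ← pderiv_map] at k
  have k' : eval (fun i => x i + t * y i) (map v.integer.subtype P') =
      eval x (map v.integer.subtype P') +
        t * ∑ i, eval x (pderiv i (map v.integer.subtype P')) * y i + t ^ 2 * r := k
  rw [k', show ∀ a b c : Ω, a + b + c - a - b = c from fun a b c => by ring, map_mul, map_pow]
  exact mul_le_of_le_one_right' r.2

theorem ev_mem (R : Subring Ω) {x : σ → Ω} (hx : ∀ a, x a ∈ R) {P : MvPolynomial σ Ω}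
    (hP : ∀ μ, P.coeff μ ∈ R) : eval x P ∈ R := by
  rw [eval_eq]
  exact sum_mem fun μ _ => mul_mem (hP μ) (prod_mem fun i _ => pow_mem (hx i) _)

theorem ev_FX (x : σ → Ω) {P : MvPolynomial σ Ω} (hP : ∀ μ, P.coeff μ ∈ E) :
    eval x P ∈ FX E x := by
  exact ev_mem (FX E x).toSubring (fun a => Subfield.subset_closure (Or.inr ⟨a, rfl⟩))
    fun μ => Subfield.subset_closure (Or.inl (hP μ))

theorem FX_frac (x : σ → Ω) {z : Ω} (hz : z ∈ FX E x) : ∃ P H : MvPolynomial σ Ω,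
    (∀ μ, P.coeff μ ∈ E) ∧ (∀ μ, H.coeff μ ∈ E) ∧ eval x H ≠ 0 ∧ z * eval x H = eval x P := by
  have k : Subring.closure ((E : Set Ω) ∪ Set.range x) ≤
      ((eval x).comp (map (σ := σ) E.subtype)).range := Subring.closure_le.2 (by
    rintro _ (h | ⟨a, rfl⟩)
    · exact ⟨C ⟨_, h⟩, by simp⟩
    · exact ⟨X a, by simp⟩)
  have c : ∀ (P : MvPolynomial σ E) μ, (map E.subtype P).coeff μ ∈ E := fun P μ => by
    rw [coeff_map]
    exact (P.coeff μ).2
  obtain ⟨a, ha, b, hb, rfl⟩ := Subfield.mem_closure_iff.1 hz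
  obtain ⟨P, rfl⟩ := k ha
  obtain ⟨H, rfl⟩ := k hb
  by_cases h0 : eval x (map E.subtype H) = 0
  · exact ⟨map E.subtype 0, map E.subtype 1, c _, c _, by simp, by simp [-eval_map, h0]⟩
  · exact ⟨_, _, c P, c H, h0, div_mul_cancel₀ _ h0⟩

theorem AR.of_mem {y : Ω} (hy : y ∈ F) (h : v y ≤ 1) : y ∈ AR v p F := by
  exact ⟨h, fun c => ⟨y, hy, by simp⟩⟩

theorem DAR_le {y e : Ω} {c : ℕ} (he : v e ≤ 1) (h : v (y - e) ≤ v p ^ c) : v y ≤ 1 := by
  have := v.map_add_le (h.trans (AR_p v p c)) he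
  rwa [sub_add_cancel] at this

theorem AR.lim {y : Ω} (h : ∀ c : ℕ, ∃ e ∈ AR v p F, v (y - e) ≤ v p ^ c) : y ∈ AR v p F := by
  refine ⟨?_, fun c => ?_⟩
  · obtain ⟨e, he, k⟩ := h 0
    exact DAR_le he.1 k
  · obtain ⟨e, he, k⟩ := h c
    obtain ⟨f, hf, k'⟩ := he.2 c
    exact ⟨f, hf, by rw [← sub_add_sub_cancel y e f]; exact v.map_add_le k k'⟩

theorem AR.trans (h : ∀ e ∈ F, v e ≤ 1 → e ∈ AR v p F') : AR v p F ≤ AR v p F' := by
  intro y hy
  refine AR.lim fun c => ?_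
  obtain ⟨e, he, k⟩ := hy.2 c
  exact ⟨e, h e he (DAR_le hy.1 (by rwa [v.map_sub_swap])), k⟩

theorem AR.div {a b : Ω} (ha : a ∈ AR v p F) (hb : b ∈ AR v p F) (hab : v a ≤ v b)
    (h : ¬ Inf v (v p) b) : a / b ∈ AR v p F := by
  simp only [Inf, not_forall, not_le] at h
  obtain ⟨d, hd⟩ := h
  have b0 : 0 < v b := lt_of_le_of_lt zero_le hd
  refine ⟨by rw [map_div₀]; exact div_le_one_of_le₀ hab zero_le, fun c => ?_⟩
  obtain ⟨e, he, k⟩ := ha.2 (c + d)
  obtain ⟨f, hf, k'⟩ := hb.2 (c + d)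
  have l : v p ^ (c + d) < v b := by
    rw [pow_add]
    exact (mul_le_of_le_one_left' (AR_p v p c)).trans_lt hd
  have f1 : v f = v b := by
    rw [← v.map_sub_eq_of_lt_left (k'.trans_lt l), sub_sub_cancel]
  have e1 : v e ≤ v b := by
    have := v.map_sub_le hab (k.trans l.le)
    rwa [sub_sub_cancel] at this
  have b1 : b ≠ 0 := fun r => by simp [r] at b0
  have f2 : f ≠ 0 := fun r => by rw [r, map_zero] at f1; exact b0.ne f1
  refine ⟨e / f, div_mem he hf, ?_⟩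
  rw [show a / b - e / f = ((a - e) * f - e * (b - f)) / (b * f) by field_simp; ring, map_div₀,
    map_mul, f1, div_le_iff₀ (mul_pos b0 b0), ← mul_assoc]
  have m : v p ^ (c + d) ≤ v p ^ c * v b := by
    rw [pow_add]
    exact mul_le_mul_right hd.le _
  refine v.map_sub_le ?_ ?_ <;> rw [map_mul]
  · exact mul_le_mul' (k.trans m) f1.le
  · rw [mul_comm]
    exact mul_le_mul' (k'.trans m) e1

theorem AR.log [CharZero Ω] (h : LF p v L E) (hT : Tail p v L) {z : Ω} (hz : z ∈ AR v p F)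
    (h1 : v (z - 1) ≤ v p) : L z ∈ AR v p F := by
  have hs : z - 1 ∈ AR v p F := sub_mem hz (one_mem _)
  refine ⟨by simpa using h.tail 0 (z - 1) (by simpa using h1), fun c => ?_⟩
  obtain ⟨T, k⟩ := (hT c).exists
  have k1 := k (z - 1) (by
    rw [sq]
    exact (mul_le_of_le_one_left' hs.1).trans h1)
  rw [add_sub_cancel] at k1
  have : ∀ n : ℕ, ∃ e ∈ F,
      v ((-1 : Ω) ^ n * (z - 1) ^ (n + 1) / ((n : Ω) + 1) - e) ≤ v p ^ c := fun n => by
    obtain ⟨d, hd⟩ := h.nat (n + 1) n.succ_ne_zero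
    obtain ⟨e, he, k2⟩ := (mul_mem (pow_mem (neg_mem (one_mem _)) n) (pow_mem hs (n + 1))).2 (c + d)
    push_cast at hd
    refine ⟨e / (n + 1), div_mem he (add_mem (natCast_mem _ _) (one_mem _)), ?_⟩
    rw [← sub_div, map_div₀, div_le_iff₀ ((pow_pos (zero_lt_iff.2 h.p0) d).trans_le hd)]
    refine k2.trans ?_
    rw [pow_add]
    exact mul_le_mul_right hd _
  choose e he k2 using this
  refine ⟨∑ n ∈ Finset.range T, e n, sum_mem fun n _ => he n, ?_⟩
  rw [← sub_add_sub_cancel _ (∑ n ∈ Finset.range T,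
    (-1 : Ω) ^ n * (z - 1) ^ (n + 1) / ((n : Ω) + 1)), ← Finset.sum_sub_distrib]
  exact v.map_add_le k1 (v.map_sum_le fun n _ => k2 n)

theorem AR.newton [Fintype σ] (h1 : v p < 1) {x : σ → Ω} (hx : ∀ a, x a ∈ AR v p F)
    {Ψ : MvPolynomial (Option σ) Ω} (hΨ : ∀ μ, Ψ.coeff μ ∈ AR v p F) {y e : Ω}
    (h0 : eval (fun o : Option σ => o.elim y x) Ψ = 0)
    (hu : v (eval (fun o : Option σ => o.elim y x) (pderiv none Ψ)) = 1) (he : e ∈ AR v p F)
    (hy : v (y - e) ≤ v p) : y ∈ AR v p F := by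
  have y1 : v y ≤ 1 := DAR_le (c := 1) he.1 (by rwa [pow_one])
  have i1 : ∀ {w : Ω}, v w ≤ 1 → ∀ o : Option σ, v (o.elim w x) ≤ 1 := fun hw o => by
    cases o
    exacts [hw, (hx _).1]
  have key : ∀ c : ℕ, ∃ e ∈ AR v p F, v (y - e) ≤ v p ^ (c + 1) := fun c => by
    induction c with
    | zero => exact ⟨e, he, by simpa using hy⟩
    | succ c ih =>
      obtain ⟨f, hf, k⟩ := ih
      have m : ∀ o : Option σ, o.elim f x ∈ AR v p F := fun o => by
        cases o
        exacts [hf, hx _]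
      have u : v (eval (fun o : Option σ => o.elim f x) (pderiv none Ψ)) = 1 := by
        have k1 := ev_sub (i1 hf.1) (i1 y1) (δ := v p ^ (c + 1)) (fun o => by
          cases o
          · exact k
          · simp) (co_pderiv (fun μ => (hΨ μ).1) none)
        have k2 := v.map_sub_eq_of_lt_left
          ((k1.trans_lt (pow_lt_one₀ zero_le h1 c.succ_ne_zero)).trans_eq hu.symm)
        rwa [sub_sub_cancel, hu] at k2
      have a1 := ev_mem _ m hΨ
      have a2 : eval (fun o : Option σ => o.elim f x) (pderiv none Ψ) ∈ AR v p F :=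
        ev_mem _ m fun μ => by
          rw [coeff_pderiv]
          exact mul_mem (hΨ _) (add_mem (natCast_mem _ _) (one_mem _))
      refine ⟨_, sub_mem hf (AR.div a1 a2 (u ▸ a1.1) fun r => ?_), ?_⟩
      · exact absurd (r 1) (by rw [u, pow_one]; exact not_le.2 h1)
      · have t := ev_taylor (i1 hf.1) (y := fun o : Option σ => o.elim 1 fun _ => 0)
          (fun o => by cases o <;> simp) (k.trans (AR_p v p _)) fun μ => (hΨ μ).1
        have e1 : (fun o : Option σ => o.elim f x + (y - f) * o.elim 1 fun _ => 0) =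
            fun o : Option σ => o.elim y x := funext fun o => by cases o <;> simp
        simp only [e1, h0, Fintype.sum_option, Option.elim_none, Option.elim_some, mul_one, mul_zero,
          Finset.sum_const_zero, add_zero] at t
        have n0 : eval (fun o : Option σ => o.elim f x) (pderiv none Ψ) ≠ 0 := fun r => by
          simp [r] at u
        rw [show ∀ a b : Ω, b ≠ 0 → y - (f - a / b) = -(0 - a - (y - f) * b) / b from
          fun a b hb => by field_simp; ring, map_div₀, u, div_one, v.map_neg]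
        · refine t.trans ((pow_le_pow_left' k 2).trans ?_)
          rw [← pow_mul]
          exact pow_le_pow_right_of_le_one' h1.le (by omega)
        · exact n0
  refine AR.lim fun c => ?_
  obtain ⟨f, hf, k⟩ := key c
  exact ⟨f, hf, k.trans (pow_le_pow_right_of_le_one' h1.le c.le_succ)⟩

end Pool.Agent.Work.MP_dd0d16_nt.T
end

-- merged part: Pool.Agent.Work.MP_dd0d16_nt.D.Res
section
/-!
The residue field and Gauss points.

PLAN. `exists_resF`: `IsLocalRing.residue` of `v.valuationSubring` (it is `v.integer` as a subring;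
or the quotient of `v.integer` by the ideal of elements of value `< 1`, see `exists_res0` in G/Res1);
the subfield: if `res e ≠ 0` then `v e = 1` and `e⁻¹` is integral.
`res_eval`: `map_eval`-type lemma (`eval₂_comp_left`, `eval_map`, or induction on `P`).
`Gau.norm`: `exists_max_coeff`-type argument on the support, `ev_le`.
`Gau.frac`: `FX_frac`; divide `P`, `H` by a largest coefficient `b` of `H`; then `v (H x) = 1` and the
coefficients of `P` have value at most `v (P x) = v z ≤ 1`.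
`Gau.idp`: lift the coefficients of `π` to integral elements of `E` (zero outside the support); the
value of the lift has residue zero, so value `< 1`, so all coefficients have value `< 1`.
`gau_of_idp`: divide by a largest coefficient; the reduction is nonzero, so the value is a unit.
`Idp.root`: `P (t') ^ p = (map (frobenius κ p) P) (t' ^ p)` (`MvPolynomial.map_frobenius_expand`, or
`sum_pow_char`), and `frobenius` is injective. `res_mem`: approximate with `c = 1`, then `Gau.frac`.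
`FX_pow`: `Subfield.closure_induction` with the ring homomorphism `iterateFrobenius κ p n`.
`Gau.ssi`: `aeval x P = eval x (map E.subtype P)`, `v p ≤ 1`.
-/

set_option autoImplicit false

namespace Pool.Agent.Work.MP_dd0d16_nt.T

open MvPolynomial

variable {Ω Γ : Type} [Field Ω] [LinearOrderedCommGroupWithZero Γ] {v : Valuation Ω Γ}
  {E : Subfield Ω} {p : ℕ} {σ κ : Type} [Field κ] {res : v.integer →+* κ} {k : Subfield κ}

theorem exists_resF [Fact p.Prime] (h1 : v p < 1) :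
    ∃ (κ : Type) (_ : Field κ) (_ : CharP κ p) (res : v.integer →+* κ),
      ∀ E : Subfield Ω, ∃ k : Subfield κ, ResF v E res k := by
  let I : Ideal v.integer :=
    { carrier := {z | v (z : Ω) < 1}
      add_mem' := fun ha hb => v.map_add_lt ha hb
      zero_mem' := by simp
      smul_mem' := fun a b hb => by
        show v ((a : Ω) * b) < 1
        rw [map_mul]
        exact (mul_le_of_le_one_left' a.2).trans_lt hb }
  have hi : ∀ x : v.integer, x ∉ I → ∃ y : v.integer, (y : Ω) = (x : Ω)⁻¹ ∧ y * x = 1 := fun x hx => by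
    have e : v (x : Ω) = 1 := le_antisymm x.2 (not_lt.1 hx)
    have e0 : (x : Ω) ≠ 0 := (map_ne_zero v).1 (e ▸ one_ne_zero)
    exact ⟨⟨(x : Ω)⁻¹, show v _ ≤ 1 by rw [map_inv₀, e, inv_one]⟩, rfl,
      Subtype.ext (inv_mul_cancel₀ e0)⟩
  have hI : I.IsMaximal := by
    refine Ideal.isMaximal_iff.2 ⟨fun k => (show v ((1 : v.integer) : Ω) < 1 from k).ne v.map_one,
      fun J x _ hx hJ => ?_⟩
    obtain ⟨y, -, e⟩ := hi x hx
    exact e ▸ J.mul_mem_left _ hJ
  let _ : Field (v.integer ⧸ I) := Ideal.Quotient.field I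
  have : CharP (v.integer ⧸ I) p := (CharP.charP_iff_prime_eq_zero Fact.out).2 (by
    rw [← map_natCast (Ideal.Quotient.mk I), Ideal.Quotient.eq_zero_iff_mem]
    exact h1)
  refine ⟨v.integer ⧸ I, inferInstance, inferInstance, Ideal.Quotient.mk I, fun F => ⟨
      { ((F.toSubring.comap v.integer.subtype).map (Ideal.Quotient.mk I)) with inv_mem' := ?_ },
      fun z => Ideal.Quotient.eq_zero_iff_mem, fun _ => Iff.rfl⟩⟩
  rintro _ ⟨x, hx, rfl⟩
  by_cases h : x ∈ I
  · exact ⟨x, hx, by rw [Ideal.Quotient.eq_zero_iff_mem.2 h, inv_zero]⟩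
  · obtain ⟨y, e1, e⟩ := hi x h
    exact ⟨y, show (y : Ω) ∈ F from e1 ▸ F.inv_mem hx,
      eq_inv_of_mul_eq_one_left (by rw [← map_mul, e, map_one])⟩

theorem int_lift {P : MvPolynomial σ Ω} (hP : ∀ μ, v (P.coeff μ) ≤ 1) :
    ∃ P' : MvPolynomial σ v.integer, map v.integer.subtype P' = P :=
  AxCore_lift v.integer P hP

theorem DRes_ev {R S : Type} [CommRing R] [CommRing S] (f : R →+* S) (x : σ → R)
    (P : MvPolynomial σ R) : f (eval x P) = eval (fun a => f (x a)) (map f P) := by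
  rw [eval_map, eval₂_comp]
  rfl

theorem DRes_max (v : Valuation Ω Γ) {P : MvPolynomial σ Ω} (hP : P ≠ 0) :
    ∃ ν, P.coeff ν ≠ 0 ∧ ∀ μ, v (P.coeff μ) ≤ v (P.coeff ν) := by
  obtain ⟨ν, h1, h2⟩ := Finset.exists_max_image P.support (fun μ => v (P.coeff μ))
    (support_nonempty.2 hP)
  refine ⟨ν, mem_support_iff.1 h1, fun μ => ?_⟩
  by_cases h : μ ∈ P.support
  · exact h2 μ h
  · rw [notMem_support_iff.1 h]
    simp

theorem DRes_div {a b : Ω} (hb : b ≠ 0) (h : v a ≤ v b) : v (b⁻¹ * a) ≤ 1 := by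
  rw [map_mul, map_inv₀]
  exact (inv_mul_le_one₀ (zero_lt_iff.2 ((map_ne_zero v).2 hb))).2 h

theorem coe_eval (x : σ → v.integer) (P : MvPolynomial σ v.integer) :
    ((eval x P : v.integer) : Ω) = eval (fun a => (x a : Ω)) (map v.integer.subtype P) := by
  exact DRes_ev v.integer.subtype x P

theorem res_eval (res : v.integer →+* κ) (x : σ → v.integer) (P : MvPolynomial σ v.integer) :
    res (eval x P) = eval (fun a => res (x a)) (map res P) := by
  exact DRes_ev res x P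

theorem ResF.eq (h : ResF v E res k) {a b : v.integer} (hab : v ((a : Ω) - b) < 1) :
    res a = res b := by
  rw [← sub_eq_zero, ← map_sub]
  exact (h.zero _).2 hab

theorem ResF.co (h : ResF v E res k) {P : MvPolynomial σ v.integer}
    (hP : ∀ μ, (map v.integer.subtype P).coeff μ ∈ E) (μ : σ →₀ ℕ) : (map res P).coeff μ ∈ k := by
  refine (h.mem _).2 ⟨P.coeff μ, ?_, (coeff_map _ _ _).symm⟩
  have := hP μ
  rwa [coeff_map] at this

theorem Gau.mono {E' : Subfield Ω} {x : σ → Ω} (h : Gau v E x) (hE : E' ≤ E) : Gau v E' x :=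
  fun P hP => h P fun μ => hE (hP μ)

theorem Gau.ne {x : σ → Ω} (h : Gau v E x) {P : MvPolynomial σ Ω} (hP : ∀ μ, P.coeff μ ∈ E)
    (h0 : P ≠ 0) : eval x P ≠ 0 := by
  obtain ⟨ν, h1, -⟩ := DRes_max v h0
  intro e
  have := h P hP ν
  rw [e, map_zero, le_zero_iff, map_eq_zero] at this
  exact h1 this

theorem Gau.norm {x : σ → Ω} (h : Gau v E x) (hx : ∀ a, v (x a) ≤ 1) {P : MvPolynomial σ Ω}
    (hP : ∀ μ, P.coeff μ ∈ E) (h0 : P ≠ 0) : ∃ ν, v (eval x P) = v (P.coeff ν) := by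
  obtain ⟨ν, -, h2⟩ := DRes_max v h0
  exact ⟨ν, (ev_le hx h2).antisymm (h P hP ν)⟩

theorem Gau.frac {x : σ → Ω} (h : Gau v E x) (hx : ∀ a, v (x a) ≤ 1) {z : Ω} (hz : z ∈ FX E x)
    (h1 : v z ≤ 1) : ∃ P H : MvPolynomial σ Ω, (∀ μ, P.coeff μ ∈ E ∧ v (P.coeff μ) ≤ 1) ∧
      (∀ μ, H.coeff μ ∈ E ∧ v (H.coeff μ) ≤ 1) ∧ v (eval x H) = 1 ∧ z * eval x H = eval x P := by
  obtain ⟨P, H, hP, hH, h0, e⟩ := FX_frac x hz
  obtain ⟨ν, h2, h3⟩ := DRes_max v (P := H) (fun k => h0 (by rw [k, map_zero]))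
  have h4 : v (eval x H) = v (H.coeff ν) := (ev_le hx h3).antisymm (h H hH ν)
  refine ⟨C (H.coeff ν)⁻¹ * P, C (H.coeff ν)⁻¹ * H, fun μ => ?_, fun μ => ?_, ?_, ?_⟩
  · rw [coeff_C_mul]
    refine ⟨mul_mem (inv_mem (hH ν)) (hP μ), DRes_div h2 ((h P hP μ).trans ?_)⟩
    rw [← e, map_mul, h4]
    exact mul_le_of_le_one_left' h1
  · rw [coeff_C_mul]
    exact ⟨mul_mem (inv_mem (hH ν)) (hH μ), DRes_div h2 (h3 μ)⟩
  · rw [map_mul, eval_C, map_mul, map_inv₀, h4, inv_mul_cancel₀ ((map_ne_zero v).2 h2)]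
  · rw [map_mul, map_mul, eval_C, ← e, mul_left_comm]

theorem DRes_lift (h : ResF v E res k) {π : MvPolynomial σ κ} (hπ : ∀ μ, π.coeff μ ∈ k) :
    ∃ P : MvPolynomial σ v.integer, (∀ μ, (map v.integer.subtype P).coeff μ ∈ E) ∧
      map res P = π := by
  obtain ⟨P, hP⟩ : ∃ P : MvPolynomial σ (E.toSubring.comap v.integer.subtype),
      map (res.comp (Subring.subtype _)) P = π := mem_range_map_iff_coeffs_subset.2 fun c hc => by
    obtain ⟨μ, -, rfl⟩ := mem_coeffs_iff.1 hc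
    obtain ⟨e, e1, e2⟩ := (h.mem _).1 (hπ μ)
    exact ⟨⟨e, e1⟩, e2⟩
  refine ⟨map (Subring.subtype _) P, fun μ => ?_, by rw [map_map, hP]⟩
  rw [coeff_map, coeff_map]
  exact (P.coeff μ).2

theorem Gau.idp (h : ResF v E res k) {x : σ → v.integer} (hG : Gau v E fun a => (x a : Ω)) :
    Idp k fun a => res (x a) := by
  intro π hπ h0
  obtain ⟨P, hP, rfl⟩ := DRes_lift h hπ
  rw [← res_eval, h.zero, coe_eval] at h0
  ext μ
  have := (hG _ hP μ).trans_lt h0
  rw [coeff_map] at this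
  rw [coeff_map, coeff_zero]
  exact (h.zero _).2 this

theorem gau_of_idp (h : ResF v E res k) {x : σ → v.integer} (hi : Idp k fun a => res (x a)) :
    Gau v E fun a => (x a : Ω) := by
  intro P hP μ
  by_cases h0 : P = 0
  · simp [h0]
  obtain ⟨ν, h2, h3⟩ := DRes_max v h0
  obtain ⟨Q, hQ⟩ := int_lift (v := v) (P := C (P.coeff ν)⁻¹ * P) fun μ => by
    rw [coeff_C_mul]
    exact DRes_div h2 (h3 μ)
  have h4 : ∀ μ, (map v.integer.subtype Q).coeff μ ∈ E := fun μ => by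
    rw [hQ, coeff_C_mul]
    exact mul_mem (inv_mem (hP ν)) (hP μ)
  have h5 : ¬ v ((eval x Q : v.integer) : Ω) < 1 := fun h6 => by
    rw [← h.zero, res_eval] at h6
    have h7 := congrArg (coeff ν) (hi _ (h.co h4) h6)
    have h8 := congrArg (coeff ν) hQ
    rw [coeff_map, coeff_C_mul, inv_mul_cancel₀ h2] at h8
    rw [coeff_map, coeff_zero, h.zero, show ((Q.coeff ν : v.integer) : Ω) = 1 from h8, map_one] at h7
    exact lt_irrefl _ h7
  rw [coe_eval, hQ, map_mul, eval_C, map_mul, map_inv₀, not_lt,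
    one_le_inv_mul₀ (zero_lt_iff.2 ((map_ne_zero v).2 h2))] at h5
  exact (h3 μ).trans h5

theorem Idp.root [Fact p.Prime] [CharP κ p] {t : σ → κ} (h : Idp k fun a => t a ^ p) :
    Idp k t := by
  intro P hP h0
  have h1 := DRes_ev (frobenius κ p) t P
  rw [h0, map_zero] at h1
  refine map_injective _ (frobenius κ p).injective ?_
  rw [map_zero]
  refine h _ (fun μ => ?_) h1.symm
  rw [coeff_map]
  exact pow_mem (hP μ) p

theorem res_mem (h : ResF v E res k) (h1 : v p < 1) {x : σ → v.integer}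
    (hG : Gau v E fun a => (x a : Ω)) {y : v.integer}
    (hy : (y : Ω) ∈ AR v p (FX E fun a => (x a : Ω))) : res y ∈ FX k fun a => res (x a) := by
  obtain ⟨e, e1, e2⟩ := hy.2 1
  rw [pow_one] at e2
  have e3 : v e ≤ 1 := by
    have := v.map_sub_le y.2 (e2.trans h1.le)
    rwa [sub_sub_cancel] at this
  obtain ⟨P, H, hP, hH, h2, h3⟩ := hG.frac (fun a => (x a).2) e1 e3
  obtain ⟨P, rfl⟩ := int_lift fun μ => (hP μ).2
  obtain ⟨H, rfl⟩ := int_lift fun μ => (hH μ).2
  rw [← coe_eval] at h2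
  rw [← coe_eval, ← coe_eval] at h3
  have h4 : res ⟨e, e3⟩ * res (eval x H) = res (eval x P) := by
    rw [← map_mul]
    exact congrArg res (Subtype.ext h3)
  have h5 : res (eval x H) ≠ 0 := fun k => ((h.zero _).1 k).ne h2
  rw [h.eq (b := ⟨e, e3⟩) (e2.trans_lt h1), (eq_div_iff h5).2 h4, res_eval, res_eval]
  exact div_mem (ev_FX _ (h.co fun μ => (hP μ).1)) (ev_FX _ (h.co fun μ => (hH μ).1))

theorem FX_pow [Fact p.Prime] [CharP κ p] {t : σ → κ} {y : κ} (hy : y ∈ FX k t) (n : ℕ) :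
    y ^ p ^ n ∈ FX k fun a => t a ^ p ^ n := by
  have h : FX k t ≤ (FX k fun a => t a ^ p ^ n).comap (iterateFrobenius κ p n) := by
    refine Subfield.closure_le.2 ?_
    rintro z (hz | ⟨a, rfl⟩)
    · exact Subfield.subset_closure (Or.inl (pow_mem hz (p ^ n)))
    · exact Subfield.subset_closure (Or.inr ⟨a, rfl⟩)
  exact h hy

theorem Gau.ssi {x : σ → Ω} (h : Gau v E x) : SSI v p E x := by
  intro P μ q
  have h1 := h (map E.subtype P) (fun μ => by rw [coeff_map]; exact (P.coeff μ).2) μ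
  rw [coeff_map, eval_map] at h1
  exact (mul_le_of_le_one_left' (natCast_mem v.integer p)).trans (pow_le_pow_left' h1 q)

end Pool.Agent.Work.MP_dd0d16_nt.T
end

-- merged part: Pool.Agent.Work.MP_dd0d16_nt.D.CharP
section
/-!
Derivatives on a field of rational functions.

PLAN. `exists_pd`: for `y ∈ FX k t` choose `P`, `H` by `FX_frac` and put
`d a y = (∂ P (t) * H (t) - P (t) * ∂ H (t)) / H (t) ^ 2`. Key lemma: whenever `y * H' (t) = P' (t)` with
`H' (t) ≠ 0` the same formula holds for `P'`, `H'` (`P * H' = P' * H` by `Idp`, apply `pderiv a` and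
evaluate; coefficients of sums and products lie in `k`: `coeff_mul`, `sum_mem`).
`Pd.const`: `pol` for `C c`. `Pd.pw`: `Subfield.closure_induction` for the statement
`y ∈ FX k t ∧ ∀ a, d a y = 0` (`pol` for `X b ^ p`; inverses from `mul` for `y * y⁻¹ = 1`).
`moore_vec`: copy `moore` (G/Alg1). `pd_moore`: apply `d a` to the sum (`Pd.sum`, `mul`, `Pd.pw`).
-/

set_option autoImplicit false

namespace Pool.Agent.Work.MP_dd0d16_nt.T

open MvPolynomial

variable {κ σ : Type} [Field κ] {k : Subfield κ} {t : σ → κ} {d : σ → κ → κ}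

theorem DCharP_mul {P Q : MvPolynomial σ κ} (hP : ∀ μ, P.coeff μ ∈ k) (hQ : ∀ μ, Q.coeff μ ∈ k)
    (μ : σ →₀ ℕ) : (P * Q).coeff μ ∈ k := by
  classical
  rw [coeff_mul]
  exact sum_mem fun _ _ => mul_mem (hP _) (hQ _)

theorem DCharP_add {P Q : MvPolynomial σ κ} (hP : ∀ μ, P.coeff μ ∈ k) (hQ : ∀ μ, Q.coeff μ ∈ k)
    (μ : σ →₀ ℕ) : (P + Q).coeff μ ∈ k := by
  rw [coeff_add]
  exact add_mem (hP _) (hQ _)

theorem DCharP_C {c : κ} (hc : c ∈ k) (μ : σ →₀ ℕ) : (C c : MvPolynomial σ κ).coeff μ ∈ k := by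
  classical
  rw [coeff_C]
  split_ifs
  exacts [hc, zero_mem _]

theorem DCharP_t (b : σ) : t b ∈ FX k t := Subfield.subset_closure (Or.inr ⟨b, rfl⟩)

theorem exists_pd (hi : Idp k t) : ∃ d : σ → κ → κ, Pd k t d := by
  classical
  choose P H hP hH h0 he using fun (y : κ) (hy : y ∈ FX k t) => FX_frac t hy
  let d : σ → κ → κ := fun a y => if hy : y ∈ FX k t then
    (eval t (pderiv a (P y hy)) - y * eval t (pderiv a (H y hy))) / eval t (H y hy) else 0
  have key : ∀ a, ∀ y ∈ FX k t, ∀ P' H' : MvPolynomial σ κ, (∀ μ, P'.coeff μ ∈ k) →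
      (∀ μ, H'.coeff μ ∈ k) → y * eval t H' = eval t P' →
      d a y * eval t H' + y * eval t (pderiv a H') = eval t (pderiv a P') := by
    intro a y hy P' H' hP' hH' e
    have e1 := hi (P y hy * H' - P' * H y hy) (fun μ => by
      rw [coeff_sub]
      exact sub_mem (DCharP_mul (hP y hy) hH' μ) (DCharP_mul hP' (hH y hy) μ))
      (by rw [map_sub, map_mul, map_mul, ← e, ← he y hy]; ring)
    have e2 := congrArg (fun Q => eval t (pderiv a Q)) (sub_eq_zero.1 e1)
    simp only [pderiv_mul, map_add, map_mul, ← e, ← he y hy] at e2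
    have e3 : d a y * eval t (H y hy) =
        eval t (pderiv a (P y hy)) - y * eval t (pderiv a (H y hy)) := by
      simp only [d, dif_pos hy]
      exact div_mul_cancel₀ _ (h0 y hy)
    refine mul_right_cancel₀ (h0 y hy) ?_
    linear_combination eval t H' * e3 + e2
  refine ⟨d, fun a y hy y' hy' => ?_, fun a y hy y' hy' => ?_, fun a Q hQ => ?_⟩
  · have e1 := key a y hy _ _ (hP y hy) (hH y hy) (he y hy)
    have e2 := key a y' hy' _ _ (hP y' hy') (hH y' hy') (he y' hy')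
    have e3 := key a (y + y') (add_mem hy hy') _ _
      (DCharP_add (DCharP_mul (hP y hy) (hH y' hy')) (DCharP_mul (hP y' hy') (hH y hy)))
      (DCharP_mul (hH y hy) (hH y' hy'))
      (by rw [map_add, map_mul, map_mul, map_mul, ← he y hy, ← he y' hy']; ring)
    simp only [pderiv_mul, map_add, map_mul, ← he y hy, ← he y' hy', ← e1, ← e2] at e3
    refine mul_right_cancel₀ (mul_ne_zero (h0 y hy) (h0 y' hy')) ?_
    linear_combination e3
  · have e1 := key a y hy _ _ (hP y hy) (hH y hy) (he y hy)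
    have e2 := key a y' hy' _ _ (hP y' hy') (hH y' hy') (he y' hy')
    have e3 := key a (y * y') (mul_mem hy hy') _ _
      (DCharP_mul (hP y hy) (hP y' hy')) (DCharP_mul (hH y hy) (hH y' hy'))
      (by rw [map_mul, map_mul, ← he y hy, ← he y' hy']; ring)
    simp only [pderiv_mul, map_add, map_mul, ← he y hy, ← he y' hy', ← e1, ← e2] at e3
    refine mul_right_cancel₀ (mul_ne_zero (h0 y hy) (h0 y' hy')) ?_
    linear_combination e3
  · simpa using key a _ (ev_FX t hQ) Q (C 1) hQ (DCharP_C (one_mem _)) (by simp)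

theorem Pd.const (h : Pd k t d) (a : σ) {c : κ} (hc : c ∈ k) : d a c = 0 := by
  simpa using h.pol a (C c) (DCharP_C hc)

theorem Pd.neg (h : Pd k t d) (a : σ) {y : κ} (hy : y ∈ FX k t) : d a (-y) = -d a y := by
  have := h.add a y hy _ (neg_mem hy)
  rw [add_neg_cancel, h.const a (zero_mem _)] at this
  exact eq_neg_of_add_eq_zero_right this.symm

theorem Pd.sum (h : Pd k t d) (a : σ) {I : Type} (s : Finset I) {y : I → κ}
    (hy : ∀ i ∈ s, y i ∈ FX k t) : d a (∑ i ∈ s, y i) = ∑ i ∈ s, d a (y i) := by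
  classical
  induction s using Finset.induction_on with
  | empty => simpa using h.const a (zero_mem _)
  | insert i s hi ih =>
    have h1 : ∀ j ∈ s, y j ∈ FX k t := fun j hj => hy j (Finset.mem_insert_of_mem hj)
    rw [Finset.sum_insert hi, Finset.sum_insert hi,
      h.add a _ (hy i (Finset.mem_insert_self _ _)) _ (sum_mem h1), ih h1]

theorem Pd.div (h : Pd k t d) (a : σ) {y z : κ} (hy : y ∈ FX k t) (hz : z ∈ FX k t) (h0 : z ≠ 0) :
    d a (y / z) = (d a y * z - y * d a z) / z ^ 2 := by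
  have := h.mul a _ (div_mem hy hz) z hz
  rw [div_mul_cancel₀ _ h0] at this
  rw [this]
  field_simp
  ring

variable {p : ℕ} [Fact p.Prime] [CharP κ p]

omit [Fact p.Prime] [CharP κ p] in
theorem DCharP_pow (h : Pd k t d) (a : σ) {y : κ} (hy : y ∈ FX k t) (n : ℕ) :
    d a (y ^ (n + 1)) = (n + 1 : ℕ) * y ^ n * d a y := by
  induction n with
  | zero => simp
  | succ n ih =>
    rw [pow_succ, h.mul a _ (pow_mem hy _) y hy, ih]
    push_cast
    ring

theorem Pd.pow (h : Pd k t d) (a : σ) {y : κ} (hy : y ∈ FX k t) : d a (y ^ p) = 0 := by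
  have := DCharP_pow h a hy (p - 1)
  rw [Nat.sub_add_cancel (Fact.out : p.Prime).pos, CharP.cast_eq_zero] at this
  simpa using this

theorem Pd.pw (h : Pd k t d) {y : κ} (hy : y ∈ FX k fun b => t b ^ p) :
    y ∈ FX k t ∧ ∀ a, d a y = 0 := by
  induction hy using Subfield.closure_induction with
  | mem x hx =>
    rcases hx with hx | ⟨b, rfl⟩
    · exact ⟨Subfield.subset_closure (Or.inl hx), fun a => h.const a hx⟩
    · exact ⟨pow_mem (DCharP_t b) p, fun a => h.pow a (DCharP_t b)⟩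
  | one => exact ⟨one_mem _, fun a => h.const a (one_mem _)⟩
  | add x y _ _ hx hy =>
    exact ⟨add_mem hx.1 hy.1, fun a => by rw [h.add a x hx.1 y hy.1, hx.2, hy.2, add_zero]⟩
  | neg x _ hx => exact ⟨neg_mem hx.1, fun a => by rw [h.neg a hx.1, hx.2, neg_zero]⟩
  | inv x _ hx =>
    refine ⟨inv_mem hx.1, fun a => ?_⟩
    rcases eq_or_ne x 0 with rfl | h0
    · rw [inv_zero, hx.2]
    · rw [← one_div, h.div a (one_mem _) hx.1 h0, hx.2, h.const a (one_mem _)]
      simp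
  | mul x y _ _ hx hy =>
    exact ⟨mul_mem hx.1 hy.1, fun a => by rw [h.mul a x hx.1 y hy.1, hx.2, hy.2]; simp⟩

theorem moore_vec {Q : Type} [Fintype Q] (ρ : Q → κ) (H : Q → σ → κ) (hρ : ρ ≠ 0) (n0 : ℕ)
    (h : ∀ n, n0 ≤ n → ∀ a, ∑ i, ρ i ^ p ^ n * H i a = 0) :
    ∃ c : Q → ℕ, (∀ i, c i < p) ∧ c ≠ 0 ∧ ∀ a, ∑ i, (c i : κ) * H i a = 0 := by
  classical
  induction hN : (Finset.univ.filter fun i => ρ i ≠ 0).card using Nat.strong_induction_on
    generalizing ρ with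
  | _ N ih =>
    obtain ⟨i0, h0⟩ := Function.ne_iff.1 hρ
    have h0 : ρ i0 ≠ 0 := h0
    have h1 : ∀ n, n0 ≤ n → ∀ a, ∑ i, (ρ i / ρ i0) ^ p ^ n * H i a = 0 := fun n hn a => by
      simp only [div_pow, div_mul_eq_mul_div, ← Finset.sum_div, h n hn, zero_div]
    by_cases h2 : (fun i => (ρ i / ρ i0) ^ p - ρ i / ρ i0) = 0
    · have h3 : ∀ i, (ρ i / ρ i0) ^ p = ρ i / ρ i0 := fun i => sub_eq_zero.1 (congrFun h2 i)
      choose c h4 h5 using fun i => prime_field (h3 i)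
      refine ⟨c, h4, fun h6 => ?_, fun a => ?_⟩
      · have := h5 i0
        rw [h6, div_self h0] at this
        simp at this
      · rw [← h1 n0 le_rfl a]
        refine Finset.sum_congr rfl fun i _ => ?_
        rw [← h5 i, ← Alg1_pow (h3 i)]
    · refine ih _ ?_ _ h2 (fun n hn a => ?_) rfl
      · rw [← hN]
        refine Finset.card_lt_card ⟨fun i hi => ?_, fun hs => ?_⟩
        · simp only [Finset.mem_filter, Finset.mem_univ, true_and] at hi ⊢
          exact fun h3 => hi (by simp [h3, (Fact.out : p.Prime).ne_zero])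
        · have := hs (Finset.mem_filter.2 ⟨Finset.mem_univ i0, h0⟩)
          simp [div_self h0] at this
      · simp only [sub_pow_char_pow, sub_mul, Finset.sum_sub_distrib, ← pow_mul, ← pow_succ',
          h1 n hn, h1 (n + 1) (hn.trans n.le_succ), sub_zero]

theorem pd_moore (h : Pd k t d) {Q : Type} [Fintype Q] (ρ u : Q → κ) (hρ : ρ ≠ 0)
    (hu : ∀ i, u i ∈ FX k t) (n0 : ℕ)
    (hn : ∀ n, n0 ≤ n → (∀ i, ρ i ^ p ^ n ∈ FX k fun b => t b ^ p) ∧
      ∑ i, ρ i ^ p ^ n * u i ∈ FX k fun b => t b ^ p) :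
    ∃ c : Q → ℕ, (∀ i, c i < p) ∧ c ≠ 0 ∧ ∀ a, ∑ i, (c i : κ) * d a (u i) = 0 := by
  refine moore_vec ρ (fun i a => d a (u i)) hρ n0 fun n h1 a => ?_
  obtain ⟨h2, h3⟩ := hn n h1
  rw [← (h.pw h3).2 a, h.sum a _ fun i _ => mul_mem (h.pw (h2 i)).1 (hu i)]
  refine Finset.sum_congr rfl fun i _ => ?_
  rw [h.mul a _ (h.pw (h2 i)).1 _ (hu i), (h.pw (h2 i)).2, mul_zero, add_zero]

end Pool.Agent.Work.MP_dd0d16_nt.T
end

-- merged part: Pool.Agent.Work.MP_dd0d16_nt.D.Tow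
section
/-!
The tower of inverse images under the Frobenius automorphism.

PLAN. `map_ev`: `eval₂_comp_left`, `eval_map` or induction on `P`. `Frb.sub`: `s a - a ^ p ∈ W`, `disc`.
`Frb.log_le`: `s a = a ^ p * (1 + p * w)` with `w` integral, so `s (L a) = p * L a + L (1 + p * w)`;
`v (L (1 + p * w)) < 1` by `log_bd`, `Bd.p_mul` (G/Res1, G/Res0). With `v (s (L a)) = v (L a)` we get
`v (L a) < 1` (if `1 ≤ v (L a)` both terms have a smaller value); `L a ∈ W` (`LF.mem`), `disc`.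
`DifW.back`: apply `s.symm` to the equations (`map_ev`, `pderiv_map`, `Option.elim` by cases).
`Gau.back`: `exists_resF`, `Gau.idp`, `Idp.root`, `gau_of_idp`; the residue of `x a = s (s.symm (x a))`
is the `p`-th power of the residue of `s.symm (x a)` (`frob`, `ResF.eq`).
`DifW.ar`: `AR.newton` for `Ψ = Φ a`, `y = s (x a)`, `e = x a ^ p`.
`DifW.le`: `AR.trans`, `Gau.frac`, `ev_mem`, `AR.div`, `DifW.ar` for `DifW.back`.
`log_step`: with `a' = s.symm a`, `a = a' ^ p * z`, `z = a / a' ^ p ∈ AR` (`AR.div`), `v (z - 1) ≤ v p`,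
`L a - p * L a' = L z`, `AR.log`.
-/

set_option autoImplicit false

namespace Pool.Agent.Work.MP_dd0d16_nt.T

open MvPolynomial

variable {Ω Γ : Type} [Field Ω] [LinearOrderedCommGroupWithZero Γ] {v : Valuation Ω Γ}
  {L : Ω → Ω} {E W F : Subfield Ω} {p m : ℕ} [Fact p.Prime] {s : Ω ≃+* Ω} {x : Fin m → Ω}
  {Φ : Fin m → MvPolynomial (Option (Fin m)) Ω}

omit [Fact p.Prime] in
theorem map_ev {A B σ : Type} [CommRing A] [CommRing B] (f : A →+* B) (x : σ → A)
    (P : MvPolynomial σ A) : f (eval x P) = eval (fun a => f (x a)) (map f P) := by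
  induction P using MvPolynomial.induction_on with
  | C a => simp
  | add P Q hP hQ => simp only [map_add, hP, hQ]
  | mul_X P a hP => simp only [map_mul, hP, eval_X, map_X]

theorem Frb.val_symm (hs : Frb p v L s W) (a : Ω) : v (s.symm a) = v a := by
  rw [← hs.val, s.apply_symm_apply]

theorem Frb.log_symm (hs : Frb p v L s W) {a : Ω} (h0 : a ≠ 0) : L (s.symm a) = s.symm (L a) := by
  rw [s.eq_symm_apply, ← hs.log _ (by simpa using h0), s.apply_symm_apply]

theorem Frb.sub (hs : Frb p v L s W) {a : Ω} (ha : a ∈ W) (h1 : v a ≤ 1) :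
    v (s a - a ^ p) ≤ v p := by
  exact hs.disc _ (sub_mem (hs.fwd a ha) (pow_mem ha p)) (hs.frob a h1)

omit [Fact p.Prime] in
theorem DTow_pow (h : LF p v L E) {a : Ω} (h0 : a ≠ 0) (n : ℕ) : L (a ^ n) = n * L a := by
  induction n with
  | zero => simpa using h.one
  | succ n ih => rw [pow_succ, h.mul _ _ (pow_ne_zero _ h0) h0, ih]; push_cast; ring

omit [Fact p.Prime] in
theorem DTow_ninf (h1 : v p < 1) {b : Ω} (hb : v b = 1) : ¬ Inf v (v p) b := fun k => by
  have := k 1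
  rw [hb, pow_one] at this
  exact h1.not_ge this

theorem Frb.log_le [CharZero Ω] (hW : LF p v L W) (hT : Tail p v L) (hs : Frb p v L s W) {a : Ω}
    (ha : a ∈ W) (h1 : v a = 1) : v (L a) ≤ v p := by
  have a0 : a ≠ 0 := v.ne_zero_iff.1 (h1 ▸ one_ne_zero)
  have p0 : (p : Ω) ≠ 0 := v.ne_zero_iff.1 hW.p0
  obtain ⟨w, w1, w2⟩ : ∃ w, v w ≤ 1 ∧ s a = a ^ p * (1 + p * w) := by
    refine ⟨(s a - a ^ p) / (p * a ^ p), ?_, by field_simp; ring⟩
    rw [map_div₀, map_mul, map_pow, h1, one_pow, mul_one]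
    exact div_le_one_of_le₀ (hs.sub ha h1.le) zero_le
  have n0 : 1 + p * w ≠ 0 := fun e => by
    rw [e, mul_zero] at w2
    exact a0 (by simpa using w2)
  have e1 : s (L a) = p * L a + L (1 + p * w) := by
    rw [← hs.log a a0, w2, hW.mul _ _ (pow_ne_zero _ a0) n0, DTow_pow hW a0]
  have e2 : v (L (1 + p * w)) < 1 := by
    have := (log_bd hW.p0 hW.p1 hT (Bd.of_le hW.p1 w1)).p_mul
    rw [mul_div_cancel₀ _ p0] at this
    exact lt_of_not_ge fun k => (this.trans_lt hW.p1).not_ge (one_le_pow₀ k)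
  refine hs.disc _ (hW.mem a ha a0) (lt_of_not_ge fun k => ?_)
  have e3 : v (p * L a) < v (L a) := by
    rw [map_mul]
    exact mul_lt_of_lt_one_left (zero_lt_one.trans_le k) hW.p1
  have := v.map_add_lt e3 (e2.trans_le k)
  rw [← e1, hs.val] at this
  exact this.false

theorem Cw.back (hs : Frb p v L s W) (hE : Unf v s W E) {σ : Type} {P : MvPolynomial σ Ω}
    (h : Cw v W E P) : Cw v W E (map (s.symm : Ω →+* Ω) P) := by
  intro μ
  rw [coeff_map]
  exact ⟨hE.bwd _ (h μ).1 (h μ).2.1, hs.bwd _ (h μ).2.1, (hs.val_symm _).trans_le (h μ).2.2⟩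

theorem Cw.fwd (hs : Frb p v L s W) (hE : Unf v s W E) {σ : Type} {P : MvPolynomial σ Ω}
    (h : Cw v W E P) : Cw v W E (map (s : Ω →+* Ω) P) := by
  intro μ
  rw [coeff_map]
  exact ⟨hE.fwd _ (h μ).1 (h μ).2.1, hs.fwd _ (h μ).2.1, (hs.val _).trans_le (h μ).2.2⟩

theorem DifW.back (hs : Frb p v L s W) (hE : Unf v s W E) (h : DifW v s W E x Φ) :
    DifW v s W E (fun a => s.symm (x a)) fun a => map (s.symm : Ω →+* Ω) (Φ a) := by
  have e : ∀ a (P : MvPolynomial (Option (Fin m)) Ω),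
      eval (fun o : Option (Fin m) => o.elim (s (s.symm (x a))) fun a => s.symm (x a))
        (map (s.symm : Ω →+* Ω) P) =
      s.symm (eval (fun o : Option (Fin m) => o.elim (s (x a)) x) P) := fun a P => by
    refine Eq.trans ?_ (map_ev (s.symm : Ω →+* Ω) _ P).symm
    congr 2
    funext o
    cases o <;> simp
  refine ⟨fun a => hs.bwd _ (h.mem a), fun a => (hs.val_symm _).trans_le (h.int a),
    fun a => (h.co a).back hs hE, fun a => ?_, fun a => ?_⟩
  · rw [e, h.zero, map_zero]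
  · rw [pderiv_map, e, hs.val_symm, h.unit]

theorem Gau.back (h1 : v p < 1) (hs : Frb p v L s W) (hx : ∀ a, v (x a) ≤ 1) (h : Gau v E x) :
    Gau v E fun a => s.symm (x a) := by
  obtain ⟨κ, _, _, res, hk⟩ := exists_resF (v := v) h1
  obtain ⟨k, hk⟩ := hk E
  have hy : ∀ a, v (s.symm (x a)) ≤ 1 := fun a => (hs.val_symm _).trans_le (hx a)
  have i1 := Gau.idp hk (x := fun a => ⟨x a, hx a⟩) h
  refine gau_of_idp hk (x := fun a => ⟨s.symm (x a), hy a⟩) (Idp.root (p := p) ?_)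
  convert i1 using 2 with a
  rw [← map_pow]
  refine (hk.eq ?_).symm
  have := hs.frob _ (hy a)
  rwa [s.apply_symm_apply] at this

theorem DifW.ar (h1 : v p < 1) (hs : Frb p v L s W) (h : DifW v s W E x Φ) (a : Fin m) :
    s (x a) ∈ AR v p (FX E x) := by
  have hx : ∀ a, x a ∈ AR v p (FX E x) := fun a =>
    AR.of_mem (Subfield.subset_closure (Or.inr ⟨a, rfl⟩)) (h.int a)
  exact AR.newton h1 hx (fun μ => AR.of_mem (Subfield.subset_closure (Or.inl (h.co a μ).1))
    (h.co a μ).2.2) (h.zero a) (h.unit a) (pow_mem (hx a) p) (hs.sub (h.mem a) (h.int a))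

theorem DifW.le (h1 : v p < 1) (hs : Frb p v L s W) (hE : Unf v s W E) (h : DifW v s W E x Φ)
    (hG : Gau v E x) : AR v p (FX E x) ≤ AR v p (FX E fun a => s.symm (x a)) := by
  have hx : ∀ a, x a ∈ AR v p (FX E fun a => s.symm (x a)) := fun a => by
    simpa using (h.back hs hE).ar h1 hs a
  refine AR.trans fun e he e1 => ?_
  obtain ⟨P, H, hP, hH, k1, k2⟩ := hG.frac h.int he e1
  have H0 : eval x H ≠ 0 := v.ne_zero_iff.1 (k1 ▸ one_ne_zero)
  rw [eq_div_of_mul_eq H0 k2]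
  exact AR.div
    (ev_mem _ hx fun μ => AR.of_mem (Subfield.subset_closure (Or.inl (hP μ).1)) (hP μ).2)
    (ev_mem _ hx fun μ => AR.of_mem (Subfield.subset_closure (Or.inl (hH μ).1)) (hH μ).2)
    (k1 ▸ ev_le h.int fun μ => (hP μ).2) (DTow_ninf h1 k1)

theorem log_step [CharZero Ω] (h : LF p v L E) (hT : Tail p v L) (hs : Frb p v L s W) {a : Ω}
    (ha : a ∈ W) (h1 : v a = 1) (h2 : a ∈ AR v p F) (h3 : s.symm a ∈ AR v p F) :
    L a - p * s.symm (L a) ∈ AR v p F := by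
  have a0 : a ≠ 0 := v.ne_zero_iff.1 (h1 ▸ one_ne_zero)
  have b1 : v (s.symm a) = 1 := (hs.val_symm a).trans h1
  have b0 : s.symm a ≠ 0 := v.ne_zero_iff.1 (b1 ▸ one_ne_zero)
  have b2 : v (s.symm a ^ p) = 1 := by rw [map_pow, b1, one_pow]
  have b3 := pow_ne_zero p b0
  have z1 : v (a / s.symm a ^ p - 1) ≤ v p := by
    have := hs.sub (hs.bwd a ha) b1.le
    rw [s.apply_symm_apply] at this
    rwa [div_sub_one b3, map_div₀, b2, div_one]
  have z2 := AR.log h hT (AR.div h2 (pow_mem h3 p) (h1.trans b2.symm).le (DTow_ninf h.p1 b2)) z1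
  have e := h.mul _ _ b3 (div_ne_zero a0 b3)
  rw [mul_div_cancel₀ _ b3, DTow_pow h b0, hs.log_symm a0] at e
  rwa [← sub_eq_iff_eq_add'.2 e] at z2

end Pool.Agent.Work.MP_dd0d16_nt.T
end

-- merged part: Pool.Agent.Work.MP_dd0d16_nt.D.CharQ
section
/-!
The derivative of the residue of a logarithm.

PLAN. `pd_w`: `η b = - R b (t) / S b (t)` and `w = (A (t) + ∑ b, (∂ b π (t)) ^ p * η b) / π (t) ^ p` lie in
`FX k t` (`ev_FX`; coefficients of `pderiv` by `coeff_pderiv`). Apply `d a` to `hw` (`Pd.pow` kills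
the `p`-th powers, `(ε : κ) ∈ k`), use `hA`, `Pd.div`, and divide by `π (t) ^ p = π (t) ^ (p - 1) * π (t)`.
`cp_main`: `exists_pd`, `pd_moore`, `pd_w`; `(∑ i, c i * h i b) ^ p = ∑ i, c i * h i b ^ p`
(`sum_pow_char`, `map_natCast (frobenius κ p)`).
-/

set_option autoImplicit false

namespace Pool.Agent.Work.MP_dd0d16_nt.T

open MvPolynomial

variable {κ : Type} [Field κ] {k : Subfield κ} {m : ℕ} {t : Fin m → κ} {p : ℕ} [Fact p.Prime]
  [CharP κ p]

theorem pd_w {d : Fin m → κ → κ} (h : Pd k t d) {π A : MvPolynomial (Fin m) κ}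
    {R S : Fin m → MvPolynomial (Fin m) κ} (hπ : ∀ μ, π.coeff μ ∈ k) (hAk : ∀ μ, A.coeff μ ∈ k)
    (hR : ∀ b μ, (R b).coeff μ ∈ k) (hS : ∀ b μ, (S b).coeff μ ∈ k) (hπ0 : eval t π ≠ 0)
    (hS0 : ∀ b, eval t (S b) ≠ 0) {η : Fin m → κ} (hη : ∀ b, η b * eval t (S b) = -eval t (R b))
    (hA : ∀ a, eval t (pderiv a A) =
      t a ^ (p - 1) * eval t (pderiv a π) ^ p - eval t π ^ (p - 1) * eval t (pderiv a π))
    {w : κ} (hw : w * eval t π ^ p = eval t A + ∑ b, eval t (pderiv b π) ^ p * η b) (ε : ℤ) :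
    w + ε * w ^ p ∈ FX k t ∧ ∀ a, d a (w + ε * w ^ p) =
      t a ^ (p - 1) * (eval t (pderiv a π) / eval t π) ^ p - eval t (pderiv a π) / eval t π -
        ∑ b, (eval t (pderiv b π) / eval t π) ^ p *
          ((eval t (pderiv a (R b)) * eval t (S b) - eval t (R b) * eval t (pderiv a (S b))) /
            eval t (S b) ^ 2) := by
  have dπ : ∀ b, eval t (pderiv b π) ∈ FX k t := fun b => ev_FX t fun μ => by
    rw [coeff_pderiv]
    exact mul_mem (hπ _) (add_mem (natCast_mem k _) (one_mem k))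
  have eη : ∀ b, η b = -(eval t (R b) / eval t (S b)) := fun b => by
    rw [← neg_div, eq_div_iff (hS0 b), hη]
  have mq : ∀ b, eval t (R b) / eval t (S b) ∈ FX k t := fun b =>
    div_mem (ev_FX t (hR b)) (ev_FX t (hS b))
  have mη : ∀ b, η b ∈ FX k t := fun b => eη b ▸ neg_mem (mq b)
  have ms : ∀ b, eval t (pderiv b π) ^ p * η b ∈ FX k t := fun b =>
    mul_mem (pow_mem (dπ b) p) (mη b)
  have mπ := ev_FX t hπ
  have mw : w ∈ FX k t := by
    rw [(eq_div_iff (pow_ne_zero p hπ0)).2 hw]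
    exact div_mem (add_mem (ev_FX t hAk) (sum_mem fun b _ => ms b)) (pow_mem mπ p)
  have mε : (ε : κ) ∈ FX k t := intCast_mem _ ε
  refine ⟨add_mem mw (mul_mem mε (pow_mem mw p)), fun a => ?_⟩
  have e := congrArg (d a) hw
  rw [h.mul a _ mw _ (pow_mem mπ p), h.pow a mπ, h.add a _ (ev_FX t hAk) _
    (sum_mem fun b _ => ms b), h.pol a A hAk, hA, h.sum a _ fun b _ => ms b] at e
  have e2 : ∀ b, d a (eval t (pderiv b π) ^ p * η b) = -(eval t π ^ p *
      ((eval t (pderiv b π) / eval t π) ^ p * ((eval t (pderiv a (R b)) * eval t (S b) -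
        eval t (R b) * eval t (pderiv a (S b))) / eval t (S b) ^ 2))) := fun b => by
    rw [h.mul a _ (pow_mem (dπ b) p) _ (mη b), h.pow a (dπ b), eη, h.neg a (mq b),
      h.div a (ev_FX t (hR b)) (ev_FX t (hS b)) (hS0 b), h.pol a _ (hR b), h.pol a _ (hS b),
      div_pow, ← mul_assoc, mul_div_cancel₀ _ (pow_ne_zero p hπ0)]
    ring
  simp only [e2, Finset.sum_neg_distrib, ← Finset.mul_sum] at e
  rw [h.add a _ mw _ (mul_mem mε (pow_mem mw p)), h.mul a _ mε _ (pow_mem mw p), h.pow a mw,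
    h.const a (intCast_mem k ε)]
  refine mul_left_cancel₀ (pow_ne_zero p hπ0) ?_
  have e3 : eval t π ^ p * (eval t (pderiv a π) / eval t π) =
      eval t π ^ (p - 1) * eval t (pderiv a π) := by
    rw [← pow_sub_one_mul (Fact.out : p.Prime).ne_zero, mul_assoc, mul_div_cancel₀ _ hπ0]
  have e4 : eval t π ^ p * (eval t (pderiv a π) / eval t π) ^ p = eval t (pderiv a π) ^ p := by
    rw [div_pow, mul_div_cancel₀ _ (pow_ne_zero p hπ0)]
  linear_combination e + e3 - t a ^ (p - 1) * e4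

theorem cp_main (hi : Idp k t) {Q : Type} [Fintype Q] {π A : Q → MvPolynomial (Fin m) κ}
    {R S : Fin m → MvPolynomial (Fin m) κ} (hπ : ∀ i μ, (π i).coeff μ ∈ k)
    (hAk : ∀ i μ, (A i).coeff μ ∈ k) (hR : ∀ b μ, (R b).coeff μ ∈ k)
    (hS : ∀ b μ, (S b).coeff μ ∈ k) (hπ0 : ∀ i, eval t (π i) ≠ 0) (hS0 : ∀ b, eval t (S b) ≠ 0)
    {η : Fin m → κ} (hη : ∀ b, η b * eval t (S b) = -eval t (R b))
    (hA : ∀ i a, eval t (pderiv a (A i)) = t a ^ (p - 1) * eval t (pderiv a (π i)) ^ p -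
      eval t (π i) ^ (p - 1) * eval t (pderiv a (π i)))
    {w : Q → κ}
    (hw : ∀ i, w i * eval t (π i) ^ p = eval t (A i) + ∑ b, eval t (pderiv b (π i)) ^ p * η b)
    (ε : ℤ) (ρ : Q → κ) (hρ : ρ ≠ 0) (n0 : ℕ)
    (hn : ∀ n, n0 ≤ n → (∀ i, ρ i ^ p ^ n ∈ FX k fun b => t b ^ p) ∧
      ∑ i, ρ i ^ p ^ n * (w i + ε * w i ^ p) ∈ FX k fun b => t b ^ p) :
    ∃ c : Q → ℕ, (∀ i, c i < p) ∧ c ≠ 0 ∧ ∀ h : Fin m → κ,
      (∀ a, h a = ∑ i, c i * (eval t (pderiv a (π i)) / eval t (π i))) → ∀ a,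
      t a ^ (p - 1) * h a ^ p - h a - ∑ b, h b ^ p *
        ((eval t (pderiv a (R b)) * eval t (S b) - eval t (R b) * eval t (pderiv a (S b))) /
          eval t (S b) ^ 2) = 0 := by
  obtain ⟨d, hd⟩ := exists_pd hi
  have key := fun i => pd_w hd (hπ i) (hAk i) hR hS (hπ0 i) hS0 hη (hA i) (hw i) ε
  obtain ⟨c, h1, h2, h3⟩ := pd_moore hd ρ _ hρ (fun i => (key i).1) n0 hn
  refine ⟨c, h1, h2, fun h hh a => ?_⟩
  have hp : ∀ b, h b ^ p = ∑ i, c i * (eval t (pderiv b (π i)) / eval t (π i)) ^ p := fun b => by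
    rw [hh, sum_pow_char]
    refine Finset.sum_congr rfl fun i _ => ?_
    rw [mul_pow, ← frobenius_def (R := κ) p (c i : κ), map_natCast]
  rw [← h3 a]
  simp only [hp, fun i => (key i).2 a, mul_sub, Finset.sum_sub_distrib, Finset.mul_sum,
    Finset.sum_mul]
  rw [hh a, Finset.sum_comm]
  congr 1
  · congr 1
    exact Finset.sum_congr rfl fun i _ => by ring
  · exact Finset.sum_congr rfl fun i _ => Finset.sum_congr rfl fun b _ => by ring

end Pool.Agent.Work.MP_dd0d16_nt.T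
end

-- merged part: Pool.Agent.Work.MP_dd0d16_nt.D.StepD
section
/-!
The dichotomy from the independence of the logarithms of the primes.

PLAN. Copy `StepC_fin` (G/StepC) without monomials in `X` and without `ϖ`. `a` from `pow_close`,
`s, ρ` from `StepC_rows` with `N = p ^ a`, `D, C` from `right_inv` for the rows `o l`, `l : s`.
`t l = L (u l ^ p ^ a) = p ^ a * L (u l) ∈ AR` (`AR.log`, `AR.of_mem`; `u l ∈ FX E X`).
`T2 i = (D * p ^ a) * L (P i) + ∑ l, C i l * t l`, and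
`T' l = ∑ i, o l i * T2 i = D * p ^ a * (L (α l) - L (κ l))`. For an independent family `y` in `AR` the
hypothesis `TA` gives `SI (Sum.elim y T2)`, and `si_lin` (block matrix: identity on `y`, `o l i` on
`T2`; lemma `StepD_lin`) gives `SI (Sum.elim y T')`. Apply `ladder` with `y = Sum.elim X T'`, `τ = Empty`,
`u = w`, `μ = L ∘ w`; its hypothesis comes from `ax_top h le_rfl` with the family
`Sum.elim X (L ∘ w ∘ e)` in `AR`. Second case: `exch`.
-/

set_option autoImplicit false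

namespace Pool.Agent.Work.MP_dd0d16_nt.T

variable {Ω Γ : Type} [Field Ω] [CharZero Ω] [LinearOrderedCommGroupWithZero Γ]
  {v : Valuation Ω Γ} {L : Ω → Ω} {E : Subfield Ω} {p m : ℕ} [Fact p.Prime]

omit [Fact p.Prime] in
theorem StepD_lin (h : LF p v L E) {τ I Q : Type} [Fintype τ] [Fintype I] [Fintype Q] {y : τ → Ω}
    {T : Q → Ω} (hy : ∀ j, v (y j) ≤ 1) (hT : ∀ j, v (T j) ≤ 1)
    (hs : SI v E (v p) (Sum.elim y T)) (B : I → Q → ℤ)
    (hB : ∀ c : I → ℤ, (∀ j, ∑ i, c i * B i j = 0) → c = 0) :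
    SI v E (v p) (Sum.elim y fun i => ∑ j, B i j * T j) := by
  classical
  refine si_lin h (T := Sum.elim y T) (by rintro (j | j); exacts [hy j, hT j]) hs
    (Sum.elim (fun a => Sum.elim (fun b => if a = b then 1 else 0) fun _ => 0)
      fun a => Sum.elim (fun _ => 0) (B a)) (fun c hc => ?_) ?_
  · have e2 : (fun i => c (Sum.inr i)) = 0 := hB _ fun j => by
      simpa [Fintype.sum_sum_type] using hc (Sum.inr j)
    funext x
    rcases x with x | x
    · simpa [Fintype.sum_sum_type] using hc (Sum.inl x)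
    · exact congrFun e2 x
  · rintro (i | i) c <;> simp [Fintype.sum_sum_type]

omit [CharZero Ω] [Fact p.Prime] in
theorem DStepD_prod {Q I : Type} [Fintype Q] [Fintype I] {P : Q → Ω} (hP : ∀ i, P i ≠ 0)
    {α u κ : I → Ω} {o : I → Q → ℕ} (hα : ∀ k, α k = κ k * (∏ i, P i ^ o k i) * u k) {r : I → ℤ}
    (hr : ∀ i, ∑ j, (o j i : ℤ) * r j = 0) :
    ∏ j, α j ^ r j = (∏ j, κ j ^ r j) * ∏ j, u j ^ r j := by
  have e := Step_zpow hP (fun j i => (o j i : ℤ)) r
  simp only [hr, zpow_zero, Finset.prod_const_one, zpow_natCast] at e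
  simp only [hα, mul_zpow, Finset.prod_mul_distrib]
  rw [e, mul_one]

theorem DStepD_fin (h : LF p v L E) (hT : Tail p v L) (X : Fin m → Ω) (hX : ∀ d, v (X d) ≤ 1)
    (hs : SSI v p E X) {Q I : Type} [Fintype Q] [Fintype I] (P : Q → Ω)
    (hP : ∀ i, P i ≠ 0 ∧ P i ∈ FX E X ∧ v (L (P i)) ≤ 1)
    (hA : TA v p E (AR v p (FX E X)) fun i => L (P i)) (α u κ : I → Ω) (o : I → Q → ℕ)
    (hα : ∀ k, κ k ∈ E ∧ κ k ≠ 0 ∧ Sm v p (u k - 1) ∧ α k = κ k * (∏ i, P i ^ o k i) * u k)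
    (hα' : ∀ k, α k ∈ FX E X) :
    (∃ r : I → ℤ, r ≠ 0 ∧ ∏ i, α i ^ r i ∈ E) ∨
      AlgebraicIndependent E (Sum.elim X fun i => L (α i)) := by
  classical
  have hp0 : (p : ℤ) ≠ 0 := Int.natCast_ne_zero.2 (Fact.out : p.Prime).ne_zero
  have hP0 : ∀ i, P i ≠ 0 := fun i => (hP i).1
  have hu : ∀ k, u k ≠ 0 := fun k e => by simpa [e] using (hα k).2.2.1.lt h.p1
  have hPp : ∀ k, ∏ i, P i ^ o k i ≠ 0 := fun k =>
    Finset.prod_ne_zero_iff.2 fun i _ => pow_ne_zero _ (hP0 i)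
  have hα0 : ∀ k, α k ≠ 0 := fun k => (hα k).2.2.2 ▸
    mul_ne_zero (mul_ne_zero (hα k).2.1 (hPp k)) (hu k)
  have hEF : ∀ c ∈ E, c ∈ FX E X := fun c hc => Subfield.subset_closure (Or.inl hc)
  have huF : ∀ k, u k ∈ FX E X := by
    intro k
    rw [(eq_div_iff (mul_ne_zero (hα k).2.1 (hPp k))).2 ((mul_comm _ _).trans (hα k).2.2.2.symm)]
    exact div_mem (hα' k) (mul_mem (hEF _ (hα k).1) (prod_mem fun i _ => pow_mem (hP i).2.1 _))
  have hlog : ∀ z ∈ FX E X, v (z - 1) ≤ v p → L z ∈ AR v p (FX E X) := by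
    intro z hz h1
    refine AR.log h hT (AR.of_mem hz ?_) h1
    have := v.map_add_le (h1.trans h.p1.le) v.map_one.le
    rwa [sub_add_cancel] at this
  obtain ⟨a, ha⟩ := (Filter.eventually_all.2 fun k => pow_close h.p1 (hα k).2.2.1).exists
  have hN : ((p ^ a : ℕ) : ℤ) ≠ 0 := by exact_mod_cast pow_ne_zero a hp0
  obtain ⟨s, ρ, r1, r2, r3⟩ := StepC_rows (fun k j => (o k j : ℤ)) hN
  obtain ⟨D, C, hD, hC⟩ := right_inv (fun (l : s) j => (o l j : ℤ)) r1
  have hLα : ∀ k, L (α k) = L (κ k) + ∑ i, o k i * L (P i) + L (u k) := by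
    intro k
    have e := h.prod_zpow Finset.univ P hP0 fun i => (o k i : ℤ)
    simp only [zpow_natCast, Int.cast_natCast] at e
    rw [(hα k).2.2.2, h.mul _ _ (mul_ne_zero (hα k).2.1 (hPp k)) (hu k),
      h.mul _ _ (hα k).2.1 (hPp k), e]
  have ht : ∀ k, L (u k ^ p ^ a) ∈ AR v p (FX E X) := fun k => hlog _ (pow_mem (huF k) _) (ha k)
  have ht' : ∀ i, ∑ l : s, C i l * L (u l ^ p ^ a) ∈ AR v p (FX E X) := fun i =>
    sum_mem fun l _ => mul_mem (intCast_mem _ _) (ht l)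
  let T2 : Q → Ω := fun i =>
    ((D * (p ^ a : ℕ) : ℤ) : Ω) * L (P i) + ∑ l : s, C i l * L (u l ^ p ^ a)
  have hint : ∀ n : ℤ, v (n : Ω) ≤ 1 := fun n => intCast_mem v.integer n
  have hT2 : ∀ i, v (T2 i) ≤ 1 := fun i => v.map_add_le (by
    rw [map_mul]
    exact mul_le_one' (hint _) (hP i).2.2) (ht' i).1
  let T' : s → Ω := fun l => ∑ i, ((o l i : ℤ) : Ω) * T2 i
  have t1 : ∀ (τ : Type) [Fintype τ] (y : τ → Ω), (∀ j, y j ∈ AR v p (FX E X)) →
      SI v E (v p) y → SI v E (v p) (Sum.elim y T') := fun τ _ y hy hy' =>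
    StepD_lin h (fun j => (hy j).1) hT2 (hA τ y _ _ (mul_ne_zero hD hN) hy ht' hy')
      (fun (l : s) j => (o l j : ℤ)) r1
  have t2 : ∀ l, v (T' l) ≤ 1 := fun l => v.map_sum_le fun i _ => by
    rw [map_mul]
    exact mul_le_one' (hint _) (hT2 i)
  have t4 : ∀ l, T' l = ((D * (p ^ a : ℕ) : ℤ) : Ω) * (L (α l) - L (κ l)) := by
    intro l
    have e : ∑ i, ((o l i : ℤ) : Ω) * ∑ l' : s, C i l' * L (u l' ^ p ^ a) =
        D * L (u l ^ p ^ a) := by
      have e1 : ∀ l' : s, ∑ i, ((o l i : ℤ) : Ω) * (C i l' * L (u l' ^ p ^ a)) =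
          if l = l' then D * L (u l' ^ p ^ a) else 0 := by
        intro l'
        have e2 := congrArg (Int.cast : ℤ → Ω) (hC l l')
        simp only [← mul_assoc, ← Finset.sum_mul]
        push_cast at e2 ⊢
        rw [e2]
        split_ifs <;> simp
      simp only [Finset.mul_sum]
      rw [Finset.sum_comm]
      simp only [e1, Finset.sum_ite_eq, Finset.mem_univ, if_true]
    simp only [T', T2, mul_add, Finset.sum_add_distrib]
    rw [e, StepC_pow h (hu l), hLα]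
    simp only [mul_left_comm _ ((D * (p ^ a : ℕ) : ℤ) : Ω), ← Finset.mul_sum]
    push_cast
    ring
  let w : {k // k ∉ s} → Ω := fun k => ∏ j, u j ^ (((p ^ a : ℕ) : ℤ) * ρ k j)
  have w0 : ∀ k, w k ≠ 0 := fun k => Finset.prod_ne_zero_iff.2 fun j _ => zpow_ne_zero _ (hu j)
  have w1 : ∀ k, v (w k - 1) ≤ v p := fun k => by
    simpa only [w, zpow_mul, zpow_natCast] using one_prod_zpow h.p1 Finset.univ ha (ρ k)
  have hκ : ∀ r : I → ℤ, ∏ j, κ j ^ r j ∈ E ∧ ∏ j, κ j ^ r j ≠ 0 := fun r =>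
    ⟨prod_mem fun j _ => zpow_mem (hα j).1 _,
      Finset.prod_ne_zero_iff.2 fun j _ => zpow_ne_zero _ (hα j).2.1⟩
  have w2 := fun k => DStepD_prod hP0 (fun k => (hα k).2.2.2) (r2 k)
  have w3 : ∀ k, w k ∈ FX E X := fun k => prod_mem fun j _ => zpow_mem (huF j) _
  have hXm : ∀ d, X d ∈ AR v p (FX E X) := fun d =>
    AR.of_mem (Subfield.subset_closure (Or.inr ⟨d, rfl⟩)) (hX d)
  rcases ladder h h.p0 le_rfl (Sum.elim X T') (by rintro (d | l); exacts [hX d, t2 l])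
    (Empty.elim : Empty → Ω) (fun d => d.elim) w (fun k => L (w k)) w0
    (fun k => ⟨StepC_le h (w1 k), by rw [sub_self]; exact zero_mem _⟩) (fun I' _ e => by
      rcases ax_top h le_rfl hT X hX hs (fun i => w (e i)) fun i => ⟨w3 _, w1 _⟩ with
        k | ⟨r, r0, k⟩
      · have k1 := (t1 _ _ (by
          rintro (d | i); exacts [hXm d, hlog _ (w3 _) (w1 _)]) k).comp
          (e := Sum.elim (Sum.map Sum.inl id) (Sum.inl ∘ Sum.inr)) (by
            rintro ((x | x) | x) ((y | y) | y) <;> simp)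
        refine Or.inl ?_
        convert k1 using 1
        funext x
        rcases x with (x | x) | x <;> rfl
      · refine Or.inr ⟨r, r0, 0, Small.rename Sum.inl_injective ?_⟩
        simpa using k) {k // k ∉ s} id with ⟨r, r0, ω', k⟩ | k
  · refine Or.inl ⟨fun j => ∑ k, ((p ^ a : ℕ) : ℤ) * ρ k j * r k, fun e => r0 (r3 r (congrFun e)),
      ?_⟩
    rw [DStepD_prod hP0 (fun k => (hα k).2.2.2) fun i => by
      simp only [Finset.mul_sum]
      rw [Finset.sum_comm]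
      refine Finset.sum_eq_zero fun k _ => ?_
      simp only [← mul_assoc _ _ (r k), ← Finset.sum_mul, r2, zero_mul]]
    simp only [w, id, Finset.univ_eq_empty, Finset.prod_empty, one_mul] at k
    rw [Step_zpow hu] at k
    exact mul_mem (hκ _).1 k
  · have h5 : s.card + Fintype.card {i // i ∉ s} = Fintype.card I := by
      rw [← Fintype.card_coe, ← Fintype.card_sum]
      exact Fintype.card_congr (Equiv.sumCompl (· ∈ s))
    refine Or.inr (exch k (by simp only [Fintype.card_sum, Fintype.card_coe]; omega) ?_)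
    have k1 : ∀ i, L (α i) ∈ Algebra.adjoin E (Set.range (Sum.elim X fun i => L (α i))) :=
      fun i => Algebra.subset_adjoin ⟨Sum.inr i, rfl⟩
    have k2 : ∀ c ∈ E, c ∈ Algebra.adjoin E (Set.range (Sum.elim X fun i => L (α i))) :=
      fun c hc => Subalgebra.algebraMap_mem _ (⟨c, hc⟩ : E)
    rintro ((d | l) | j)
    · exact Algebra.subset_adjoin ⟨Sum.inl d, rfl⟩
    · rw [Sum.elim_inl, Sum.elim_inr, t4]
      exact mul_mem (intCast_mem _ _) (sub_mem (k1 l) (k2 _ (h.mem _ (hα l).1 (hα l).2.1)))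
    · have e := congrArg L (w2 j)
      rw [h.prod_zpow _ α hα0, h.mul _ _ (hκ _).2 (w0 j)] at e
      rw [Sum.elim_inr, id, eq_sub_of_add_eq' e.symm]
      exact sub_mem (sum_mem fun i _ => mul_mem (intCast_mem _ _) (k1 i))
        (k2 _ (h.mem _ (hκ _).1 (hκ _).2))

theorem stepD (h : LF p v L E) (hT : Tail p v L) (X : Fin m → Ω) (hX : ∀ d, v (X d) ≤ 1)
    (hs : SSI v p E X) {Q I : Type} [Fintype Q] (P : Q → Ω)
    (hP : ∀ i, P i ≠ 0 ∧ P i ∈ FX E X ∧ v (L (P i)) ≤ 1)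
    (hA : TA v p E (AR v p (FX E X)) fun i => L (P i)) (α u κ : I → Ω) (o : I → Q → ℕ)
    (hα : ∀ k, κ k ∈ E ∧ κ k ≠ 0 ∧ Sm v p (u k - 1) ∧ α k = κ k * (∏ i, P i ^ o k i) * u k)
    (hα' : ∀ k, α k ∈ FX E X) : Dic0 L E X α :=
  fun _ _ ε => DStepD_fin h hT X hX hs P hP hA (fun i => α (ε i)) (fun i => u (ε i))
    (fun i => κ (ε i)) (fun i => o (ε i)) (fun _ => hα _) fun _ => hα' _

end Pool.Agent.Work.MP_dd0d16_nt.T
end
end

-- merged part: Pool.Agent.Work.MP_dd0d16_nt.E.TowE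
section
-- merged part: Pool.Agent.Work.MP_dd0d16_nt.E.K0
section
/-!
More on derivatives and on independence.

PLAN. `Pd.mem`: `FX_frac`, `Pd.div`, `Pd.pol`, `ev_FX`. `Pd.uni`: `Pd.pol` for
`∑ i ∈ P.support, C (coeff i) * X b ^ i`, or `Polynomial.eval_eq_sum_range` with `Pd.sum`, `Pd.mul`.
`idp_iff`: `AxCore_lift k.toSubring`, `aeval t P = eval t (map k.subtype P)`. `Idp.exch`: if `t'` is
dependent then the closure of `range t'` in `AlgebraicIndependent.matroid k κ` has rank `< m` and contains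
`t` (elements of `FX k t'` are algebraic over `Algebra.adjoin k (range t')`); or transcendence degrees of
`IntermediateField.adjoin k (range t')` (`exch` in S/Exch is a model). `Idp.alg`:
`AlgebraicIndependent.extendScalars` with the algebra structure from `Subfield.inclusion`.
`Pd.chain`, `Pd.root`: `Subfield.closure_induction` (`d a (t b) = if a = b then 1 else 0` by `Pd.pol` for
`X b`; `add_pow_char_pow`, `neg_pow_char_pow`; inverses by `Pd.div` with `y = 1`).
-/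

set_option autoImplicit false

namespace Pool.Agent.Work.MP_dd0d16_nt.T

open MvPolynomial

variable {κ σ : Type} [Field κ] {k : Subfield κ} {t t' : σ → κ} {d d' : σ → κ → κ}

theorem EK0_k {c : κ} (hc : c ∈ k) : c ∈ FX k t := Subfield.subset_closure (Or.inl hc)

theorem EK0_X (b : σ) (μ : σ →₀ ℕ) : (X b : MvPolynomial σ κ).coeff μ ∈ k := by
  classical
  rw [coeff_X]
  split_ifs
  exacts [one_mem _, zero_mem _]

theorem EK0_t [DecidableEq σ] (h : Pd k t d) (a b : σ) : d a (t b) = if a = b then 1 else 0 := by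
  have := h.pol a (X b) (EK0_X b)
  rw [eval_X, pderiv_X, Pi.single_apply] at this
  rw [this]
  by_cases e : a = b
  · simp [e]
  · simp [e, Ne.symm e]

theorem EK0_inv (h : Pd k t d) (a : σ) {y : κ} (hy : y ∈ FX k t) :
    d a y⁻¹ = -(d a y * y⁻¹ ^ 2) := by
  by_cases h0 : y = 0
  · rw [h0, inv_zero, h.const a (zero_mem _)]
    simp
  · rw [← one_div, h.div a (one_mem _) hy h0, h.const a (one_mem _)]
    field_simp
    ring

theorem EK0_co (b : σ) {P : Polynomial κ} (hP : ∀ i, P.coeff i ∈ k) (μ : σ →₀ ℕ) :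
    (P.toMvPolynomial b).coeff μ ∈ k := by
  classical
  rw [P.as_sum_support_C_mul_X_pow, map_sum, coeff_sum]
  refine sum_mem fun i _ => ?_
  rw [map_mul, map_pow, Polynomial.toMvPolynomial_C, Polynomial.toMvPolynomial_X, coeff_C_mul,
    coeff_X_pow]
  split_ifs
  exacts [mul_mem (hP i) (one_mem _), mul_mem (hP i) (zero_mem _)]

theorem EK0_pd [DecidableEq σ] (a b : σ) (P : Polynomial κ) :
    pderiv a (P.toMvPolynomial b) = if a = b then P.derivative.toMvPolynomial b else 0 := by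
  induction P using Polynomial.induction_on' with
  | add P Q hP hQ =>
    simp only [map_add, hP, hQ]
    split_ifs <;> simp
  | monomial n c =>
    rw [← Polynomial.C_mul_X_pow_eq_monomial]
    by_cases e : a = b
    · simp [e, Polynomial.derivative_X_pow]
    · simp [e, pderiv_X, Ne.symm e]

theorem Pd.mem (h : Pd k t d) (a : σ) {y : κ} (hy : y ∈ FX k t) : d a y ∈ FX k t := by
  classical
  induction hy using Subfield.closure_induction with
  | mem x hx =>
    rcases hx with hx | ⟨b, rfl⟩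
    · rw [h.const a hx]
      exact zero_mem _
    · rw [EK0_t h]
      split_ifs
      exacts [one_mem _, zero_mem _]
  | one =>
    rw [h.const a (one_mem _)]
    exact zero_mem _
  | add x y hx hy ix iy =>
    rw [h.add a x hx y hy]
    exact add_mem ix iy
  | neg x hx ix =>
    rw [h.neg a hx]
    exact neg_mem ix
  | inv x hx ix =>
    rw [EK0_inv h a hx]
    exact neg_mem (mul_mem ix (pow_mem (inv_mem hx) _))
  | mul x y hx hy ix iy =>
    rw [h.mul a x hx y hy]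
    exact add_mem (mul_mem hx iy) (mul_mem hy ix)

theorem uni_FX (t : σ → κ) (b : σ) {P : Polynomial κ} (hP : ∀ i, P.coeff i ∈ k) :
    P.eval (t b) ∈ FX k t := by
  rw [← eval_toMvPolynomial]
  exact ev_FX t (EK0_co b hP)

theorem Pd.uni [DecidableEq σ] (h : Pd k t d) (a b : σ) {P : Polynomial κ}
    (hP : ∀ i, P.coeff i ∈ k) :
    d a (P.eval (t b)) = if a = b then P.derivative.eval (t b) else 0 := by
  rw [← eval_toMvPolynomial, h.pol a _ (EK0_co b hP), EK0_pd]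
  split_ifs
  · rw [eval_toMvPolynomial]
  · rw [map_zero]

theorem Idp.uni (h : Idp k t) (a : σ) {P : Polynomial κ} (hP : ∀ i, P.coeff i ∈ k)
    (h0 : P.eval (t a) = 0) : P = 0 := by
  refine Polynomial.toMvPolynomial_injective a ?_
  rw [map_zero]
  exact h _ (EK0_co a hP) (by rw [eval_toMvPolynomial, h0])

theorem idp_iff : Idp k t ↔ AlgebraicIndependent k t := by
  have e : ∀ P : MvPolynomial σ k, aeval t P = eval t (map (algebraMap k κ) P) := fun P => by
    rw [eval_map, aeval_def]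
  rw [algebraicIndependent_iff]
  constructor
  · intro h P hP
    refine map_injective (algebraMap k κ) (algebraMap k κ).injective ?_
    rw [map_zero]
    exact h _ (fun μ => by rw [coeff_map]; exact (P.coeff μ).2) (by rw [← e, hP])
  · intro h P hP h0
    obtain ⟨P', hP'⟩ := AxCore_lift k.toSubring P hP
    have h1 : map (algebraMap k κ) P' = P := hP'
    rw [← h1, h P' (by rw [e, h1, h0]), map_zero]

theorem Idp.exch [Fintype σ] (h : Idp k t) (h' : ∀ a, t a ∈ FX k t') : Idp k t' := by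
  rw [idp_iff] at h ⊢
  let T := IntermediateField.adjoin k (Set.range t')
  have hT : FX k t' ≤ T.toSubfield := Subfield.closure_le.2 (by
    rintro x (hx | hx)
    · exact T.algebraMap_mem ⟨x, hx⟩
    · exact IntermediateField.subset_adjoin _ _ hx)
  let b' : σ → T := fun j => ⟨t' j, IntermediateField.subset_adjoin _ _ ⟨j, rfl⟩⟩
  have h1 : AlgebraicIndependent k fun i => (⟨t i, hT (h' i)⟩ : T) :=
    AlgebraicIndependent.of_comp T.val h
  have h2 : IntermediateField.adjoin k (Set.range b') = ⊤ := by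
    refine IntermediateField.lift_injective _ ?_
    rw [IntermediateField.lift_adjoin, IntermediateField.lift_top, ← Set.range_comp]
    rfl
  have h3 : Algebra.IsAlgebraic (IntermediateField.adjoin k (Set.range b')) T :=
    ⟨fun y => isAlgebraic_algebraMap
      (⟨y, h2.ge trivial⟩ : IntermediateField.adjoin k (Set.range b'))⟩
  have := IntermediateField.isAlgebraic_adjoin_iff_top.1 h3
  have h4 := Algebra.IsAlgebraic.isTranscendenceBasis_of_le_trdeg_of_finite k b'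
    h1.cardinalMk_le_trdeg
  exact h4.1.map' (f := T.val) Subtype.val_injective

theorem Idp.alg {k' : Subfield κ} (h : Idp k t) (hk : k ≤ k') (h' : ∀ c ∈ k', IsAlgebraic k c) :
    Idp k' t := by
  rw [idp_iff] at h ⊢
  let _ : Algebra k k' := (Subfield.inclusion hk).toAlgebra
  have : IsScalarTower k k' κ := .of_algebraMap_eq fun _ => rfl
  have : Algebra.IsAlgebraic k k' := ⟨fun c =>
    (isAlgebraic_algebraMap_iff (algebraMap k' κ).injective).1 (h' c c.2)⟩
  exact h.extendScalars k'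

theorem Gau.idp0 {Γ : Type} [LinearOrderedCommGroupWithZero Γ] {v : Valuation κ Γ}
    (h : Gau v k t) : Idp k t := by
  intro P hP h0
  ext μ
  have := h P hP μ
  rw [h0, map_zero, le_zero_iff, map_eq_zero] at this
  exact this

theorem Pd.chain [DecidableEq σ] (h : Pd k t d) (h' : Pd k t' d') (ht : ∀ b, t b ∈ FX k t')
    (a : σ) {γ : κ} (hγ : ∀ b, d' a (t b) = if a = b then γ else 0) {y : κ} (hy : y ∈ FX k t) :
    y ∈ FX k t' ∧ d' a y = γ * d a y := by
  induction hy using Subfield.closure_induction with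
  | mem x hx =>
    rcases hx with hx | ⟨b, rfl⟩
    · exact ⟨EK0_k hx, by rw [h.const a hx, h'.const a hx, mul_zero]⟩
    · refine ⟨ht b, ?_⟩
      rw [EK0_t h, hγ]
      split_ifs <;> simp
  | one => exact ⟨one_mem _, by rw [h.const a (one_mem _), h'.const a (one_mem _), mul_zero]⟩
  | add x y hx hy ix iy =>
    exact ⟨add_mem ix.1 iy.1, by rw [h.add a x hx y hy, h'.add a x ix.1 y iy.1, ix.2, iy.2, mul_add]⟩
  | neg x hx ix => exact ⟨neg_mem ix.1, by rw [h.neg a hx, h'.neg a ix.1, ix.2, mul_neg]⟩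
  | inv x hx ix =>
    refine ⟨inv_mem ix.1, ?_⟩
    rw [EK0_inv h a hx, EK0_inv h' a ix.1, ix.2]
    ring
  | mul x y hx hy ix iy =>
    refine ⟨mul_mem ix.1 iy.1, ?_⟩
    rw [h.mul a x hx y hy, h'.mul a x ix.1 y iy.1, ix.2, iy.2]
    ring

theorem EK0_root {p : ℕ} (hk : ∀ c ∈ k, ∃ b ∈ k, b ^ p = c) (e : ℕ) :
    ∀ c ∈ k, ∃ b ∈ k, b ^ p ^ e = c := by
  induction e with
  | zero => exact fun c hc => ⟨c, hc, by simp⟩
  | succ e ih =>
    intro c hc
    obtain ⟨b, hb, rfl⟩ := hk c hc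
    obtain ⟨b', hb', rfl⟩ := ih b hb
    exact ⟨b', hb', by rw [pow_succ, pow_mul]⟩

theorem Pd.root [DecidableEq σ] {p : ℕ} [Fact p.Prime] [CharP κ p]
    (hk : ∀ c ∈ k, ∃ b ∈ k, b ^ p = c) (h : Pd k t d) (h' : Pd k t' d') (e : ℕ) {r δ : σ → κ}
    (hr : ∀ b, r b ∈ FX k t' ∧ r b ^ p ^ e = t b)
    (hδ : ∀ a b, d' a (r b) = if a = b then δ a else 0) {u : κ} (hu : u ∈ FX k t) :
    ∃ u' ∈ FX k t', u' ^ p ^ e = u ∧ ∀ a, d' a u' ^ p ^ e = δ a ^ p ^ e * d a u := by
  simp only [← iterateFrobenius_def] at hr ⊢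
  have hc : ∀ c ∈ k, ∃ u' ∈ FX k t', iterateFrobenius κ p e u' = c ∧ ∀ a,
      iterateFrobenius κ p e (d' a u') = iterateFrobenius κ p e (δ a) * d a c := fun c hc => by
    obtain ⟨b, hb, rfl⟩ := EK0_root hk e c hc
    exact ⟨b, EK0_k hb, rfl, fun a => by rw [h.const a hc, h'.const a hb, map_zero, mul_zero]⟩
  induction hu using Subfield.closure_induction with
  | mem x hx =>
    rcases hx with hx | ⟨b, rfl⟩
    · exact hc x hx
    · refine ⟨r b, (hr b).1, (hr b).2, fun a => ?_⟩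
      rw [EK0_t h, hδ]
      split_ifs <;> simp
  | one => exact hc 1 (one_mem _)
  | add x y hx hy ix iy =>
    obtain ⟨x', x1, x2, x3⟩ := ix
    obtain ⟨y', y1, y2, y3⟩ := iy
    refine ⟨x' + y', add_mem x1 y1, by rw [map_add, x2, y2], fun a => ?_⟩
    rw [h.add a x hx y hy, h'.add a x' x1 y' y1, map_add, x3, y3, mul_add]
  | neg x hx ix =>
    obtain ⟨x', x1, x2, x3⟩ := ix
    refine ⟨-x', neg_mem x1, by rw [map_neg, x2], fun a => ?_⟩
    rw [h.neg a hx, h'.neg a x1, map_neg, x3, mul_neg]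
  | inv x hx ix =>
    obtain ⟨x', x1, x2, x3⟩ := ix
    refine ⟨x'⁻¹, inv_mem x1, by rw [map_inv₀, x2], fun a => ?_⟩
    rw [EK0_inv h a hx, EK0_inv h' a x1, map_neg, map_mul, map_pow, map_inv₀, x2, x3]
    ring
  | mul x y hx hy ix iy =>
    obtain ⟨x', x1, x2, x3⟩ := ix
    obtain ⟨y', y1, y2, y3⟩ := iy
    refine ⟨x' * y', mul_mem x1 y1, by rw [map_mul, x2, y2], fun a => ?_⟩
    rw [h.mul a x hx y hy, h'.mul a x' x1 y' y1, map_add, map_mul, map_mul, x2, y2, x3, y3]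
    ring

end Pool.Agent.Work.MP_dd0d16_nt.T
end

-- merged part: Pool.Agent.Work.MP_dd0d16_nt.E.PdRes
section
/-!
Derivatives and residues.

PLAN. `res_perf`: `ResF.mem`, `Plf`, `ResF.eq`. `res_lift0`: the same with `b ^ p`. `poly_res`: lift the
coefficients on the support by `res_lift0` (zero elsewhere). `pd_res`: `Gau.frac` gives `z = P (x) / H (x)`
with `v (H (x)) = 1`; `Pd.div`, `Pd.pol` on both sides; `int_lift`, `coe_eval`, `res_eval`, `pderiv_map`,
`ResF.co`, `co_pderiv`, `ev_le`. `res_lift`: `FX_frac`; lift the coefficients of `P`, `H` by `res_lift0`;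
`H (x)` is a unit because its residue is nonzero; `ev_FX`, `ev_mem W.toSubring`.
-/

set_option autoImplicit false

namespace Pool.Agent.Work.MP_dd0d16_nt.T

open MvPolynomial

variable {Ω Γ : Type} [Field Ω] [LinearOrderedCommGroupWithZero Γ] {v : Valuation Ω Γ}
  {E W : Subfield Ω} {p : ℕ} {σ κ : Type} [Field κ] {res : v.integer →+* κ} {k : Subfield κ}

theorem EPdRes_rt (h : ResF v E res k) (hl : Plf v p W E) {c : κ} (hc : c ∈ k) :
    ∃ b : v.integer, (b : Ω) ∈ E ∧ (b : Ω) ∈ W ∧ res b ^ p = c := by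
  obtain ⟨e, e1, rfl⟩ := (h.mem c).1 hc
  obtain ⟨b, b1, b2, b3, b4⟩ := hl e e1 e.2
  refine ⟨⟨b, b3⟩, b1, b2, ?_⟩
  rw [← map_pow]
  exact (h.eq (b := ⟨b, b3⟩ ^ p) b4).symm

theorem EPdRes_q {t : σ → κ} {d : σ → κ → κ} (h : Pd k t d) (a : σ) {y : κ} (hy : y ∈ FX k t)
    {P H : MvPolynomial σ κ} (hP : ∀ μ, P.coeff μ ∈ k) (hH : ∀ μ, H.coeff μ ∈ k)
    (e : y * eval t H = eval t P) :
    d a y * eval t H = eval t (pderiv a P) - y * eval t (pderiv a H) := by
  rw [← h.pol a P hP, ← h.pol a H hH, ← e, h.mul a y hy _ (ev_FX t hH)]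
  ring

theorem EPdRes_inv {b : v.integer} (hb : v (b : Ω) = 1) : ∃ c : v.integer, b * c = 1 := by
  have h0 : (b : Ω) ≠ 0 := fun e => by simp [e] at hb
  exact ⟨⟨(b : Ω)⁻¹, show v _ ≤ 1 by rw [map_inv₀, hb, inv_one]⟩,
    Subtype.ext (mul_inv_cancel₀ h0)⟩

theorem res_perf (h : ResF v E res k) (hl : Plf v p W E) : ∀ c ∈ k, ∃ b ∈ k, b ^ p = c := by
  intro c hc
  obtain ⟨b, b1, -, b3⟩ := EPdRes_rt h hl hc
  exact ⟨_, (h.mem _).2 ⟨b, b1, rfl⟩, b3⟩

theorem res_lift0 (h : ResF v E res k) (hl : Plf v p W E) {c : κ} (hc : c ∈ k) :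
    ∃ e : v.integer, (e : Ω) ∈ E ∧ (e : Ω) ∈ W ∧ res e = c := by
  obtain ⟨b, b1, b2, b3⟩ := EPdRes_rt h hl hc
  exact ⟨b ^ p, pow_mem b1 p, pow_mem b2 p, by rw [map_pow, b3]⟩

theorem poly_res (h : ResF v E res k) (hl : Plf v p W E) {P : Polynomial κ}
    (hP : ∀ i, P.coeff i ∈ k) : ∃ P' : Polynomial v.integer,
      Cw1 v W E (P'.map v.integer.subtype) ∧ P'.map res = P := by
  obtain ⟨Q, hQ⟩ : ∃ Q : Polynomial ((E ⊓ W).toSubring.comap v.integer.subtype),
      Q.map (res.comp (Subring.subtype _)) = P :=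
    (Polynomial.mem_lifts _).1 ((Polynomial.lifts_iff_coeff_lifts _).2 fun i => by
      obtain ⟨e, e1, e2, e3⟩ := res_lift0 h hl (hP i)
      exact ⟨⟨e, e1, e2⟩, e3⟩)
  refine ⟨Q.map (Subring.subtype _), fun i => ?_, by rw [Polynomial.map_map, hQ]⟩
  rw [Polynomial.coeff_map, Polynomial.coeff_map]
  exact ⟨(Q.coeff i).2.1, (Q.coeff i).2.2, (Q.coeff i).1.2⟩

theorem pd_res (h : ResF v E res k) {x : σ → v.integer} (hG : Gau v E fun a => (x a : Ω))
    {d0 : σ → Ω → Ω} {d : σ → κ → κ} (h0 : Pd E (fun a => (x a : Ω)) d0)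
    (h1 : Pd k (fun a => res (x a)) d) (z : v.integer) (hz : (z : Ω) ∈ FX E fun a => (x a : Ω))
    (a : σ) : res z ∈ (FX k fun a => res (x a)) ∧
      ∃ z' : v.integer, (z' : Ω) = d0 a z ∧ res z' = d a (res z) := by
  obtain ⟨P, H, hP, hH, h2, h3⟩ := hG.frac (fun a => (x a).2) hz z.2
  obtain ⟨P, rfl⟩ := int_lift fun μ => (hP μ).2
  obtain ⟨H, rfl⟩ := int_lift fun μ => (hH μ).2
  have q0 := EPdRes_q h0 a hz (fun μ => (hP μ).1) (fun μ => (hH μ).1) h3
  rw [← coe_eval] at h2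
  rw [← coe_eval, ← coe_eval] at h3
  have h4 : res z * res (eval x H) = res (eval x P) := by
    rw [← map_mul]
    exact congrArg res (Subtype.ext h3)
  have h5 : res (eval x H) ≠ 0 := fun k => ((h.zero _).1 k).ne h2
  have kP := h.co fun μ => (hP μ).1
  have kH := h.co fun μ => (hH μ).1
  have hm : res z ∈ FX k fun a => res (x a) := by
    rw [(eq_div_iff h5).2 h4, res_eval, res_eval]
    exact div_mem (ev_FX _ kP) (ev_FX _ kH)
  have q1 := EPdRes_q h1 a hm kP kH (by rw [← res_eval, ← res_eval, h4])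
  rw [pderiv_map, pderiv_map, ← coe_eval, ← coe_eval, ← coe_eval] at q0
  rw [pderiv_map, pderiv_map, ← res_eval, ← res_eval, ← res_eval] at q1
  obtain ⟨c, hc⟩ := EPdRes_inv h2
  refine ⟨hm, (eval x (pderiv a P) - z * eval x (pderiv a H)) * c, ?_, ?_⟩
  · have e : ((eval x H : v.integer) : Ω) * c = 1 := congrArg Subtype.val hc
    push_cast
    rw [← q0, mul_assoc, e, mul_one]
  · rw [map_mul, map_sub, map_mul, ← q1, mul_assoc, ← map_mul, hc, map_one, mul_one]

theorem EPdRes_lift (h : ResF v E res k) (hl : Plf v p W E) {π : MvPolynomial σ κ}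
    (hπ : ∀ μ, π.coeff μ ∈ k) : ∃ P : MvPolynomial σ v.integer,
      (∀ μ, (map v.integer.subtype P).coeff μ ∈ E ⊓ W) ∧ map res P = π :=
  DRes_lift (E := E ⊓ W) ⟨h.zero, fun c => ⟨fun hc =>
    let ⟨e, e1, e2, e3⟩ := res_lift0 h hl hc; ⟨e, ⟨e1, e2⟩, e3⟩,
    fun ⟨e, e1, e2⟩ => (h.mem c).2 ⟨e, e1.1, e2⟩⟩⟩ hπ

theorem res_lift (h : ResF v E res k) (hl : Plf v p W E) {x : σ → v.integer}
    (hx : ∀ a, (x a : Ω) ∈ W) {u : κ} (hu : u ∈ FX k fun a => res (x a)) :
    ∃ z : v.integer, (z : Ω) ∈ (FX E fun a => (x a : Ω)) ∧ (z : Ω) ∈ W ∧ res z = u := by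
  obtain ⟨P, H, hP, hH, h2, h3⟩ := FX_frac _ hu
  obtain ⟨P, kP, rfl⟩ := EPdRes_lift h hl hP
  obtain ⟨H, kH, rfl⟩ := EPdRes_lift h hl hH
  rw [← res_eval] at h2
  rw [← res_eval, ← res_eval] at h3
  obtain ⟨c, hc⟩ := EPdRes_inv (b := eval x H)
    (le_antisymm (eval x H).2 (not_lt.1 fun e => h2 ((h.zero _).2 e)))
  have e : (c : Ω) = ((eval x H : v.integer) : Ω)⁻¹ :=
    eq_inv_of_mul_eq_one_right (congrArg Subtype.val hc)
  have e' : ((eval x P * c : v.integer) : Ω) = eval (fun a => (x a : Ω)) (map v.integer.subtype P) /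
      eval (fun a => (x a : Ω)) (map v.integer.subtype H) := by
    rw [← coe_eval, ← coe_eval, div_eq_mul_inv, ← e]
    rfl
  refine ⟨eval x P * c, ?_, ?_, ?_⟩
  · rw [e']
    exact div_mem (ev_FX _ fun μ => (kP μ).1) (ev_FX _ fun μ => (kH μ).1)
  · rw [e']
    exact div_mem (ev_mem W.toSubring hx fun μ => (kP μ).2) (ev_mem W.toSubring hx fun μ => (kH μ).2)
  · rw [map_mul, ← h3, mul_assoc, ← map_mul, hc, map_one, mul_one]

end Pool.Agent.Work.MP_dd0d16_nt.T
end

-- merged part: Pool.Agent.Work.MP_dd0d16_nt.E.K1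
section
/-!
The inseparable degree of a rational function, and the Cartier operator.

PLAN. `exists_e0`: divide `N`, `D` by their gcd, so they are coprime; strong induction on
`natDegree N + natDegree D`. If `N' * D = N * D'` then `N ∣ N'`, `D ∣ D'`, so `N' = 0 = D'` (degrees), so
`N = N1 ^ p`, `D = D1 ^ p` (`Polynomial.expand_contract`, `Polynomial.map_frobenius_expand`, perfect field;
build `PerfectRing k p` from `hk`); they are not both constant by `hc`.
`exists_e`: lift to `Polynomial k` (`Polynomial.lifts`, or `Polynomial.toSubring`), map back by `k.subtype`.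
`iter_const`: induction on `j` (`Function.iterate_succ_apply'`, `Pd.mem`, `Pd.mul`). `iter_uni`: induction with
`Pd.uni`. `iter_zero`: `y = P (t) * H (t) ^ (p - 1) / H (t) ^ p` (`FX_frac`, `Pd.pow`); the `p`-th iterate of
`pderiv a` kills every polynomial (on a monomial it gives a descending factorial, divisible by `p`:
`Nat.factorial_dvd_descFactorial`). `cartier`: `p = 2 * h + 1`, `G = (X ^ 3 + a X ^ 2 + b X + c) ^ h`,
`A = G.coeff (p - 1)`, `r = G (t) / χ`. `r ^ 2 = cu ^ p / (χ ^ 2 * cu)` is killed by `d`, so `2 r d r = 0`,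
`d r = 0`. Apply the `(p - 1)`-th iterate to `G (t) = r * χ = r * δ ^ p * t ^ (p - 1) + r * d θ`:
`(p - 1)! * A = r * δ ^ p * (p - 1)!` (`Polynomial.coeff_iterate_derivative`; for `0 < i`,
`i + p - 1 ≤ 3 h < 2 p - 1` the descending factorial of `i + p - 1` contains the factor `p`).
-/

set_option autoImplicit false

namespace Pool.Agent.Work.MP_dd0d16_nt.T

open Polynomial

variable {p : ℕ} [Fact p.Prime]

theorem EK1_root {k : Type} [Field k] [CharP k p] (hk : ∀ c : k, ∃ b, b ^ p = c) {f : k[X]}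
    (hf : derivative f = 0) : ∃ g : k[X], g ^ p = f := by
  obtain ⟨g, hg⟩ := map_surjective (frobenius k p) hk (contract p f)
  exact ⟨g, by rw [← map_frobenius_expand, map_expand, hg,
    expand_contract p hf (Fact.out : p.Prime).ne_zero]⟩

theorem EK1_cop {k : Type} [Field k] [CharP k p] (hk : ∀ c : k, ∃ b, b ^ p = c) (n : ℕ)
    {N D : k[X]} (hn : N.natDegree + D.natDegree = n) (h : IsCoprime N D) (hD : D ≠ 0)
    (hc : ∀ c, N ≠ C c * D) : ∃ (e : ℕ) (N1 D1 : k[X]), D1 ≠ 0 ∧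
      N1 ^ p ^ e * D = N * D1 ^ p ^ e ∧ N1.derivative * D1 - N1 * D1.derivative ≠ 0 := by
  induction n using Nat.strong_induction_on generalizing N D with
  | _ n ih =>
  by_cases h0 : N.derivative * D - N * D.derivative = 0
  swap
  · exact ⟨0, N, D, hD, by simp, h0⟩
  have hp : p.Prime := Fact.out
  have d0 : D.derivative = 0 := dvd_derivative_iff.1 (h.symm.dvd_of_dvd_mul_left
    (sub_eq_zero.1 h0 ▸ dvd_mul_left _ _))
  rw [d0, mul_zero, sub_zero, mul_eq_zero, or_iff_left hD] at h0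
  obtain ⟨N1, rfl⟩ := EK1_root hk h0
  obtain ⟨D1, rfl⟩ := EK1_root hk d0
  have hD1 : D1 ≠ 0 := fun e => hD (by rw [e, zero_pow hp.ne_zero])
  have hc1 : ∀ c, N1 ≠ C c * D1 := fun c e => hc (c ^ p) (by rw [e, mul_pow, C_pow])
  have pos : N1.natDegree + D1.natDegree ≠ 0 := fun e => by
    obtain ⟨a, rfl⟩ := natDegree_eq_zero.1 (Nat.eq_zero_of_add_eq_zero_right e)
    obtain ⟨b, rfl⟩ := natDegree_eq_zero.1 (Nat.eq_zero_of_add_eq_zero_left e)
    exact hc1 (a / b) (by rw [← C_mul, div_mul_cancel₀ _ (C_ne_zero.1 hD1)])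
  obtain ⟨e, N2, D2, h1, h2, h3⟩ := ih _ (by
    rw [← hn, natDegree_pow, natDegree_pow, ← mul_add]
    exact lt_mul_of_one_lt_left (Nat.pos_of_ne_zero pos) hp.one_lt) rfl
    ((IsCoprime.pow_iff hp.pos hp.pos).1 h) hD1 hc1
  exact ⟨e + 1, N2, D2, h1, by rw [pow_succ, pow_mul, pow_mul, ← mul_pow, h2, mul_pow], h3⟩

theorem exists_e0 {k : Type} [Field k] [CharP k p] (hk : ∀ c : k, ∃ b, b ^ p = c) {N D : k[X]}
    (hD : D ≠ 0) (hc : ∀ c, N ≠ C c * D) : ∃ (e : ℕ) (N1 D1 : k[X]), D1 ≠ 0 ∧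
      N1 ^ p ^ e * D = N * D1 ^ p ^ e ∧ N1.derivative * D1 - N1 * D1.derivative ≠ 0 := by
  obtain ⟨N0, D0, g, h, rfl, rfl⟩ := UniqueFactorizationMonoid.exists_reduced_factors' N D hD
  obtain ⟨e, N1, D1, h1, h2, h3⟩ := EK1_cop hk _ rfl h.isCoprime (right_ne_zero_of_mul hD)
    fun c k => hc c (by rw [k, mul_left_comm])
  exact ⟨e, N1, D1, h1, by rw [mul_left_comm, h2, mul_assoc], h3⟩

variable {κ σ : Type} [Field κ] [CharP κ p] {k : Subfield κ} {t : σ → κ} {d : σ → κ → κ}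

omit [Fact p.Prime] [CharP κ p] in
theorem EK1_lift {P : κ[X]} (hP : ∀ i, P.coeff i ∈ k) : ∃ Q : k[X], Q.map k.subtype = P :=
  (mem_lifts _).1 ((lifts_iff_coeff_lifts _).2 fun i => ⟨⟨_, hP i⟩, rfl⟩)

omit [Fact p.Prime] [CharP κ p] in
theorem EK1_mem (Q : k[X]) (i : ℕ) : (Q.map k.subtype).coeff i ∈ k := by
  rw [coeff_map]; exact (Q.coeff i).2

theorem exists_e (hk : ∀ c ∈ k, ∃ b ∈ k, b ^ p = c) {N D : κ[X]} (hN : ∀ i, N.coeff i ∈ k)
    (hD : ∀ i, D.coeff i ∈ k) (h0 : D ≠ 0) (hc : ∀ c ∈ k, N ≠ C c * D) :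
    ∃ (e : ℕ) (N1 D1 : κ[X]), (∀ i, N1.coeff i ∈ k) ∧ (∀ i, D1.coeff i ∈ k) ∧ D1 ≠ 0 ∧
      N1 ^ p ^ e * D = N * D1 ^ p ^ e ∧ N1.derivative * D1 - N1 * D1.derivative ≠ 0 := by
  obtain ⟨N, rfl⟩ := EK1_lift hN
  obtain ⟨D, rfl⟩ := EK1_lift hD
  obtain ⟨e, N1, D1, h1, h2, h3⟩ := exists_e0 (k := k) (p := p) (N := N) (D := D)
    (fun c => let ⟨b, b1, b2⟩ := hk c c.2; ⟨⟨b, b1⟩, Subtype.ext b2⟩)
    (fun e => h0 (by rw [e, Polynomial.map_zero]))
    fun c e => hc c c.2 (by rw [e, Polynomial.map_mul, map_C]; rfl)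
  refine ⟨e, N1.map k.subtype, D1.map k.subtype, EK1_mem _, EK1_mem _,
    (Polynomial.map_ne_zero_iff k.subtype.injective).2 h1, ?_, ?_⟩
  · simpa only [Polynomial.map_mul, Polynomial.map_pow] using congrArg (map k.subtype) h2
  · simpa only [Polynomial.map_mul, Polynomial.map_sub, derivative_map] using
      (Polynomial.map_ne_zero_iff k.subtype.injective).2 h3

omit [Fact p.Prime] [CharP κ p] in
theorem iter_const (h : Pd k t d) (a : σ) {y z : κ} (hy : y ∈ FX k t) (hz : z ∈ FX k t)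
    (h0 : d a y = 0) (j : ℕ) :
    (d a)^[j] z ∈ FX k t ∧ (d a)^[j] (y * z) = y * (d a)^[j] z := by
  induction j with
  | zero => exact ⟨hz, rfl⟩
  | succ j ih =>
    rw [Function.iterate_succ_apply', Function.iterate_succ_apply', ih.2, h.mul a _ hy _ ih.1, h0,
      mul_zero, add_zero]
    exact ⟨h.mem a ih.1, rfl⟩

omit [Fact p.Prime] [CharP κ p] in
theorem iter_uni (h : Pd k t d) (a : σ) {P : κ[X]} (hP : ∀ i, P.coeff i ∈ k) (j : ℕ) :
    (d a)^[j] (P.eval (t a)) = (derivative^[j] P).eval (t a) := by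
  classical
  induction j generalizing P with
  | zero => rfl
  | succ j ih =>
    rw [Function.iterate_succ_apply, Function.iterate_succ_apply, h.uni a a hP, if_pos rfl]
    exact ih fun i => by
      rw [coeff_derivative]
      exact mul_mem (hP _) (add_mem (natCast_mem _ _) (one_mem _))

omit [Fact p.Prime] [CharP κ p] in
theorem EK1_co (a : σ) (Q : MvPolynomial σ κ) (j : ℕ) (μ : σ →₀ ℕ) :
    ((MvPolynomial.pderiv a)^[j] Q).coeff μ =
      ((μ a + j).descFactorial j : ℕ) * Q.coeff (μ + Finsupp.single a j) := by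
  induction j generalizing μ with
  | zero => simp
  | succ j ih =>
    rw [Function.iterate_succ_apply', MvPolynomial.coeff_pderiv, ih, Nat.descFactorial_succ,
      Finsupp.add_apply, Finsupp.single_eq_same, add_assoc μ, ← Finsupp.single_add, add_assoc,
      add_comm 1 j, show μ a + (j + 1) - j = μ a + 1 by omega]
    push_cast
    ring

omit [Fact p.Prime] [CharP κ p] in
theorem EK1_add (h : Pd k t d) (a : σ) {y z : κ} (hy : y ∈ FX k t) (hz : z ∈ FX k t) (j : ℕ) :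
    (d a)^[j] (y + z) = (d a)^[j] y + (d a)^[j] z := by
  induction j generalizing y z with
  | zero => rfl
  | succ j ih =>
    simp only [Function.iterate_succ_apply]
    rw [h.add a _ hy _ hz, ih (h.mem a hy) (h.mem a hz)]

theorem iter_zero (h : Pd k t d) (a : σ) {y : κ} (hy : y ∈ FX k t) : (d a)^[p] y = 0 := by
  obtain ⟨P, H, hP, hH, h0, e⟩ := FX_frac t hy
  have hp : p.Prime := Fact.out
  have hq : ∀ (n : ℕ) μ, (P * H ^ n).coeff μ ∈ k := fun n => by
    induction n with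
    | zero => simpa using hP
    | succ n ih => rw [pow_succ, ← mul_assoc]; exact DCharP_mul ih hH
  have h1 := inv_mem (ev_FX t hH)
  have e1 : y = (MvPolynomial.eval t H)⁻¹ ^ p * MvPolynomial.eval t (P * H ^ (p - 1)) := by
    rw [map_mul, map_pow, ← e, mul_assoc y, mul_pow_sub_one hp.ne_zero, mul_left_comm, ← mul_pow,
      inv_mul_cancel₀ h0, one_pow, mul_one]
  have e2 : ∀ j : ℕ, (d a)^[j] (MvPolynomial.eval t (P * H ^ (p - 1))) =
      MvPolynomial.eval t ((MvPolynomial.pderiv a)^[j] (P * H ^ (p - 1))) := fun j => by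
    induction j with
    | zero => rfl
    | succ j ih =>
      rw [Function.iterate_succ_apply', Function.iterate_succ_apply', ih]
      exact h.pol a _ fun μ => by rw [EK1_co]; exact mul_mem (natCast_mem _ _) (hq _ _)
  have e3 : (MvPolynomial.pderiv a)^[p] (P * H ^ (p - 1)) = 0 := MvPolynomial.ext _ _ fun μ => by
    rw [EK1_co, (CharP.cast_eq_zero_iff κ p _).2 ((Nat.dvd_factorial hp.pos le_rfl).trans
      (Nat.factorial_dvd_descFactorial _ _)), zero_mul, MvPolynomial.coeff_zero]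
  rw [e1, (iter_const h a (pow_mem h1 p) (ev_FX t (hq _)) (h.pow a h1) p).2, e2, e3, map_zero,
    mul_zero]

theorem cartier (hp : p ≠ 2) {a b c : κ} (ha : a ∈ k) (hb : b ∈ k) (hc : c ∈ k) : ∃ A ∈ k,
    ∀ (t : σ → κ) (d : σ → κ → κ) (i : σ) (χ δ θ : κ), Pd k t d → χ ∈ FX k t → δ ∈ FX k t →
      θ ∈ FX k t → χ ≠ 0 → cu a b c (t i) ≠ 0 → χ = t i ^ (p - 1) * δ ^ p + d i θ →
      d i (χ ^ 2 * cu a b c (t i)) = 0 → cu a b c (t i) ^ (p / 2) * δ ^ p = A * χ := by
  have hP : p.Prime := Fact.out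
  obtain ⟨n, hn⟩ : ∃ n, p = 2 * n + 1 := hP.odd_of_ne_two hp
  have n1 : p / 2 = n := by omega
  have n2 : p - 1 = 2 * n := by omega
  obtain ⟨G, g1, g2, g3⟩ : ∃ G : κ[X], (∀ i, G.coeff i ∈ k) ∧ G.natDegree ≤ n * 3 ∧
      ∀ x, G.eval x = cu a b c x ^ n := by
    refine ⟨((X ^ 3 + C ⟨a, ha⟩ * X ^ 2 + C ⟨b, hb⟩ * X + C ⟨c, hc⟩ : k[X]) ^ n).map k.subtype,
      EK1_mem _, natDegree_map_le.trans (natDegree_pow_le.trans (Nat.mul_le_mul_left _ ?_)),
      fun x => by simp [cu]⟩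
    compute_degree
  have g4 : derivative^[2 * n] G = C (((2 * n).factorial : κ) * G.coeff (2 * n)) := by
    ext m
    rw [coeff_iterate_derivative, coeff_C, nsmul_eq_mul]
    split_ifs with hm
    · rw [hm, zero_add, Nat.descFactorial_self]
    by_cases h3 : n < m
    · rw [coeff_eq_zero_of_natDegree_lt (by omega), mul_zero]
    · rw [(CharP.cast_eq_zero_iff κ p _).2, zero_mul]
      rw [Nat.descFactorial_eq_prod_range]
      exact (dvd_of_eq (by omega : p = m + 2 * n - (m - 1))).trans (Finset.dvd_prod_of_mem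
        (fun i => m + 2 * n - i) (Finset.mem_range.2 (by omega : m - 1 < 2 * n)))
  refine ⟨G.coeff (2 * n), g1 _, fun t d i χ δ θ h hχ hδ hθ χ0 c0 e h0 => ?_⟩
  have hG := uni_FX t i g1
  have hcu : cu a b c (t i) ∈ FX k t := by
    have s : ∀ x ∈ k, x ∈ FX k t := fun x hx => Subfield.subset_closure (Or.inl hx)
    have := DCharP_t (k := k) (t := t) i
    exact add_mem (add_mem (add_mem (pow_mem this _) (mul_mem (s a ha) (pow_mem this _)))
      (mul_mem (s b hb) this)) (s c hc)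
  obtain ⟨r, hr, e1⟩ : ∃ r ∈ FX k t, G.eval (t i) = r * χ :=
    ⟨_, div_mem hG hχ, (div_mul_cancel₀ _ χ0).symm⟩
  have r0 : r ≠ 0 := left_ne_zero_of_mul (by rw [← e1, g3]; exact pow_ne_zero _ c0)
  have dr : d i r = 0 := by
    have e2 : r * r = cu a b c (t i) ^ p / (χ ^ 2 * cu a b c (t i)) := by
      rw [eq_div_iff (mul_ne_zero (pow_ne_zero _ χ0) c0), hn, pow_succ _ (2 * n), pow_mul', ← g3,
        e1]
      ring
    have e3 := h.mul i r hr r hr
    rw [e2, h.div i (pow_mem hcu p) (mul_mem (pow_mem hχ 2) hcu)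
      (mul_ne_zero (pow_ne_zero _ χ0) c0), h.pow i hcu, h0, zero_mul, mul_zero, sub_zero, zero_div,
      ← two_mul, eq_comm, mul_eq_zero, mul_eq_zero, or_iff_right r0] at e3
    exact e3.resolve_left fun k2 => hp ((Nat.prime_dvd_prime_iff_eq hP Nat.prime_two).1
      ((CharP.cast_eq_zero_iff κ p 2).1 k2))
  have hX : ∀ j, (X ^ (2 * n) : κ[X]).coeff j ∈ k := fun j => by
    rw [coeff_X_pow]
    split_ifs
    exacts [one_mem _, zero_mem _]
  have m1 := mul_mem hr (pow_mem hδ p)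
  have m2 := uni_FX t i hX
  have e4 := iter_uni h i g1 (2 * n)
  rw [g4, eval_C, e1, e, n2, mul_add, mul_comm (t i ^ _), ← mul_assoc, ← eval_X_pow (x := t i),
    EK1_add h i (mul_mem m1 m2) (mul_mem hr (h.mem i hθ)),
    (iter_const h i m1 m2 (by rw [h.mul i _ hr _ (pow_mem hδ p), h.pow i hδ, dr]; simp) _).2,
    (iter_const h i hr (h.mem i hθ) dr _).2, iter_uni h i hX, ← Function.iterate_succ_apply,
    Nat.succ_eq_add_one, ← hn, iter_zero h i hθ, mul_zero, add_zero,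
    iterate_derivative_X_pow_eq_C_mul, Nat.descFactorial_self, Nat.sub_self, pow_zero, mul_one,
    eval_C, mul_comm] at e4
  have f0 : ((2 * n).factorial : κ) ≠ 0 := fun k2 => by
    have := hP.dvd_factorial.1 ((CharP.cast_eq_zero_iff κ p _).1 k2)
    omega
  rw [n1, ← g3, e1, ← mul_left_cancel₀ f0 e4]
  ring

end Pool.Agent.Work.MP_dd0d16_nt.T
end

-- merged part: Pool.Agent.Work.MP_dd0d16_nt.E.TowE
section
/-!
The tower of division points in the residue field.

PLAN. Write `t n a = res (x n a)`, `q = p ^ e`. `ell_d0`: `x n b = N (x') / D (x')` with `x' = x (n + 1) b`;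
`uni_FX`, `Pd.div`, `Pd.uni`, `der`, and `M (x') / D (x') = y n b / y (n + 1) b` by `hy`.
`ell_e`: lift `N`, `D` to `v.integer` (`Polynomial.lifts`, or `toSubring`) and reduce; `exists_e` (if
`N = C c * D` then `t n a = c`, against `Idp.uni` for `X - C c`; if `m = 0` take `e = 1`, `A = 0`).
`r n b = N1 (t') / D1 (t')` (`D1 (t') ≠ 0` by `Idp.uni`, `Gau.idp`), `δ n a = (N1' D1 - N1 D1') (t') / D1 (t') ^ 2`.
If `e = 0` then `δ n a = d (n + 1) a (t n a)` is the residue of `p * (y n a / y (n + 1) a)` (`exists_pd`,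
`Gau.idp0`, `ell_d0`, `pd_res`), so zero. For `e = 1`: `N2 = N1.map (frobenius κ p)`, `D2` likewise, lifted by
`poly_res`; `R = N2 (x' ^ p) / D2 (x' ^ p)` has the residue `r ^ p = t n a`, so `x n a - R = p * θ` with `θ`
integral (`disc`), in `FX E (x (n + 1))`; use `Polynomial.expand`, `Polynomial.derivative_expand` and
`Pd.uni`; apply `d0 a`, cancel `p`, take residues (`pd_res`): `χ = t' ^ (p - 1) * δ ^ p + d θ`. Also
`χ ^ 2 * cu (t') = cu (t n a)` is killed by `d (n + 1) a` (`t n a = r ^ p`, `Pd.pow`). Then `cartier`.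
`ell_w`: `z - z' ^ q ∈ W` has value `< 1`, `w = (z / z' ^ q - 1) / p`. Take `d0`, `d1` (`exists_pd`) for the
levels `n`, `n + 1`; `Pd.chain` with `ell_d0` gives `d1 a z = p * χ * d0 a z`; apply `d1 a` to
`z = z' ^ q * (1 + p * w)` (`d1 a (z' ^ j) = j * z' ^ (j - 1) * d1 a z'`), cancel `p`
(`q = p * p ^ (e - 1)`), take residues by `pd_res` and divide by `res z = res z' ^ q`.
-/

set_option autoImplicit false

namespace Pool.Agent.Work.MP_dd0d16_nt.T

variable {Ω Γ : Type} [Field Ω] [CharZero Ω] [LinearOrderedCommGroupWithZero Γ]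
  {v : Valuation Ω Γ} {L : Ω → Ω} {E W : Subfield Ω} {p m : ℕ} [Fact p.Prime] {κ : Type} [Field κ]
  [CharP κ p] {res : v.integer →+* κ} {k : Subfield κ} {a b c : v.integer}
  {x y : ℕ → Fin m → v.integer} {N D M : Polynomial Ω} {d : ℕ → Fin m → κ → κ}

omit [CharZero Ω] [Fact p.Prime] in
theorem ell_d0 {a b c : Ω} {x y : ℕ → Fin m → Ω} (h : EllW v p W E a b c x y N D M) (n : ℕ)
    {d1 : Fin m → Ω → Ω} (h1 : Pd E (x (n + 1)) d1) (j : Fin m) : x n j ∈ FX E (x (n + 1)) ∧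
      ∀ i, d1 i (x n j) = if i = j then p * (y n i / y (n + 1) i) else 0 := by
  have hD : D.eval (x (n + 1) j) ≠ 0 := fun e => by simpa [e] using h.den n j
  have hy : y (n + 1) j ≠ 0 := fun e => by simpa [e] using h.uy (n + 1) j
  have e1 : x n j = N.eval (x (n + 1) j) / D.eval (x (n + 1) j) := by
    rw [eq_div_iff hD, h.hx]
  have m1 := uni_FX (x (n + 1)) j fun i => (h.cN i).1
  have m2 := uni_FX (x (n + 1)) j fun i => (h.cD i).1
  refine ⟨e1 ▸ div_mem m1 m2, fun i => ?_⟩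
  rw [e1, h1.div i m1 m2 hD, h1.uni i j fun i => (h.cN i).1, h1.uni i j fun i => (h.cD i).1]
  split_ifs with hij
  · subst hij
    have h2 := h.der n i
    have h3 := h.hy n i
    simp only [Polynomial.eval_sub, Polynomial.eval_mul] at h2
    rw [h2, div_eq_iff (pow_ne_zero 2 hD)]
    field_simp
    linear_combination (-(p : Ω)) * h3
  · simp

set_option linter.unusedSectionVars false

theorem ETowE_unit (hr : ResF v E res k) {u : v.integer} : res u ≠ 0 ↔ v (u : Ω) = 1 := by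
  rw [Ne, hr.zero, not_lt]
  exact ⟨fun h => le_antisymm u.2 h, fun h => h.ge⟩

theorem ETowE_div (hr : ResF v E res k) (u : v.integer) {w : v.integer} (hw : res w ≠ 0) :
    ∃ q : v.integer, (q : Ω) = u / w ∧ u = w * q ∧ res q = res u / res w := by
  have h1 := (ETowE_unit hr).1 hw
  have h2 : (w : Ω) ≠ 0 := fun e => by simp [e] at h1
  have h3 : v ((u : Ω) / w) ≤ 1 := by
    rw [map_div₀, h1, div_one]
    exact u.2
  have h4 : u = w * ⟨_, h3⟩ := Subtype.ext (by
    change (u : Ω) = w * (u / w)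
    field_simp)
  refine ⟨⟨_, h3⟩, rfl, h4, ?_⟩
  rw [eq_div_iff hw, mul_comm, ← map_mul, ← h4]

theorem ETowE_pdiv (h0 : v p ≠ 0) (hr : ResF v E res k) (hW : Urm p v L W) {z : v.integer}
    (hz : (z : Ω) ∈ W) (h : res z = 0) : ∃ θ : v.integer, (θ : Ω) = z / p ∧ z = p * θ := by
  have h2 : (p : Ω) ≠ 0 := fun e => h0 (by rw [e, map_zero])
  have h3 : v ((z : Ω) / p) ≤ 1 := by
    rw [map_div₀]
    exact div_le_one_of_le₀ (hW.disc _ hz ((hr.zero z).1 h)) zero_le
  refine ⟨⟨_, h3⟩, rfl, Subtype.ext ?_⟩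
  push_cast
  field_simp

theorem ETowE_lift {P : Polynomial Ω} (h : Cw1 v W E P) :
    ∃ P0 : Polynomial v.integer, P0.map v.integer.subtype = P :=
  (Polynomial.mem_lifts P).1 ((Polynomial.lifts_iff_coeff_lifts P).2 fun i =>
    ⟨⟨P.coeff i, (h i).2.2⟩, rfl⟩)

theorem ETowE_co (hr : ResF v E res k) {P0 : Polynomial v.integer}
    (h : Cw1 v W E (P0.map v.integer.subtype)) (i : ℕ) : (P0.map res).coeff i ∈ k :=
  (hr.mem _).2 ⟨P0.coeff i, by simpa using (h i).1, (Polynomial.coeff_map _ _).symm⟩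

theorem ETowE_ev (P0 : Polynomial v.integer) (u : v.integer) :
    ((P0.eval u : v.integer) : Ω) = (P0.map v.integer.subtype).eval (u : Ω) :=
  (Polynomial.eval_map_apply v.integer.subtype u).symm

theorem ETowE_mem {F : Type} [Field F] {K : Subfield F} {P : Polynomial F}
    (hP : ∀ i, P.coeff i ∈ K) {u : F} (hu : u ∈ K) : P.eval u ∈ K := by
  rw [Polynomial.eval_eq_sum_range]
  exact sum_mem fun i _ => mul_mem (hP i) (pow_mem hu i)

theorem ETowE_wr {F : Type} [Field F] {K : Subfield F} {P Q : Polynomial F}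
    (hP : ∀ i, P.coeff i ∈ K) (hQ : ∀ i, Q.coeff i ∈ K) (i : ℕ) :
    (P.derivative * Q - P * Q.derivative).coeff i ∈ K := by
  have hd : ∀ {P : Polynomial F}, (∀ i, P.coeff i ∈ K) → ∀ i, P.derivative.coeff i ∈ K :=
    fun hP i => by
      rw [Polynomial.coeff_derivative]
      exact mul_mem (hP _) (add_mem (natCast_mem K i) (one_mem K))
  rw [Polynomial.coeff_sub, Polynomial.coeff_mul, Polynomial.coeff_mul]
  exact sub_mem (sum_mem fun q _ => mul_mem (hd hP _) (hQ _))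
    (sum_mem fun q _ => mul_mem (hP _) (hd hQ _))

theorem ETowE_le {F σ : Type} [Field F] {K : Subfield F} (t : σ → F) {u : F} (hu : u ∈ K) :
    u ∈ FX K t := Subfield.subset_closure (Or.inl hu)

theorem ETowE_cu {σ : Type} {t : σ → κ} {d : σ → κ → κ} (h : Pd k t d) (i : σ) {a b c u : κ}
    (ha : a ∈ k) (hb : b ∈ k) (hc : c ∈ k) (hu : u ∈ FX k t) (h0 : d i u = 0) :
    d i (cu a b c u) = 0 := by
  have a1 := ETowE_le t ha
  have b1 := ETowE_le t hb
  have c1 := ETowE_le t hc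
  have u2 := pow_mem hu 2
  have u3 := pow_mem hu 3
  rw [cu, h.add i _ (add_mem (add_mem u3 (mul_mem a1 u2)) (mul_mem b1 hu)) _ c1,
    h.add i _ (add_mem u3 (mul_mem a1 u2)) _ (mul_mem b1 hu), h.add i _ u3 _ (mul_mem a1 u2),
    h.mul i _ a1 _ u2, h.mul i _ b1 _ hu, DCharP_pow h i hu 2, DCharP_pow h i hu 1, h0,
    h.const i ha, h.const i hb, h.const i hc]
  ring

theorem ETowE_lin {F σ : Type} [Field F] {K : Subfield F} {t : σ → F} {d : σ → F → F}
    (h : Pd K t d) (i : σ) {u w : F} (hu : u ∈ FX K t) (hw : w ∈ FX K t) (n : ℕ) :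
    d i (u + n * w) = d i u + n * d i w := by
  have hn := ETowE_le t (natCast_mem K n)
  rw [h.add i _ hu _ (mul_mem hn hw), h.mul i _ hn _ hw, h.const i (natCast_mem K n), mul_zero,
    add_zero]

theorem ETowE_exp {X : Fin m → Ω} {d1 : Fin m → Ω → Ω} (h : Pd E X d1) (i : Fin m)
    {P : Polynomial Ω} (hP : ∀ j, P.coeff j ∈ E) : P.eval (X i ^ p) ∈ FX E X ∧
      d1 i (P.eval (X i ^ p)) = P.derivative.eval (X i ^ p) * (p * X i ^ (p - 1)) := by
  have h1 : ∀ j, (Polynomial.expand Ω p P).coeff j ∈ E := fun j => by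
    rw [Polynomial.coeff_expand (Fact.out : p.Prime).pos]
    split_ifs
    exacts [hP _, zero_mem E]
  rw [← Polynomial.expand_eval, h.uni i i h1, if_pos rfl, Polynomial.derivative_expand]
  refine ⟨uni_FX X i h1, ?_⟩
  simp [Polynomial.expand_eval]

theorem ETowE_frob {P0 : Polynomial v.integer} {P1 : Polynomial κ}
    (h : P0.map res = P1.map (frobenius κ p)) (u : v.integer) :
    res (P0.eval (u ^ p)) = P1.eval (res u) ^ p := by
  rw [← Polynomial.eval_map_apply, h, map_pow, ← frobenius_def, Polynomial.eval_map_apply,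
    frobenius_def]

theorem ETowE_one (h0 : v p ≠ 0) (hr : ResF v E res k) (hl : Plf v p W E) (hW : Urm p v L W)
    (h : EllW v p W E a b c (fun n i => (x n i : Ω)) (fun n i => (y n i : Ω)) N D M)
    (hd : ∀ n, Pd k (fun i => res (x n i)) (d n)) {N1 D1 : Polynomial κ}
    (hN1 : ∀ i, N1.coeff i ∈ k) (hD1 : ∀ i, D1.coeff i ∈ k) (n : ℕ) (i : Fin m)
    (hD : D1.eval (res (x (n + 1) i)) ≠ 0)
    (hr1 : (N1.eval (res (x (n + 1) i)) / D1.eval (res (x (n + 1) i))) ^ p = res (x n i)) :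
    res (y n i) / res (y (n + 1) i) ∈ (FX k fun i => res (x (n + 1) i)) ∧
    ∃ θ ∈ (FX k fun i => res (x (n + 1) i)), res (y n i) / res (y (n + 1) i) =
      res (x (n + 1) i) ^ (p - 1) * ((N1.derivative * D1 - N1 * D1.derivative).eval
        (res (x (n + 1) i)) / D1.eval (res (x (n + 1) i)) ^ 2) ^ p + d (n + 1) i θ := by
  have hp0 : (p : Ω) ≠ 0 := fun e => h0 (by rw [e, map_zero])
  have hfr : ∀ {P : Polynomial κ}, (∀ i, P.coeff i ∈ k) →
      ∀ i, (P.map (frobenius κ p)).coeff i ∈ k := fun hP i => by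
    rw [Polynomial.coeff_map, frobenius_def]
    exact pow_mem (hP i) p
  obtain ⟨N2, hN2, eN⟩ := poly_res hr hl (hfr hN1)
  obtain ⟨D2, hD2, eD⟩ := poly_res hr hl (hfr hD1)
  obtain ⟨d1, hd1⟩ := exists_pd (h.gau (n + 1)).idp0
  obtain ⟨m0, e0⟩ := ell_d0 h n hd1 i
  have e0' := (e0 i).trans (if_pos rfl)
  obtain ⟨χ, hχ, -, rχ⟩ := ETowE_div hr (y n i) ((ETowE_unit hr).2 (h.uy (n + 1) i))
  set u := x (n + 1) i with hu
  have rN := ETowE_frob eN u
  have rD := ETowE_frob eD u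
  have rN' := ETowE_frob (P0 := N2.derivative) (P1 := N1.derivative)
    (by rw [← Polynomial.derivative_map, eN, Polynomial.derivative_map]) u
  have rD' := ETowE_frob (P0 := D2.derivative) (P1 := D1.derivative)
    (by rw [← Polynomial.derivative_map, eD, Polynomial.derivative_map]) u
  have hDp : res (D2.eval (u ^ p)) ≠ 0 := rD ▸ pow_ne_zero p hD
  have hD0 : ((D2.eval (u ^ p) : v.integer) : Ω) ≠ 0 := fun e => by
    simpa [e] using (ETowE_unit hr).1 hDp
  obtain ⟨R, hR, -, rR⟩ := ETowE_div hr (N2.eval (u ^ p)) hDp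
  obtain ⟨mN, dN⟩ := ETowE_exp (p := p) hd1 i fun j => (hN2 j).1
  obtain ⟨mD, dD⟩ := ETowE_exp (p := p) hd1 i fun j => (hD2 j).1
  rw [Polynomial.derivative_map] at dN dD
  simp only [← hu, ← SubmonoidClass.coe_pow, ← ETowE_ev] at mN dN mD dD
  have wu : ((u ^ p : v.integer) : Ω) ∈ W := by
    rw [SubmonoidClass.coe_pow]
    exact pow_mem (h.mem (n + 1) i) p
  obtain ⟨θ, hθ, eθ⟩ := ETowE_pdiv h0 hr hW (z := x n i - R) (by
    rw [AddSubgroupClass.coe_sub, hR, ETowE_ev, ETowE_ev]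
    exact sub_mem (h.mem n i) (div_mem (ETowE_mem (fun j => (hN2 j).2.1) wu)
      (ETowE_mem (fun j => (hD2 j).2.1) wu))) (by
    rw [map_sub, rR, rN, rD, ← div_pow, hr1, sub_self])
  have mR : (R : Ω) ∈ FX E fun i => (x (n + 1) i : Ω) := hR ▸ div_mem mN mD
  have mθ : (θ : Ω) ∈ FX E fun i => (x (n + 1) i : Ω) := by
    rw [hθ, AddSubgroupClass.coe_sub]
    exact div_mem (sub_mem m0 mR) (natCast_mem _ p)
  have mχ : (χ : Ω) ∈ FX E fun i => (x (n + 1) i : Ω) := by
    have := div_mem (hd1.mem i m0) (natCast_mem (FX E fun i => (x (n + 1) i : Ω)) p)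
    rwa [e0', mul_div_cancel_left₀ _ hp0, ← hχ] at this
  obtain ⟨mθ', θ', hθ', rθ'⟩ := pd_res hr (h.gau (n + 1)) hd1 (hd (n + 1)) θ mθ i
  refine ⟨rχ ▸ (pd_res hr (h.gau (n + 1)) hd1 (hd (n + 1)) χ mχ i).1, res θ, mθ', ?_⟩
  have e1 : (x n i : Ω) = R + p * θ := by
    have := congrArg Subtype.val eθ
    push_cast at this
    linear_combination this
  have e2 := ETowE_lin hd1 i mR mθ p
  rw [← e1, e0', ← hχ, ← hθ', hR, hd1.div i mN mD hD0, dN, dD] at e2
  have e3 : χ * D2.eval (u ^ p) ^ 2 = u ^ (p - 1) * (N2.derivative.eval (u ^ p) * D2.eval (u ^ p) -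
      N2.eval (u ^ p) * D2.derivative.eval (u ^ p)) + D2.eval (u ^ p) ^ 2 * θ' := by
    refine Subtype.ext (mul_left_cancel₀ hp0 ?_)
    rw [← sub_eq_iff_eq_add, eq_div_iff (pow_ne_zero 2 hD0)] at e2
    push_cast at e2 ⊢
    linear_combination e2
  have e4 := congrArg res e3
  simp only [map_mul, map_add, map_sub, map_pow, rN, rD, rN', rD', rχ, rθ'] at e4
  have hDp' := pow_ne_zero p hD
  rw [div_pow, Polynomial.eval_sub, Polynomial.eval_mul, Polynomial.eval_mul, sub_pow_char, mul_pow,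
    mul_pow, ← pow_mul, mul_comm 2 p, pow_mul, ← mul_left_inj' (pow_ne_zero 2 hDp'), e4]
  field_simp



theorem ell_e (hp : p ≠ 2) (h0 : v p ≠ 0) (hr : ResF v E res k) (hl : Plf v p W E)
    (hW : Urm p v L W)
    (h : EllW v p W E a b c (fun n i => (x n i : Ω)) (fun n i => (y n i : Ω)) N D M)
    (hd : ∀ n, Pd k (fun i => res (x n i)) (d n)) :
    ∃ (e : ℕ) (r δ : ℕ → Fin m → κ), e ≠ 0 ∧
      (∀ n j, r n j ∈ (FX k fun i => res (x (n + 1) i)) ∧ r n j ^ p ^ e = res (x n j)) ∧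
      (∀ n i j, d (n + 1) i (r n j) = if i = j then δ n i else 0) ∧ (∀ n i, δ n i ≠ 0) ∧
      (e = 1 → ∃ A ∈ k, ∀ n i, res (y (n + 1) i) ^ (p - 1) * δ n i ^ p =
        A * (res (y n i) / res (y (n + 1) i))) := by
  rcases isEmpty_or_nonempty (Fin m) with hm | ⟨⟨j₀⟩⟩
  · exact ⟨1, 0, 0, one_ne_zero, fun _ => isEmptyElim, fun _ => isEmptyElim, fun _ => isEmptyElim,
      fun _ => ⟨0, zero_mem k, fun _ => isEmptyElim⟩⟩
  obtain ⟨N0, rfl⟩ := ETowE_lift h.cN
  obtain ⟨D0, rfl⟩ := ETowE_lift h.cD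
  have hI := fun n => (h.gau n).idp hr
  have hy : ∀ n i, res (y n i) ≠ 0 := fun n i => (ETowE_unit hr).2 (h.uy n i)
  have hD : ∀ n j, (D0.map res).eval (res (x (n + 1) j)) ≠ 0 := fun n j => by
    rw [Polynomial.eval_map_apply, ETowE_unit hr, ETowE_ev]
    exact h.den n j
  have hx : ∀ n j, res (x n j) * (D0.map res).eval (res (x (n + 1) j)) =
      (N0.map res).eval (res (x (n + 1) j)) := fun n j => by
    rw [Polynomial.eval_map_apply, Polynomial.eval_map_apply, ← map_mul]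
    refine congrArg res (Subtype.ext ?_)
    rw [MulMemClass.coe_mul, ETowE_ev, ETowE_ev]
    exact h.hx n j
  obtain ⟨e, N1, D1, hN1, hD1, hD1', he, hw⟩ := exists_e (res_perf hr hl) (ETowE_co hr h.cN)
    (ETowE_co hr h.cD) (fun e => hD 0 j₀ (by rw [e, Polynomial.eval_zero])) (fun c hc e => by
      have h1 := hx 0 j₀
      rw [e, Polynomial.eval_mul, Polynomial.eval_C, mul_left_inj' (hD 0 j₀)] at h1
      refine Polynomial.X_sub_C_ne_zero c ((hI 0).uni j₀ (fun i => ?_) (by simp [h1]))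
      rw [Polynomial.coeff_sub, Polynomial.coeff_X, Polynomial.coeff_C]
      refine sub_mem ?_ ?_ <;> split_ifs
      exacts [one_mem k, zero_mem k, hc, zero_mem k])
  have h1 : ∀ n j, D1.eval (res (x n j)) ≠ 0 := fun n j e => hD1' ((hI n).uni j hD1 e)
  have h2 : ∀ n j, (N1.eval (res (x (n + 1) j)) / D1.eval (res (x (n + 1) j))) ^ p ^ e =
      res (x n j) := fun n j => by
    have := congrArg (Polynomial.eval (res (x (n + 1) j))) he
    rw [Polynomial.eval_mul, Polynomial.eval_mul, Polynomial.eval_pow, Polynomial.eval_pow,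
      ← hx, mul_right_comm, mul_left_inj' (hD n j)] at this
    rw [div_pow, this, mul_div_cancel_right₀ _ (pow_ne_zero _ (h1 _ j))]
  have h3 : ∀ n j, N1.eval (res (x n j)) / D1.eval (res (x n j)) ∈ FX k fun i => res (x n i) :=
    fun n j => div_mem (uni_FX (fun i => res (x n i)) j hN1) (uni_FX (fun i => res (x n i)) j hD1)
  have h4 : ∀ n i j, d n i (N1.eval (res (x n j)) / D1.eval (res (x n j))) = if i = j then
      (N1.derivative * D1 - N1 * D1.derivative).eval (res (x n i)) / D1.eval (res (x n i)) ^ 2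
      else 0 := fun n i j => by
    rw [(hd n).div i (uni_FX (fun i => res (x n i)) j hN1) (uni_FX (fun i => res (x n i)) j hD1)
      (h1 n j), (hd n).uni i j hN1, (hd n).uni i j hD1]
    split_ifs with hij
    · subst hij
      simp
    · simp
  have h5 : ∀ n i, (N1.derivative * D1 - N1 * D1.derivative).eval (res (x n i)) /
      D1.eval (res (x n i)) ^ 2 ≠ 0 := fun n i =>
    div_ne_zero (fun e => hw ((hI n).uni i (ETowE_wr hN1 hD1) e)) (pow_ne_zero 2 (h1 n i))
  refine ⟨e, fun n j => N1.eval (res (x (n + 1) j)) / D1.eval (res (x (n + 1) j)),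
    fun n i => (N1.derivative * D1 - N1 * D1.derivative).eval (res (x (n + 1) i)) /
      D1.eval (res (x (n + 1) i)) ^ 2, ?_, fun n j => ⟨h3 _ j, h2 n j⟩, fun n => h4 (n + 1),
    fun n => h5 (n + 1), ?_⟩
  · rintro rfl
    obtain ⟨d1, hd1⟩ := exists_pd (h.gau (0 + 1)).idp0
    obtain ⟨m0, e0⟩ := ell_d0 h 0 hd1 j₀
    obtain ⟨χ, hχ, -, -⟩ := ETowE_div hr (y 0 j₀) (hy (0 + 1) j₀)
    obtain ⟨-, z, hz, rz⟩ := pd_res hr (h.gau (0 + 1)) hd1 (hd (0 + 1)) (x 0 j₀) m0 j₀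
    have e1 : z = p * χ := Subtype.ext (by
      rw [hz, e0, if_pos rfl, ← hχ]
      simp)
    have e2 := h2 0 j₀
    rw [pow_zero, pow_one] at e2
    rw [e1, map_mul, map_natCast, CharP.cast_eq_zero, zero_mul, ← e2, h4, if_pos rfl] at rz
    exact h5 _ _ rz.symm
  · rintro rfl
    have ha : res a ∈ k := (hr.mem _).2 ⟨a, h.ca.1, rfl⟩
    have hb : res b ∈ k := (hr.mem _).2 ⟨b, h.cb.1, rfl⟩
    have hc : res c ∈ k := (hr.mem _).2 ⟨c, h.cc.1, rfl⟩
    have hcu : ∀ n i, cu (res a) (res b) (res c) (res (x n i)) = res (y n i) ^ 2 := fun n i => by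
      have : y n i ^ 2 = cu a b c (x n i) := Subtype.ext (by simpa [cu] using h.cur n i)
      rw [← map_pow, this]
      simp [cu]
    obtain ⟨A, hA, hA'⟩ := cartier (σ := Fin m) hp ha hb hc
    refine ⟨A, hA, fun n i => ?_⟩
    have e2 := h2 n i
    rw [pow_one] at e2
    obtain ⟨m1, θ, m2, e3⟩ := ETowE_one h0 hr hl hW h hd hN1 hD1 n i (h1 _ i) e2
    have := hA' _ _ i _ _ θ (hd (n + 1)) m1
      (div_mem (uni_FX (fun i => res (x (n + 1) i)) i (ETowE_wr hN1 hD1))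
        (pow_mem (uni_FX (fun i => res (x (n + 1) i)) i hD1) 2)) m2
      (div_ne_zero (hy n i) (hy _ i)) (by rw [hcu]; exact pow_ne_zero 2 (hy _ i)) e3 (by
        rw [hcu, div_pow, div_mul_cancel₀ _ (pow_ne_zero 2 (hy _ i)), ← hcu, ← e2]
        exact ETowE_cu (hd (n + 1)) i ha hb hc (pow_mem (h3 _ i) p) ((hd (n + 1)).pow i (h3 _ i)))
    have e4 : 2 * (p / 2) = p - 1 := by
      have := (Fact.out : p.Prime).eq_two_or_odd.resolve_left hp
      omega
    rwa [hcu, ← pow_mul, e4] at this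

theorem ell_w (h0 : v p ≠ 0) (hr : ResF v E res k) (hW : Urm p v L W)
    (h : EllW v p W E a b c (fun n i => (x n i : Ω)) (fun n i => (y n i : Ω)) N D M)
    (hd : ∀ n, Pd k (fun i => res (x n i)) (d n)) {e : ℕ} (he : e ≠ 0) (n : ℕ) {z z' : v.integer}
    (hz : (z : Ω) ∈ (FX E fun i => (x n i : Ω)) ∧ (z : Ω) ∈ W)
    (hz' : (z' : Ω) ∈ (FX E fun i => (x (n + 1) i : Ω)) ∧ (z' : Ω) ∈ W) (h1 : res z ≠ 0)
    (h2 : res z' ^ p ^ e = res z) : ∃ w : v.integer,
      (w : Ω) ∈ (FX E fun i => (x (n + 1) i : Ω)) ∧ z = z' ^ p ^ e * (1 + p * w) ∧ ∀ i,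
        d (n + 1) i (res w) = res (y n i) / res (y (n + 1) i) * (d n i (res z) / res z) -
          (p : κ) ^ (e - 1) * (d (n + 1) i (res z') / res z') := by
  have hp0 : (p : Ω) ≠ 0 := fun e => h0 (by rw [e, map_zero])
  obtain ⟨e, rfl⟩ := Nat.exists_eq_succ_of_ne_zero he
  obtain ⟨s, hs⟩ := Nat.exists_eq_succ_of_ne_zero
    (pow_ne_zero e.succ (Fact.out : p.Prime).ne_zero)
  have hs' : ((s + 1 : ℕ) : Ω) = p * p ^ e := by
    rw [← Nat.succ_eq_add_one, ← hs, Nat.cast_pow, pow_succ']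
  rw [hs, Nat.succ_eq_add_one] at h2 ⊢
  rw [Nat.succ_sub_one]
  obtain ⟨d0, hd0⟩ := exists_pd (h.gau n).idp0
  obtain ⟨d1, hd1⟩ := exists_pd (h.gau (n + 1)).idp0
  have hc := fun i => hd0.chain hd1 (fun j => (ell_d0 h n hd1 j).1) i
    (fun j => (ell_d0 h n hd1 j).2 i) hz.1
  have mz : (z : Ω) ∈ FX E fun i => (x (n + 1) i : Ω) := by
    refine (Subfield.closure_le.2 ?_ : _ ≤ FX E fun i => (x (n + 1) i : Ω)) hz.1
    rintro _ (hu | ⟨j, rfl⟩)
    exacts [ETowE_le _ hu, (ell_d0 h n hd1 j).1]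
  have h3 : res (z' ^ (s + 1)) ≠ 0 := by rwa [map_pow, h2]
  obtain ⟨u, hu, eu, ru⟩ := ETowE_div hr z h3
  rw [SubmonoidClass.coe_pow] at hu
  obtain ⟨w, hw, ew⟩ := ETowE_pdiv h0 hr hW (z := u - 1) (by
    rw [AddSubgroupClass.coe_sub, hu]
    exact sub_mem (div_mem hz.2 (pow_mem hz'.2 _)) (one_mem W)) (by
    rw [map_sub, ru, map_pow, h2, div_self h1, map_one, sub_self])
  have mw : (w : Ω) ∈ FX E fun i => (x (n + 1) i : Ω) := by
    rw [hw, AddSubgroupClass.coe_sub, hu]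
    exact div_mem (sub_mem (div_mem mz (pow_mem hz'.1 _)) (one_mem _)) (natCast_mem _ p)
  have ez : z = z' ^ (s + 1) * (1 + p * w) := by rw [← ew, add_sub_cancel, ← eu]
  refine ⟨w, mw, ez, fun i => ?_⟩
  obtain ⟨χ, hχ, -, rχ⟩ := ETowE_div hr (y n i) ((ETowE_unit hr).2 (h.uy (n + 1) i))
  obtain ⟨-, Z, hZ, rZ⟩ := pd_res hr (h.gau n) hd0 (hd n) z hz.1 i
  obtain ⟨-, Z', hZ', rZ'⟩ := pd_res hr (h.gau (n + 1)) hd1 (hd (n + 1)) z' hz'.1 i
  obtain ⟨-, w', hw', rw'⟩ := pd_res hr (h.gau (n + 1)) hd1 (hd (n + 1)) w mw i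
  have e1 : (z : Ω) = z' ^ (s + 1) * (1 + p * w) := by
    have := congrArg Subtype.val ez
    push_cast at this
    exact this
  have e2 := hd1.mul i _ (pow_mem hz'.1 (s + 1)) _
    (add_mem (one_mem _) (mul_mem (natCast_mem _ p) mw))
  rw [← e1, (hc i).2, ETowE_lin hd1 i (one_mem _) mw p, hd1.const i (one_mem E),
    DCharP_pow hd1 i hz'.1 s, hs', ← hχ, ← hZ, ← hZ', ← hw'] at e2
  have e3 : χ * Z = z' ^ (s + 1) * w' + (1 + p * w) * (p ^ e * z' ^ s * Z') := by
    refine Subtype.ext (mul_left_cancel₀ hp0 ?_)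
    push_cast
    linear_combination e2
  have e4 := congrArg res e3
  simp only [map_mul, map_add, map_pow, map_one, map_natCast, rχ, rZ, rZ', rw'] at e4
  rw [CharP.cast_eq_zero κ p, zero_mul, add_zero, one_mul] at e4
  have h4 : res z' ≠ 0 := fun e => h1 (by rw [← h2, e, zero_pow (Nat.succ_ne_zero s)])
  rw [← mul_div_assoc, CharP.cast_eq_zero κ p, e4, ← h2]
  field_simp
  ring

end Pool.Agent.Work.MP_dd0d16_nt.T
end
end

-- merged part: Pool.Agent.Work.MP_dd0d16_nt.E.Chain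
section
-- merged part: Pool.Agent.Work.MP_dd0d16_nt.E.Unr
section
/-!
Torsion points of order prime to `p` are unramified; the tower of division points.

PLAN. `tors_unr`: let `τ` fix `Unr p` (`InfiniteGalois.fixedField_fixingSubgroup`). `W = W0.baseChange _` for
a curve `W0` over `Unr p` (`WeierstrassCurve.ext`), `τ` as an algebra homomorphism over `Unr p`,
`Point.map` is additive, so `(τ x, τ y)` is killed by `M`. `‖τ x - x‖ < 1` by `unr_lift` (with `K = ⊤`) and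
`norm_aut`; `tors_far` gives `τ x = x`.
`unr_log`: `exists_root_close`, `u = ω * (1 + s)`, `log_fin`, `unr_disc`; the terms of the series have norm
at most `p⁻¹` (`norm_int_ge`, `n + 1 ≤ p ^ n`), or show `‖L (1 + s)‖ < 1` and use `log_mem`, `unr_disc`.
`unr_plf`: `b = 0`, or `ω` from `exists_root_close`, `Ram_krasner`, and `b = ω ^ r` with `r * p ≡ 1` modulo the
order (`Nat.exists_mul_emod_eq_one_of_coprime`, or `Nat.ModEq.pow_totient`).
`tors_tower`: `M` the order of `P`, `r * p ≡ 1` modulo `M`, `P n = r ^ n • P` has the same order and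
`p • P (n + 1) = P n`; `chn_of` for `P (n + 1)`; `x n`, `y n` are the coordinates of `P n`
(`y n` shifted by `(a₁ x + a₃) / 2`); `Point.some.inj`; `tors_int`, `tors_far`, `tors_Y`, `tors_unr`.
-/

set_option autoImplicit false

namespace Pool.Agent.Work.MP_dd0d16_nt.T

open WeierstrassCurve WeierstrassCurve.Affine

variable {p : ℕ} [Fact p.Prime] {K : IntermediateField ℚ_[p] (PadicAlgCl p)}
  {W : WeierstrassCurve (PadicAlgCl p)} {L : PadicAlgCl p → PadicAlgCl p}

theorem tors_unr [DecidableEq (PadicAlgCl p)] {x1 y1 : PadicAlgCl p} {M : ℕ} (hp : p ≠ 2)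
    (hW : Good K W) (h1 : W.toAffine.Nonsingular x1 y1) (hM : ¬ p ∣ M)
    (h : M • Point.some x1 y1 h1 = 0) : x1 ∈ Unr p := by
  have hc : ∀ a ∈ [W.a₁, W.a₂, W.a₃, W.a₄, W.a₆], a ∈ Unr p := fun a ha => (hW.1 a ha).1.2
  obtain ⟨W0, rfl⟩ : ∃ W0 : WeierstrassCurve (Unr p), W0.baseChange (PadicAlgCl p) = W :=
    ⟨⟨⟨_, hc W.a₁ (by simp)⟩, ⟨_, hc W.a₂ (by simp)⟩, ⟨_, hc W.a₃ (by simp)⟩,
      ⟨_, hc W.a₄ (by simp)⟩, ⟨_, hc W.a₆ (by simp)⟩⟩, rfl⟩
  rw [← InfiniteGalois.fixedField_fixingSubgroup (Unr p), IntermediateField.mem_fixedField_iff]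
  intro τ hτ
  replace hτ := (IntermediateField.mem_fixingSubgroup_iff _ τ).1 hτ
  let f : PadicAlgCl p →ₐ[Unr p] PadicAlgCl p := ⟨τ, fun z => hτ z z.2⟩
  have h2 := congrArg (Point.map (W' := W0.toAffine) f) h
  rw [map_nsmul, map_zero, Point.map_some] at h2
  by_contra hn
  obtain ⟨b, -, b1, b2⟩ := unr_lift (K := ⊤) trivial (tors_int hp hW h1 hM h)
  refine (tors_far hp hW _ h1 hM h2 h hn).not_lt ?_
  rw [show f x1 - x1 = τ (x1 - b) - (x1 - b) by rw [map_sub, hτ b b1, sub_sub_sub_cancel_right]; rfl]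
  exact (Ram_sub_le _ _).trans_lt (max_lt ((norm_aut τ _).trans_lt b2) b2)

theorem unr_log (hL : IsLog L) {u : PadicAlgCl p} (h1 : u ∈ Unr p) (h2 : ‖u‖ = 1) :
    ‖L u‖ ≤ (p : ℝ)⁻¹ := by
  obtain ⟨ω, o1, o2⟩ := exists_root_close h2
  have o3 := o1.ne_zero
  have h3 : ‖u / ω - 1‖ < 1 := by rwa [div_sub_one o3, norm_div, Ram_root_norm o1, div_one]
  have h4 := unr_disc (sub_mem (div_mem h1 (Ram_root_mem o1)) (one_mem _)) h3
  have h5 := hL.2.2 _ h3
  rw [add_sub_cancel, show L (u / ω) = L u by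
    have := hL.1 (u / ω) ω (div_ne_zero (norm_ne_zero_iff.1 (h2 ▸ one_ne_zero)) o3) o3
    rw [div_mul_cancel₀ _ o3, log_root hL o1, add_zero] at this
    exact this.symm] at h5
  refine le_of_tendsto' h5.tendsto_sum_nat.norm fun T =>
    IsUltrametricDist.norm_sum_le_of_forall_le_of_nonneg Ram_inv_pos.le fun n _ => ?_
  have h6 := norm_int_ge (p := p) ((n + 1 : ℕ) : ℤ) (by omega)
  rw [Int.cast_natCast, Int.cast_natCast, Nat.abs_cast, Nat.cast_succ (R := PadicAlgCl p)] at h6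
  have h7 : ((n + 1 : ℕ) : ℝ) ≤ (p : ℝ) ^ n := by
    exact_mod_cast Nat.lt_pow_self (Fact.out : p.Prime).one_lt
  have h8 : (0 : ℝ) < (p : ℝ) ^ n := pow_pos (zero_lt_one.trans Ram_one_lt) n
  rw [norm_div, norm_mul, norm_pow, norm_neg, norm_one, one_pow, one_mul, norm_pow]
  refine div_le_of_le_mul₀ (norm_nonneg _) Ram_inv_pos.le
    ((pow_le_pow_left₀ (norm_nonneg _) h4 _).trans ?_)
  rw [pow_succ', inv_pow]
  exact mul_le_mul_of_nonneg_left ((inv_le_iff_one_le_mul₀' h8).2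
    (h6.trans (mul_le_mul_of_nonneg_right h7 (norm_nonneg _)))) Ram_inv_pos.le

theorem EUnr_inv {N : ℕ} (h : ¬ p ∣ N) : ∃ r, p * r ≡ 1 [MOD N] := by
  have h0 : 0 < N := Nat.pos_of_ne_zero fun e => h (e ▸ dvd_zero p)
  obtain ⟨k, hk⟩ := Nat.exists_eq_succ_of_ne_zero (Nat.totient_pos.2 h0).ne'
  have := Nat.ModEq.pow_totient ((Nat.Prime.coprime_iff_not_dvd Fact.out).2 h)
  exact ⟨p ^ k, by rwa [hk, pow_succ'] at this⟩

theorem unr_plf {z : PadicAlgCl p} (h1 : z ∈ K) (h2 : ‖z‖ ≤ 1) :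
    ∃ b ∈ K, b ∈ Unr p ∧ ‖b‖ ≤ 1 ∧ ‖z - b ^ p‖ < 1 := by
  rcases h2.lt_or_eq with h | h
  · exact ⟨0, zero_mem _, zero_mem _, by simp,
      by rwa [zero_pow (Fact.out : p.Prime).ne_zero, sub_zero]⟩
  obtain ⟨ω, o1, o2⟩ := exists_root_close h
  obtain ⟨N, n1, n2⟩ := id o1
  obtain ⟨r, hr⟩ := EUnr_inv n1
  refine ⟨ω ^ r, pow_mem (Ram_krasner o1 o2 h1) r, pow_mem (Ram_root_mem o1) r,
    by rw [norm_pow, Ram_root_norm o1, one_pow], ?_⟩
  rwa [← pow_mul, mul_comm, pow_eq_pow_of_modEq hr n2, pow_one]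

theorem tors_tower (hp : p ≠ 2) (hW : Good K W) {z : PadicAlgCl p} (h : Tors W (2 * p) z) :
    ∃ (x y : ℕ → PadicAlgCl p) (X Y : ℕ → ℕ → PadicAlgCl p), x 0 = z ∧ ∀ n,
      x n ∈ Unr p ∧ ‖x n‖ ≤ 1 ∧ ‖y n‖ = 1 ∧ Chn p (W.b₂ / 4) (W.b₄ / 2) (W.b₆ / 4) (X n) (Y n) ∧
      X n 1 = x (n + 1) ∧ Y n 1 = y (n + 1) ∧ X n p = x n ∧ Y n p = y n ∧
      (∀ j, 2 ≤ j → j < p → ‖X n j - X n 1‖ = 1) ∧ ∀ j, 1 ≤ j → j ≤ p → Y n j ≠ 0 := by
  classical
  obtain ⟨y, h0, h1, hM⟩ := h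
  have h2 := (Fact.out : p.Prime).two_le
  obtain ⟨r, hr⟩ := EUnr_inv hM
  set Q := Point.some z y h0
  let P : ℕ → W.toAffine.Point := fun n => r ^ n • Q
  have k1 : ∀ n j : ℕ, addOrderOf Q • j • P n = 0 := fun n j => by
    rw [smul_comm, smul_comm _ (r ^ n), addOrderOf_nsmul_eq_zero, smul_zero, smul_zero]
  have k2 : ∀ n, p • P (n + 1) = 1 • P n := fun n => by
    rw [← nsmul_eq_nsmul_of_modEq hr (one_nsmul (P n) ▸ k1 n 1), mul_smul, smul_smul r, ← pow_succ']
  have k3 : ∀ n j, 1 ≤ j → j ≤ 2 * p → j • P n ≠ 0 := fun n j j1 j2 => by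
    induction n with
    | zero => simpa [P] using nsmul_ne_zero_of_lt_addOrderOf (by omega) (j2.trans_lt h1)
    | succ n ih => exact fun e => ih (by rw [← one_nsmul (P n), ← k2, smul_comm, e, nsmul_zero])
  choose X Y c1 c2 using fun n => chn_of h2 (P n) (k3 n)
  choose! c2 y' c3 c4 c5 using c2
  have p1 : 1 ≤ p := by omega
  have k4 := fun n j a b => c4 n j a b ▸ k1 n j
  refine ⟨fun n => X n 1, fun n => Y n 1, fun n => X (n + 1), fun n => Y (n + 1), ?_, fun n => ?_⟩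
  · exact (Point.some.inj ((c4 0 1 le_rfl p1).symm.trans (show _ = Q by simp [P]))).1
  obtain ⟨e1, e2⟩ := Point.some.inj
    ((c4 (n + 1) p p1 le_rfl).symm.trans ((k2 n).trans (c4 n 1 le_rfl p1)))
  refine ⟨tors_unr hp hW _ hM (k4 n 1 le_rfl p1), tors_int hp hW _ hM (k4 n 1 le_rfl p1), ?_, c1 _,
    rfl, rfl, e1, ?_, fun j j1 j2 => tors_far hp hW _ _ hM (k4 _ j (by omega) j2.le)
      (k4 _ 1 le_rfl p1) fun e => ?_, c2 _⟩
  · beta_reduce
    rw [c5 n 1 le_rfl p1]
    refine tors_Y hp hW _ hM (k4 n 1 le_rfl p1) ?_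
    rw [← c4 n 1 le_rfl p1, ← add_nsmul]
    exact k3 n _ (by omega) (by omega)
  · beta_reduce
    rw [c5 n 1 le_rfl p1, c5 _ p p1 le_rfl, e1, e2]
  · have := Point.X_eq_iff (h₁ := c3 (n + 1) j (by omega) j2.le) (h₂ := c3 (n + 1) 1 le_rfl p1) |>.1 e
    rw [← c4 _ _ (by omega) j2.le, ← c4 _ _ le_rfl p1, ← sub_eq_zero, ← add_eq_zero_iff_eq_neg,
      ← add_nsmul, sub_eq_add_neg, ← sub_nsmul _ (show 1 ≤ j by omega)] at this
    exact this.elim (k3 _ _ (by omega) (by omega)) (k3 _ _ (by omega) (by omega))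

theorem Good.abc (hp : p ≠ 2) (hW : Good K W) : ∀ a ∈ [W.b₂ / 4, W.b₄ / 2, W.b₆ / 4],
    a ∈ K ∧ a ∈ Unr p ∧ ‖a‖ ≤ 1 := by
  have h2 : ¬ p ∣ 2 := fun h => hp ((Nat.prime_dvd_prime_iff_eq Fact.out Nat.prime_two).1 h)
  have n2 : ‖(2 : PadicAlgCl p)‖ = 1 := Ram_nat h2
  have n4 : ‖(4 : PadicAlgCl p)‖ = 1 := by
    rw [show (4 : PadicAlgCl p) = 2 * 2 by norm_num, norm_mul, n2, one_mul]
  let R := (K ⊓ Unr p).toSubfield.toSubring ⊓ Ram_B p
  have h : ∀ a ∈ [W.a₁, W.a₂, W.a₃, W.a₄, W.a₆], a ∈ R := hW.1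
  simp only [List.forall_mem_cons] at h ⊢
  obtain ⟨a1, a2, a3, a4, a6, -⟩ := h
  have key : ∀ (a : PadicAlgCl p) (c : ℕ) [c.AtLeastTwo], a ∈ R → ‖(ofNat(c) : PadicAlgCl p)‖ = 1 →
      a / ofNat(c) ∈ K ∧ a / ofNat(c) ∈ Unr p ∧ ‖a / ofNat(c)‖ ≤ 1 := fun a c _ ha hc =>
    ⟨div_mem ha.1.1 (ofNat_mem _ c), div_mem ha.1.2 (ofNat_mem _ c),
      by rw [norm_div, hc, div_one]; exact ha.2⟩
  exact ⟨key _ 4 (add_mem (pow_mem a1 2) (mul_mem (ofNat_mem _ 4) a2)) n4,
    key _ 2 (add_mem (mul_mem (ofNat_mem _ 2) a4) (mul_mem a1 a3)) n2,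
    key _ 4 (add_mem (pow_mem a3 2) (mul_mem (ofNat_mem _ 4) a6)) n4, by simp⟩

end Pool.Agent.Work.MP_dd0d16_nt.T
end

-- merged part: Pool.Agent.Work.MP_dd0d16_nt.E.Chain
section
/-!
Multiplication by `p` as a rational map.

PLAN. `chain_poly`: induction on `j` (from `2` to `p`) for the statement with `j` in place of `p`. Let `R` be the
subring of integral elements of `E` and `W`; take polynomials over `R` and map them. `j = 2`: with
`F = X ^ 3 + a X ^ 2 + b X + c`, `D = 8 F ^ 2`, `N = 2 F * (F' ^ 2 - 4 (a + 2 X) F)`,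
`M = - (F' * (F' ^ 2 - 4 (a + 3 X) F) + 8 F ^ 2)` (`v 2 = 1` by `v_nat`, `Y 1 ^ 2 = F (X 1)`). Step: `G = N - X * D` has
`G (x) = (X j - x) * D (x)`, a unit; `D1 = D * G ^ 3`,
`N1 = G * (F * (M - D) ^ 2 * D - (a + X) * D * G ^ 2 - N * G ^ 2)`,
`M1 = - ((M - D) * (F * (M - D) ^ 2 * D - (a + 2 X) * D * G ^ 2 - N * G ^ 2) + D * G ^ 3)`.
`chain_der`: `exists_mid`, `exists_der` (Fields) give a derivation `d` of `Ω` that kills `E` with
`d (X 1) = 1`. Induction: `Y 1 * d (X j) = j * Y j`; from `cur`, `2 * Y 1 * d (Y j) = j * F' (X j)`. Introduce the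
slope `l` (`l * (X j - X 1) = Y j - Y 1`, `X (j + 1) = l ^ 2 - a - X j - X 1`,
`Y (j + 1) = - (l * (X (j + 1) - X 1) + Y 1)`), differentiate, and use
`F' (X j) = 2 * l * Y j + (X j - X 1) * (X j - X (j + 1))` and its mirror image (both follow from
`F (T) - (l * (T - X 1) + Y 1) ^ 2 = (T - X 1) * (T - X j) * (T - X (j + 1))`). Then apply `d` to `hN`
(`Derivation.map_aeval`-type lemma, or induction on the polynomial).
`ellW_of`: `chain_poly` for `J = ℕ × Fin m`; `Gau` by induction on `n` (`exists_resF`, `Gau.idp`, `Idp.exch`,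
`gau_of_idp`; the residue of `x n d` is the quotient of the values of the reductions of `N`, `D`);
transcendence by `Gau.idp0`, `Idp.uni`; `chain_der`.
-/

set_option autoImplicit false

namespace Pool.Agent.Work.MP_dd0d16_nt.T

variable {Ω Γ : Type} [Field Ω] [LinearOrderedCommGroupWithZero Γ] {v : Valuation Ω Γ}
  {E W : Subfield Ω} {p m : ℕ} [Fact p.Prime] {a b c : Ω}

theorem EChain_lift (R : Subring Ω) {P : Polynomial Ω} (h : ∀ i, P.coeff i ∈ R) :
    ∃ Q : Polynomial R, Q.map R.subtype = P :=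
  (Polynomial.mem_lifts _).1 ((Polynomial.lifts_iff_coeff_lifts _).2 fun i => ⟨⟨_, h i⟩, rfl⟩)

theorem EChain_add {x y x1 y1 x2 y2 d m : Ω} (hm : y1 * d = y * m)
    (ax : x2 * (x1 - x) ^ 2 = (y1 - y) ^ 2 - (a + x1 + x) * (x1 - x) ^ 2)
    (ay : y2 * (x1 - x) = -((y1 - y) * (x2 - x) + y * (x1 - x))) :
    x2 * (d * (x1 * d - x * d) ^ 3) = (x1 * d - x * d) * (y ^ 2 * (m - d) ^ 2 * d -
      (a + x) * d * (x1 * d - x * d) ^ 2 - x1 * d * (x1 * d - x * d) ^ 2) ∧
    y2 * (d * (x1 * d - x * d) ^ 3) = y * -((m - d) * (y ^ 2 * (m - d) ^ 2 * d -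
      (a + 2 * x) * d * (x1 * d - x * d) ^ 2 - x1 * d * (x1 * d - x * d) ^ 2) +
        d * (x1 * d - x * d) ^ 3) := by
  have hw : y * (m - d) = d * (y1 - y) := by linear_combination -hm
  have hw2 : y ^ 2 * (m - d) ^ 2 = d ^ 2 * (y1 - y) ^ 2 := by rw [← mul_pow, hw, mul_pow]
  rw [hw2]
  constructor
  · linear_combination (x1 - x) * d ^ 4 * ax
  · linear_combination d ^ 4 * (x1 - x) ^ 2 * ay - d ^ 4 * (y1 - y) * ax +
      (d ^ 2 * (y1 - y) ^ 2 * d - (a + 2 * x) * d * (x1 * d - x * d) ^ 2 -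
        x1 * d * (x1 * d - x * d) ^ 2) * hw

omit [Fact p.Prime] in
open Polynomial in
theorem EChain_poly (h2 : v 2 = 1) (R : Subring Ω) (a b c : R) {J : Type} (x y : J → ℕ → Ω)
    (h : ∀ i, Chn p (a : Ω) b c (x i) (y i) ∧ ChU v p (x i) (y i)) (j : ℕ) (hj : 2 ≤ j)
    (hjp : j ≤ p) : ∃ N D M : R[X], ∀ i, v (aeval (x i 1) D) = 1 ∧
      x i j * aeval (x i 1) D = aeval (x i 1) N ∧
        y i j * aeval (x i 1) D = y i 1 * aeval (x i 1) M := by
  have hF (i : J) : aeval (x i 1) (cu (C a) (C b) (C c) X) = y i 1 ^ 2 := by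
    rw [(h i).1.cur 1 le_rfl (by omega)]
    simp only [cu, map_add, map_mul, map_pow, aeval_X, aeval_C]
    rfl
  generalize cu (C a) (C b) (C c) X = F at hF
  have hA (i : J) : aeval (x i 1) (C a) = (a : Ω) := aeval_C _ _
  have hB (i : J) : aeval (x i 1) (C b) = (b : Ω) := aeval_C _ _
  induction j, hj using Nat.le_induction with
  | base =>
    refine ⟨2 * F * ((3 * X ^ 2 + 2 * C a * X + C b) ^ 2 - 4 * (C a + 2 * X) * F), 2 ^ 3 * F ^ 2,
      -((3 * X ^ 2 + 2 * C a * X + C b) *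
        ((3 * X ^ 2 + 2 * C a * X + C b) ^ 2 - 4 * (C a + 3 * X) * F) + 2 ^ 3 * F ^ 2), fun i => ?_⟩
    simp only [map_add, map_mul, map_pow, map_sub, map_neg, aeval_X, hA, hB, hF, map_ofNat, h2,
      (h i).2.uy, one_pow, one_mul, true_and]
    constructor
    · linear_combination 2 * y i 1 ^ 2 * (h i).1.dx
    · linear_combination 4 * y i 1 ^ 3 * (h i).1.dy -
        y i 1 * (3 * x i 1 ^ 2 + 2 * a * x i 1 + b) * (h i).1.dx
  | succ j hj ih =>
    obtain ⟨N, D, M, H⟩ := ih (by omega)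
    refine ⟨(N - X * D) * (F * (M - D) ^ 2 * D - (C a + X) * D * (N - X * D) ^ 2 -
      N * (N - X * D) ^ 2), D * (N - X * D) ^ 3, -((M - D) * (F * (M - D) ^ 2 * D -
        (C a + 2 * X) * D * (N - X * D) ^ 2 - N * (N - X * D) ^ 2) + D * (N - X * D) ^ 3),
      fun i => ?_⟩
    obtain ⟨k1, k2, k3⟩ := H i
    simp only [map_add (aeval _), map_mul, map_pow, map_sub (aeval _), map_neg (aeval _), aeval_X,
      hA, hF, map_ofNat, ← k2]
    refine ⟨?_, EChain_add k3 ((h i).1.ax j hj hjp) ((h i).1.ay j hj hjp)⟩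
    rw [← sub_mul, map_mul, k1, (h i).2.ux j hj hjp]
    simp only [one_mul, one_pow]

theorem chain_poly (hp : p ≠ 2) (h1 : v p < 1) (ha : a ∈ E ∧ a ∈ W ∧ v a ≤ 1)
    (hb : b ∈ E ∧ b ∈ W ∧ v b ≤ 1) (hc : c ∈ E ∧ c ∈ W ∧ v c ≤ 1) {J : Type} (X Y : J → ℕ → Ω)
    (h : ∀ i, Chn p a b c (X i) (Y i) ∧ ChU v p (X i) (Y i)) :
    ∃ N D M : Polynomial Ω, Cw1 v W E N ∧ Cw1 v W E D ∧ Cw1 v W E M ∧ ∀ i,
      v (D.eval (X i 1)) = 1 ∧ X i p * D.eval (X i 1) = N.eval (X i 1) ∧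
        Y i p * D.eval (X i 1) = Y i 1 * M.eval (X i 1) := by
  have hq : p.Prime := Fact.out
  have h2 : v 2 = 1 := by
    exact_mod_cast v_nat h1 (n := 2) fun e => hp ((Nat.prime_dvd_prime_iff_eq hq Nat.prime_two).1 e)
  let R : Subring Ω := E.toSubring ⊓ (W.toSubring ⊓ v.integer)
  obtain ⟨N, D, M, H⟩ := EChain_poly h2 R ⟨a, ha⟩ ⟨b, hb⟩ ⟨c, hc⟩ X Y h p hq.two_le le_rfl
  have k (P : Polynomial R) : Cw1 v W E (P.map (algebraMap R Ω)) := fun i => by
    rw [Polynomial.coeff_map]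
    exact (P.coeff i).2
  exact ⟨_, _, _, k N, k D, k M, by simpa only [Polynomial.eval_map_algebraMap] using H⟩

theorem EChain_step {x y u l dX dY dy dl j : Ω} (hu : u ≠ 0) (c1 : y ^ 2 = cu a b c x)
    (c2 : (y + l * u) ^ 2 = cu a b c (x + u)) (h1 : y * dX = j * (y + l * u))
    (h2 : 2 * y * dY = j * (3 * (x + u) ^ 2 + 2 * a * (x + u) + b))
    (h3 : 2 * y * dy = 3 * x ^ 2 + 2 * a * x + b) (h4 : l * (dX - 1) + u * dl = dY - dy) :
    y * (2 * l * dl - dX - 1) = (j + 1) * -(l * (l ^ 2 - a - (x + u) - x - x) + y) := by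
  have key : 3 * x ^ 2 + 3 * x * u + u ^ 2 + a * (2 * x + u) + b = 2 * y * l + l ^ 2 * u := by
    refine mul_left_cancel₀ hu ?_
    rw [cu] at c1 c2
    linear_combination c1 - c2
  refine mul_left_cancel₀ hu ?_
  linear_combination 2 * l * y * h4 + l * h2 - l * h3 - (2 * l ^ 2 + u) * h1 + (j * l - l) * key

theorem EChain_cu [CharZero Ω] (δ : Derivation ℚ Ω Ω) (ha : δ a = 0) (hb : δ b = 0) (hc : δ c = 0)
    {x y : Ω} (h : y ^ 2 = cu a b c x) : 2 * y * δ y = (3 * x ^ 2 + 2 * a * x + b) * δ x := by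
  have := congrArg δ h
  simp only [cu, map_add, Derivation.leibniz, Derivation.leibniz_pow, ha, hb, hc, smul_eq_mul,
    nsmul_eq_mul] at this
  push_cast at this
  linear_combination this

omit [Fact p.Prime] in
theorem EChain_der [CharZero Ω] (δ : Derivation ℚ Ω Ω) (ha : δ a = 0) (hb : δ b = 0)
    (hc : δ c = 0) {X Y : ℕ → Ω} (h : Chn p a b c X Y) (hu : ChU v p X Y) (h1 : δ (X 1) = 1)
    (j : ℕ) (hj : 2 ≤ j) (hjp : j ≤ p) : Y 1 * δ (X j) = j * Y j := by
  have c1 := h.cur 1 le_rfl (by omega)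
  have hy := hu.ne 1 le_rfl (by omega)
  have h3 := EChain_cu δ ha hb hc c1
  rw [h1, mul_one] at h3
  have d2 : δ 2 = 0 := by exact_mod_cast δ.map_natCast 2
  have d3 : δ 3 = 0 := by exact_mod_cast δ.map_natCast 3
  induction j, hj using Nat.le_induction with
  | base =>
    have h0 : 2 * Y 1 ≠ 0 := mul_ne_zero two_ne_zero hy
    obtain ⟨l, hl⟩ : ∃ l, 3 * X 1 ^ 2 + 2 * a * X 1 + b = l * (2 * Y 1) :=
      ⟨_, (div_mul_cancel₀ _ h0).symm⟩
    have e1 : X 2 = l ^ 2 - a - 2 * X 1 := mul_right_cancel₀ (pow_ne_zero 2 h0) (by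
      rw [h.dx, hl]; ring)
    have e2 : Y 2 = -(l * (X 2 - X 1) + Y 1) := mul_right_cancel₀ h0 (by rw [h.dy, hl]; ring)
    have e3 : δ (Y 1) = l := mul_left_cancel₀ h0 (by rw [h3, hl, mul_comm])
    have e4 := congrArg δ hl
    rw [e2, e1]
    simp only [map_add, map_sub, Derivation.leibniz, Derivation.leibniz_pow, ha, hb, h1, e3, d2,
      d3, smul_eq_mul, nsmul_eq_mul] at e4 ⊢
    push_cast at e4 ⊢
    linear_combination -l * e4
  | succ j hj ih =>
    have i1 := ih (by omega)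
    have c2 := h.cur j (by omega) (by omega)
    have i2 : 2 * Y 1 * δ (Y j) = j * (3 * X j ^ 2 + 2 * a * X j + b) :=
      mul_left_cancel₀ (hu.ne j (by omega) (by omega)) (by
        linear_combination Y 1 * EChain_cu δ ha hb hc c2 + (3 * X j ^ 2 + 2 * a * X j + b) * i1)
    have h0 : X j - X 1 ≠ 0 := fun e => by simpa [e] using hu.ux j hj hjp
    obtain ⟨l, hl⟩ : ∃ l, Y j - Y 1 = l * (X j - X 1) := ⟨_, (div_mul_cancel₀ _ h0).symm⟩
    have e1 : X (j + 1) = l ^ 2 - a - X j - X 1 := mul_right_cancel₀ (pow_ne_zero 2 h0) (by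
      rw [h.ax j hj hjp, hl]; ring)
    have e2 : Y (j + 1) = -(l * (X (j + 1) - X 1) + Y 1) := mul_right_cancel₀ h0 (by
      rw [h.ay j hj hjp, hl]; ring)
    have e4 := congrArg δ hl
    have s1 : X 1 + (X j - X 1) = X j := add_sub_cancel _ _
    have s2 : Y 1 + l * (X j - X 1) = Y j := by rw [← hl, add_sub_cancel]
    simp only [map_sub, Derivation.leibniz, h1, smul_eq_mul] at e4
    have := EChain_step (j := (j : Ω)) h0 c1 (by rwa [s1, s2]) (by rwa [s2]) (by rwa [s1]) h3 e4.symm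
    rw [e2, e1]
    simp only [map_sub, Derivation.leibniz_pow, ha, h1, smul_eq_mul, nsmul_eq_mul]
    push_cast
    linear_combination this

theorem chain_der [CharZero Ω] (ha : a ∈ E) (hb : b ∈ E) (hc : c ∈ E) {X Y : ℕ → Ω}
    (h : Chn p a b c X Y) (hu : ChU v p X Y) (ht : Transcendental E (X 1))
    {N D M : Polynomial Ω} (hN : ∀ i, N.coeff i ∈ E) (hD : ∀ i, D.coeff i ∈ E)
    (h1 : X p * D.eval (X 1) = N.eval (X 1)) (h2 : Y p * D.eval (X 1) = Y 1 * M.eval (X 1)) :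
    (N.derivative * D - N * D.derivative).eval (X 1) = p * (M * D).eval (X 1) := by
  have hq : p.Prime := Fact.out
  obtain ⟨k, hk, hk'⟩ := exists_mid ht
  obtain ⟨δ, h0, hx⟩ := exists_der hk hk'
  have hE (e : E) : δ (algebraMap E Ω e) = 0 := h0 (algebraMap E k e)
  have key := EChain_der δ (hE ⟨a, ha⟩) (hE ⟨b, hb⟩) (hE ⟨c, hc⟩) h hu hx p hq.two_le le_rfl
  have hP {P : Polynomial Ω} (hP : ∀ i, P.coeff i ∈ E) :
      δ (P.eval (X 1)) = P.derivative.eval (X 1) := by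
    obtain ⟨Q, rfl⟩ := EChain_lift E.toSubring hP
    have := der_aeval (M := E) δ δ.map_add δ.leibniz hE (X 1) Q
    rw [hx, mul_one, ← Polynomial.eval_map_algebraMap, ← Polynomial.eval_map_algebraMap,
      ← Polynomial.derivative_map] at this
    exact this
  have e := congrArg δ h1
  rw [δ.leibniz, hP hN, hP hD, smul_eq_mul, smul_eq_mul] at e
  refine mul_left_cancel₀ (hu.ne 1 le_rfl hq.one_le) ?_
  simp only [Polynomial.eval_sub, Polynomial.eval_mul, ← e, ← h1]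
  linear_combination D.eval (X 1) ^ 2 * key + p * D.eval (X 1) * h2

theorem EChain_gau (h1 : v p < 1) {x x' : Fin m → Ω} (hx : ∀ d, v (x d) ≤ 1)
    (hx' : ∀ d, v (x' d) ≤ 1) {N D : Polynomial Ω} (cN : Cw1 v W E N) (cD : Cw1 v W E D)
    (den : ∀ d, v (D.eval (x' d)) = 1) (e : ∀ d, x d * D.eval (x' d) = N.eval (x' d))
    (hG : Gau v E x) : Gau v E x' := by
  obtain ⟨κ, _, _, res, hres⟩ := exists_resF h1
  obtain ⟨k, hk⟩ := hres E
  obtain ⟨N, rfl⟩ := EChain_lift v.integer fun i => (cN i).2.2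
  obtain ⟨D, rfl⟩ := EChain_lift v.integer fun i => (cD i).2.2
  lift x to Fin m → v.integer using hx
  lift x' to Fin m → v.integer using hx'
  have ev (P : Polynomial v.integer) (z : v.integer) :
      (P.map v.integer.subtype).eval (z : Ω) = (P.eval z : v.integer) :=
    Polynomial.eval_map_apply v.integer.subtype z
  have co {P : Polynomial v.integer} (hP : Cw1 v W E (P.map v.integer.subtype)) (d : Fin m) :
      res (P.eval (x' d)) ∈ FX k fun a => res (x' a) := by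
    rw [← Polynomial.eval_map_apply]
    refine uni_FX (fun a => res (x' a)) d fun i => (hk.mem _).2 ⟨P.coeff i, ?_, ?_⟩
    · have := (hP i).1
      rwa [Polynomial.coeff_map] at this
    · rw [Polynomial.coeff_map]
  refine gau_of_idp hk ((Gau.idp hk hG).exch fun d => ?_)
  have h0 : res (D.eval (x' d)) ≠ 0 := fun z => ((hk.zero _).1 z).ne (by rw [← ev, den])
  have e' : x d * D.eval (x' d) = N.eval (x' d) := Subtype.ext (by
    rw [Subring.coe_mul, ← ev, ← ev, e])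
  rw [eq_div_of_mul_eq h0 ((map_mul res _ _).symm.trans (congrArg res e'))]
  exact div_mem (co cN d) (co cD d)

theorem ellW_of [CharZero Ω] (hp : p ≠ 2) (h1 : v p < 1) (ha : a ∈ E ∧ a ∈ W ∧ v a ≤ 1)
    (hb : b ∈ E ∧ b ∈ W ∧ v b ≤ 1) (hc : c ∈ E ∧ c ∈ W ∧ v c ≤ 1) (x y : ℕ → Fin m → Ω)
    (X Y : ℕ → Fin m → ℕ → Ω) (hG : Gau v E (x 0))
    (h : ∀ n d, x n d ∈ W ∧ v (x n d) ≤ 1 ∧ v (y n d) = 1 ∧ Chn p a b c (X n d) (Y n d) ∧
      ChU v p (X n d) (Y n d) ∧ X n d 1 = x (n + 1) d ∧ Y n d 1 = y (n + 1) d ∧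
      X n d p = x n d ∧ Y n d p = y n d) :
    ∃ N D M : Polynomial Ω, EllW v p W E a b c x y N D M := by
  have hq : p.Prime := Fact.out
  choose k1 k2 k3 k4 k5 k6 k7 k8 k9 using h
  obtain ⟨N, D, M, cN, cD, cM, H⟩ := chain_poly hp h1 ha hb hc (J := ℕ × Fin m)
    (fun i => X i.1 i.2) (fun i => Y i.1 i.2) fun i => ⟨k4 _ _, k5 _ _⟩
  have H' (n : ℕ) (d : Fin m) := H (n, d)
  simp only [k6, k7, k8, k9] at H'
  have gau (n : ℕ) : Gau v E (x n) := by
    induction n with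
    | zero => exact hG
    | succ n ih =>
      exact EChain_gau h1 (k2 n) (k2 (n + 1)) cN cD (fun d => (H' n d).1) (fun d => (H' n d).2.1) ih
  refine ⟨N, D, M, cN, cD, cM, ⟨ha.1, ha.2.2⟩, ⟨hb.1, hb.2.2⟩, ⟨hc.1, hc.2.2⟩, k1, k2, gau,
    fun n d => ?_, k3, fun n d => (H' n d).1, fun n d => (H' n d).2.1, fun n d => (H' n d).2.2,
    fun n d => ?_⟩
  · rw [← k8, ← k9]
    exact (k4 n d).cur p hq.one_le le_rfl
  · rw [← k6]
    refine chain_der ha.1 hb.1 hc.1 (k4 n d) (k5 n d) ?_ (fun i => (cN i).1) (fun i => (cD i).1)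
      (H (n, d)).2.1 (H (n, d)).2.2
    rw [k6]
    exact (idp_iff.1 (gau (n + 1)).idp0).transcendental d

end Pool.Agent.Work.MP_dd0d16_nt.T
end
end

-- merged part: Pool.Agent.Work.MP_dd0d16_nt.D.TaR
section
-- merged part: Pool.Agent.Work.MP_dd0d16_nt.D.Wf
section
/-!
First order expansions.

PLAN. `exists_eta`: `η b = (s (x b) - x b ^ p) / p` (`Frb.sub`). `dSub_eval`: `aeval`-composition
(`MvPolynomial.comp_aeval_apply`, `coe_aeval_eq_eval`, or induction on `Φ`). `dSub_co`: induction or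
`ev_mem`-type closure (polynomials with all coefficients in a subring form the range of
`map R.subtype`: `AxCore_lift`, `map_aeval`, `dSub_map`).
`exists_RS`: `ev_taylor` for `Φ b` at the point `o.elim (x b ^ p) x` with `t = p` and the direction
`o.elim (η b) 0`; the value of `dSub p b (Φ b)` is at most `v p`, so by `Gau` all its coefficients are;
`R b = C p⁻¹ * dSub p b (Φ b)`; `v (S b (x)) = 1` by `ev_sub` and `DifW.unit`.
`exists_A`: `G = expand p (map s P) - P ^ p` has coefficients in `W` and in `E`; they have value `< 1`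
(reduce with `exists_resF`, `int_lift`: `res (s c) = res c ^ p`, `MvPolynomial.map_frobenius_expand` or
`expand_zmod`-type lemma; or evaluate at `x` and use `Gau`: `G (x) = (map s P) (x ^ p) - P (x) ^ p` differs from
`s (P (x)) - P (x) ^ p` by an element of value at most `v p`, `ev_sub`, `map_ev`), hence at most `v p`;
`A = C p⁻¹ * G`. Apply `pderiv a` (chain rule for `expand`:
`pderiv a (expand p Q) = p * X a ^ (p - 1) * expand p (pderiv a Q)`, induction on `Q`), evaluate,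
cancel `p`; `(pderiv a (map s P)) (x ^ p)` is congruent to `s (∂ a P (x))`, so to `(∂ a P (x)) ^ p`.
The second part is `ev_taylor` for `map s P` at the point `x ^ p` with `t = p`, direction `η`.
-/

set_option autoImplicit false
set_option linter.unusedSectionVars false

namespace Pool.Agent.Work.MP_dd0d16_nt.T

open MvPolynomial

section

variable {A B : Type} [CommRing A] [CommRing B] {m : ℕ}

theorem dSub_map (f : A →+* B) (p : ℕ) (b : Fin m) (Φ : MvPolynomial (Option (Fin m)) A) :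
    map f (dSub p b Φ) = dSub p b (map f Φ) := by
  unfold dSub
  induction Φ using MvPolynomial.induction_on with
  | C a => simp
  | add P Q hP hQ => simp only [map_add, hP, hQ]
  | mul_X P o hP =>
    simp only [map_mul, hP, map_X, aeval_X]
    cases o <;> simp

theorem dEq_map (f : A →+* B) (p : ℕ) (Φ : Fin m → MvPolynomial (Option (Fin m)) A)
    (H : Fin m → MvPolynomial (Fin m) A) (D : MvPolynomial (Fin m) A) (a : Fin m) :
    map f (dEq p Φ H D a) =
      dEq p (fun b => map f (Φ b)) (fun b => map f (H b)) (map f D) a := by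
  simp only [dEq, map_sub, map_mul, map_pow, map_natCast, map_prod, map_sum, map_X, ← pderiv_map,
    dSub_map]

theorem dSub_eval (p : ℕ) (b : Fin m) (Φ : MvPolynomial (Option (Fin m)) A) (x : Fin m → A) :
    eval x (dSub p b Φ) = eval (fun o : Option (Fin m) => o.elim (x b ^ p) x) Φ := by
  unfold dSub
  induction Φ using MvPolynomial.induction_on with
  | C a => simp
  | add P Q hP hQ => simp only [map_add, hP, hQ]
  | mul_X P o hP =>
    simp only [map_mul, hP, eval_X, aeval_X]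
    cases o <;> simp

theorem DWf_co (R : Subring A) {σ : Type} (P : MvPolynomial σ R) (μ : σ →₀ ℕ) :
    (map R.subtype P).coeff μ ∈ R := by
  rw [coeff_map]
  exact (P.coeff μ).2

theorem dSub_co (R : Subring A) (p : ℕ) (b : Fin m) {Φ : MvPolynomial (Option (Fin m)) A}
    (h : ∀ μ, Φ.coeff μ ∈ R) (μ : Fin m →₀ ℕ) : (dSub p b Φ).coeff μ ∈ R := by
  obtain ⟨Φ, rfl⟩ := AxCore_lift R Φ h
  rw [← dSub_map]
  exact DWf_co R _ μ

theorem dEq_co (R : Subring A) (p : ℕ) {Φ : Fin m → MvPolynomial (Option (Fin m)) A}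
    {H : Fin m → MvPolynomial (Fin m) A} {D : MvPolynomial (Fin m) A}
    (h1 : ∀ b μ, (Φ b).coeff μ ∈ R) (h2 : ∀ b μ, (H b).coeff μ ∈ R) (h3 : ∀ μ, D.coeff μ ∈ R)
    (a : Fin m) (μ : Fin m →₀ ℕ) : (dEq p Φ H D a).coeff μ ∈ R := by
  choose Φ' e1 using fun b => AxCore_lift R (Φ b) (h1 b)
  choose H' e2 using fun b => AxCore_lift R (H b) (h2 b)
  obtain ⟨D, rfl⟩ := AxCore_lift R D h3
  obtain rfl := funext e1
  obtain rfl := funext e2
  rw [← dEq_map]
  exact DWf_co R _ μ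

theorem DWf_pderiv (p : ℕ) (a : Fin m) (Q : MvPolynomial (Fin m) A) :
    pderiv a (expand p Q) =
      (p : MvPolynomial (Fin m) A) * (X a ^ (p - 1) * expand p (pderiv a Q)) := by
  induction Q using MvPolynomial.induction_on with
  | C c => simp
  | add P Q hP hQ => simp only [map_add, hP, hQ, mul_add]
  | mul_X P b hP =>
    simp only [map_mul, map_add, expand_X, Derivation.leibniz, hP, smul_eq_mul, pderiv_pow]
    by_cases h : b = a
    · subst h
      simp only [pderiv_X_self, map_one]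
      ring
    · simp only [pderiv_X_of_ne h, map_zero]
      ring

theorem DWf_expand (p : ℕ) (x : Fin m → A) (Q : MvPolynomial (Fin m) A) :
    eval x (expand p Q) = eval (fun a => x a ^ p) Q := by
  induction Q using MvPolynomial.induction_on with
  | C c => simp
  | add P Q hP hQ => simp only [map_add, hP, hQ]
  | mul_X P b hP => simp only [map_mul, expand_X, hP, map_pow, eval_X]

end

variable {Ω Γ : Type} [Field Ω] [CharZero Ω] [LinearOrderedCommGroupWithZero Γ]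
  {v : Valuation Ω Γ} {L : Ω → Ω} {E W : Subfield Ω} {p m : ℕ} [Fact p.Prime] {s : Ω ≃+* Ω}
  {x : Fin m → Ω} {Φ : Fin m → MvPolynomial (Option (Fin m)) Ω}

omit [CharZero Ω] [Fact p.Prime] in
theorem DWf_div (h0 : v p ≠ 0) {z : Ω} (h : v z ≤ v p) : v ((p : Ω)⁻¹ * z) ≤ 1 := by
  rw [map_mul, map_inv₀]
  exact (inv_mul_le_one₀ (zero_lt_iff.2 h0)).2 h

omit [CharZero Ω] [Fact p.Prime] in
theorem DWf_sq (h0 : v p ≠ 0) (h1 : v p < 1) {z : Ω} (h : v (p * z) ≤ v p ^ 2) : v z < 1 := by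
  rw [map_mul, sq] at h
  exact (le_of_mul_le_mul_left h (zero_lt_iff.2 h0)).trans_lt h1

omit [CharZero Ω] [Fact p.Prime] in
theorem DWf_pol (h0 : v p ≠ 0) (hG : Gau v E x) {G : MvPolynomial (Fin m) Ω}
    (h : ∀ μ, G.coeff μ ∈ E) (h' : v (eval x G) ≤ v p) : ∃ R : MvPolynomial (Fin m) Ω,
      (∀ μ, R.coeff μ ∈ E ∧ v (R.coeff μ) ≤ 1) ∧ (p : MvPolynomial (Fin m) Ω) * R = G := by
  refine ⟨C (p : Ω)⁻¹ * G, fun μ => ?_, ?_⟩
  · rw [coeff_C_mul]
    exact ⟨mul_mem (inv_mem (natCast_mem E p)) (h μ), DWf_div h0 ((hG G h μ).trans h')⟩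
  · rw [← map_natCast (C : Ω →+* MvPolynomial (Fin m) Ω), ← mul_assoc, ← map_mul,
      mul_inv_cancel₀ (v.ne_zero_iff.1 h0), map_one, one_mul]

theorem exists_RS (h0 : v p ≠ 0) (h1 : v p < 1) (hs : Frb p v L s W) (h : DifW v s W E x Φ)
    (hG : Gau v E x) : ∃ (η : Fin m → Ω) (R : Fin m → MvPolynomial (Fin m) Ω), ∀ b,
      v (η b) ≤ 1 ∧ s (x b) = x b ^ p + p * η b ∧
      (∀ μ, (R b).coeff μ ∈ E ∧ v ((R b).coeff μ) ≤ 1) ∧
      (p : MvPolynomial (Fin m) Ω) * R b = dSub p b (Φ b) ∧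
      v (eval x (dSub p b (pderiv none (Φ b)))) = 1 ∧
      v (η b * eval x (dSub p b (pderiv none (Φ b))) + eval x (R b)) < 1 := by
  have p0 : (p : Ω) ≠ 0 := v.ne_zero_iff.1 h0
  have i0 (b : Fin m) (o : Option (Fin m)) : v (o.elim (x b ^ p) x) ≤ 1 := by
    cases o with
    | none => exact (map_pow v _ _).trans_le (pow_le_one' (h.int b) p)
    | some c => exact h.int c
  have i1 (b : Fin m) (o : Option (Fin m)) : v (o.elim (s (x b)) x) ≤ 1 := by
    cases o with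
    | none => exact (hs.val _).trans_le (h.int b)
    | some c => exact h.int c
  have i2 (b : Fin m) (o : Option (Fin m)) :
      v (o.elim (x b ^ p) x - o.elim (s (x b)) x) ≤ v p := by
    cases o with
    | none => exact (v.map_sub_swap _ _).trans_le (hs.sub (h.mem b) (h.int b))
    | some c => simp
  have c1 (b : Fin m) (μ) := (h.co b μ).2.2
  choose R r1 r2 using fun b => DWf_pol h0 hG
    (dSub_co E.toSubring p b fun μ => (h.co b μ).1) (by
      have := ev_sub (i1 b) (i0 b) (i2 b) (c1 b)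
      rwa [h.zero, sub_zero, ← dSub_eval] at this)
  refine ⟨fun b => (p : Ω)⁻¹ * (s (x b) - x b ^ p), R, fun b => ?_⟩
  have e1 := DWf_div h0 (hs.sub (h.mem b) (h.int b))
  have e2 : s (x b) = x b ^ p + p * ((p : Ω)⁻¹ * (s (x b) - x b ^ p)) := by
    rw [mul_inv_cancel_left₀ p0, add_sub_cancel]
  beta_reduce
  generalize (p : Ω)⁻¹ * (s (x b) - x b ^ p) = η at e1 e2 ⊢
  refine ⟨e1, e2, r1 b, r2 b, ?_, DWf_sq h0 h1 ?_⟩
  · rw [dSub_eval, ← h.unit b]
    refine v.map_eq_of_sub_lt ?_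
    rw [h.unit b]
    exact (ev_sub (i1 b) (i0 b) (i2 b) (co_pderiv (c1 b) none)).trans_lt h1
  · have t := ev_taylor (y := fun o : Option (Fin m) => o.elim η 0) (i0 b)
      (fun o => by cases o; exacts [e1, by simp]) h1.le (c1 b)
    have e3 : (fun o : Option (Fin m) => o.elim (x b ^ p) x + p * o.elim η 0) =
        fun o : Option (Fin m) => o.elim (s (x b)) x := by
      funext o
      cases o with
      | none => exact e2.symm
      | some c => simp
    rw [e3, h.zero, ← dSub_eval, ← r2, Fintype.sum_option, ← dSub_eval, ← v.map_neg] at t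
    refine Eq.trans_le (congrArg v ?_) t
    simp only [Option.elim_none, Option.elim_some, Pi.zero_apply, mul_zero, Finset.sum_const_zero,
      map_mul, map_natCast]
    ring

theorem exists_A (h0 : v p ≠ 0) (h1 : v p < 1) (hs : Frb p v L s W) (hE : Unf v s W E)
    (hx : ∀ a, x a ∈ W ∧ v (x a) ≤ 1) (hG : Gau v E x) {η : Fin m → Ω}
    (hη : ∀ b, v (η b) ≤ 1 ∧ s (x b) = x b ^ p + p * η b) {P : MvPolynomial (Fin m) Ω}
    (hP : Cw v W E P) (hP1 : v (eval x P) = 1) : ∃ (A : MvPolynomial (Fin m) Ω) (w : Ω),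
      (∀ μ, A.coeff μ ∈ E ∧ v (A.coeff μ) ≤ 1) ∧ v w ≤ 1 ∧
      s (eval x P) = eval x P ^ p * (1 + p * w) ∧
      (∀ a, v (eval x (pderiv a A) - (x a ^ (p - 1) * eval x (pderiv a P) ^ p -
        eval x P ^ (p - 1) * eval x (pderiv a P))) < 1) ∧
      v (w * eval x P ^ p - (eval x A + ∑ b, eval x (pderiv b P) ^ p * η b)) < 1 := by
  have p0 : (p : Ω) ≠ 0 := v.ne_zero_iff.1 h0
  have i0 (b : Fin m) : v (x b ^ p) ≤ 1 := (map_pow v _ _).trans_le (pow_le_one' (hx b).2 p)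
  have i1 (b : Fin m) : v (s (x b)) ≤ 1 := (hs.val _).trans_le (hx b).2
  have i2 (b : Fin m) : v (x b ^ p - s (x b)) ≤ v p :=
    (v.map_sub_swap _ _).trans_le (hs.sub (hx b).1 (hx b).2)
  have k1 {Q : MvPolynomial (Fin m) Ω} (hQ : ∀ μ, v (Q.coeff μ) ≤ 1) :
      v (eval (fun a => x a ^ p) (map (s : Ω →+* Ω) Q) - s (eval x Q)) ≤ v p := by
    refine Eq.trans_le (congrArg (fun z => v (_ - z)) (map_ev (s : Ω →+* Ω) x Q))
      (ev_sub i1 i0 i2 fun μ => ?_)
    rw [coeff_map]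
    exact (hs.val _).trans_le (hQ μ)
  have c1 (μ) := (hP μ).2.2
  have k2 (a : Fin m) : v (eval (fun a => x a ^ p) (pderiv a (map (s : Ω →+* Ω) P)) -
      eval x (pderiv a P) ^ p) < 1 := by
    rw [pderiv_map, ← sub_add_sub_cancel _ (s (eval x (pderiv a P)))]
    exact v.map_add_lt ((k1 (co_pderiv c1 a)).trans_lt h1)
      (hs.frob _ (ev_le (fun a => (hx a).2) (co_pderiv c1 a)))
  have k3 : v (s (eval x P) - eval x P ^ p) ≤ v p :=
    hs.sub (ev_mem W.toSubring (fun a => (hx a).1) fun μ => (hP μ).2.1) hP1.le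
  obtain ⟨A, a1, a2⟩ := DWf_pol h0 hG (G := expand p (map (s : Ω →+* Ω) P) - P ^ p) (by
    obtain ⟨Q, e⟩ := AxCore_lift E.toSubring _ fun μ => (hP.fwd hs hE μ).1
    obtain ⟨P, rfl⟩ := AxCore_lift E.toSubring _ fun μ => (hP μ).1
    rw [← e, ← map_expand, ← map_pow, ← map_sub]
    exact DWf_co E.toSubring _) (by
    rw [map_sub, map_pow, DWf_expand, ← sub_add_sub_cancel _ (s (eval x P))]
    exact v.map_add_le (k1 c1) k3)
  have q0 : eval x P ^ p ≠ 0 := pow_ne_zero _ (v.ne_zero_iff.1 (hP1 ▸ one_ne_zero))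
  have e1 : v ((p : Ω)⁻¹ * (s (eval x P) - eval x P ^ p) / eval x P ^ p) ≤ 1 := by
    rw [map_div₀, map_pow, hP1, one_pow, div_one]
    exact DWf_div h0 k3
  have e2 : s (eval x P) = eval x P ^ p *
      (1 + p * ((p : Ω)⁻¹ * (s (eval x P) - eval x P ^ p) / eval x P ^ p)) := by
    field_simp
    ring
  generalize (p : Ω)⁻¹ * (s (eval x P) - eval x P ^ p) / eval x P ^ p = w at e1 e2
  refine ⟨A, w, a1, e1, e2, fun a => ?_, ?_⟩
  · have d := congrArg (fun Q => eval x (pderiv a Q)) a2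
    simp only [Derivation.leibniz, Derivation.map_natCast, smul_eq_mul, mul_zero, add_zero,
      map_sub, DWf_pderiv p, pderiv_pow, map_mul, map_natCast,
      map_pow, eval_X, DWf_expand, mul_assoc, ← mul_sub] at d
    rw [mul_left_cancel₀ p0 d, sub_sub_sub_cancel_right, ← mul_sub, map_mul, map_pow]
    exact (mul_le_of_le_one_left' (pow_le_one' (hx a).2 _)).trans_lt (k2 a)
  · have t := ev_taylor i0 (fun b => (hη b).1) h1.le fun μ => (hP.fwd hs hE μ).2.2
    have d := congrArg (eval x) a2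
    rw [map_sub, map_pow, DWf_expand, map_mul, map_natCast] at d
    have e3 : eval (fun a => x a ^ p + p * η a) (map (s : Ω →+* Ω) P) = s (eval x P) := by
      simp only [← (hη _).2]
      exact (map_ev (s : Ω →+* Ω) x P).symm
    rw [e3, e2, ← eq_sub_iff_add_eq.1 d] at t
    have t1 : v (w * eval x P ^ p - (eval x A +
        ∑ b, eval (fun a => x a ^ p) (pderiv b (map (s : Ω →+* Ω) P)) * η b)) < 1 :=
      DWf_sq h0 h1 (Eq.trans_le (congrArg v (by ring)) t)
    have t2 : v (∑ b, (eval (fun a => x a ^ p) (pderiv b (map (s : Ω →+* Ω) P)) -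
        eval x (pderiv b P) ^ p) * η b) < 1 := by
      refine v.map_sum_lt one_ne_zero fun b _ => ?_
      rw [map_mul]
      exact (mul_le_of_le_one_right' (hη b).1).trans_lt (k2 b)
    refine Eq.trans_lt (congrArg v ?_) (v.map_add_lt t1 t2)
    simp only [sub_mul, Finset.sum_sub_distrib]
    ring

end Pool.Agent.Work.MP_dd0d16_nt.T
end

-- merged part: Pool.Agent.Work.MP_dd0d16_nt.D.Nd
section
/-!
Use of the nondegeneracy hypothesis.

PLAN. Put `H a = ∑ i, c i * (pderiv a (P i) * ∏ j ∈ univ.erase i, P j)`, `D = ∏ j, P j`, so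
`H a (x) = h a * D (x)` and `v (D (x)) = 1` (`Finset.mul_prod_erase`). The coefficients of `H a`, `D` are
integral and lie in `E` (polynomials with coefficients in a subring are the range of `map R.subtype`,
`AxCore_lift`). Replace `dSub p b (Φ b)` by `p * R b` (`pderiv a (p * R) = p * pderiv a R`): the value of
`dEq p Φ H D a` at `x` is `p * D (x) ^ p * ∏ b, S b (x) ^ 2` times the element in `he`. Then `Gau`, `dEq_co`,
`Gau.norm` (for `D`), `NDv`, `ev_lt`.
-/

set_option autoImplicit false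

namespace Pool.Agent.Work.MP_dd0d16_nt.T

open MvPolynomial

variable {Ω Γ : Type} [Field Ω] [LinearOrderedCommGroupWithZero Γ] {v : Valuation Ω Γ}
  {E : Subfield Ω} {p m : ℕ} [Fact p.Prime] {x : Fin m → Ω}
  {Φ : Fin m → MvPolynomial (Option (Fin m)) Ω}

theorem DNd_co {A σ Q : Type} [CommRing A] [Fintype Q] [DecidableEq Q] (T : Subring A)
    (P : Q → MvPolynomial σ A) (hP : ∀ i μ, (P i).coeff μ ∈ T) (c : Q → ℕ) :
    (∀ a μ, (∑ i, c i * (pderiv a (P i) * ∏ j ∈ Finset.univ.erase i, P j)).coeff μ ∈ T) ∧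
      ∀ μ, (∏ j, P j).coeff μ ∈ T := by
  choose P' hP' using fun i => AxCore_lift T (P i) (hP i)
  obtain rfl : P = fun i => map T.subtype (P' i) := funext fun i => (hP' i).symm
  refine ⟨fun a μ => ?_, fun μ => ?_⟩
  · have h : (∑ i, c i * (pderiv a (map T.subtype (P' i)) *
        ∏ j ∈ Finset.univ.erase i, map T.subtype (P' j))) = map T.subtype
        (∑ i, (c i : MvPolynomial σ T) *
          (pderiv a (P' i) * ∏ j ∈ Finset.univ.erase i, P' j)) := by
      simp only [map_sum, map_mul, map_prod, map_natCast, pderiv_map]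
    rw [h, coeff_map]
    exact SetLike.coe_mem _
  · rw [← map_prod, coeff_map]
    exact SetLike.coe_mem _

theorem nd_use (h0 : v p ≠ 0) (hx : ∀ a, v (x a) ≤ 1) (hG : Gau v E x) (hN : NDv v p Φ)
    (hΦ : ∀ b μ, (Φ b).coeff μ ∈ E) {R S : Fin m → MvPolynomial (Fin m) Ω}
    (hR : ∀ b, (p : MvPolynomial (Fin m) Ω) * R b = dSub p b (Φ b))
    (hS : ∀ b, S b = dSub p b (pderiv none (Φ b)) ∧ v (eval x (S b)) = 1) {Q : Type} [Fintype Q]
    (P : Q → MvPolynomial (Fin m) Ω)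
    (hP : ∀ i, (∀ μ, (P i).coeff μ ∈ E ∧ v ((P i).coeff μ) ≤ 1) ∧ v (eval x (P i)) = 1)
    (c : Q → ℕ) (h : Fin m → Ω)
    (hh : ∀ a, h a = ∑ i, c i * (eval x (pderiv a (P i)) / eval x (P i)))
    (he : ∀ a, v (x a ^ (p - 1) * h a ^ p - h a - ∑ b, h b ^ p *
      ((eval x (pderiv a (R b)) * eval x (S b) - eval x (R b) * eval x (pderiv a (S b))) /
        eval x (S b) ^ 2)) < 1) (a : Fin m) : v (h a) < 1 := by
  classical
  obtain ⟨k1, k2⟩ := DNd_co (E.toSubring ⊓ v.integer) P (fun i μ => (hP i).1 μ) c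
  have hD : v (eval x (∏ j, P j)) = 1 := by
    rw [map_prod, map_prod]
    exact Finset.prod_eq_one fun i _ => (hP i).2
  have hH : ∀ a, eval x (∑ i, c i * (pderiv a (P i) * ∏ j ∈ Finset.univ.erase i, P j)) =
      h a * eval x (∏ j, P j) := fun a => by
    rw [hh, map_sum, Finset.sum_mul]
    refine Finset.sum_congr rfl fun i _ => ?_
    have h1 : eval x (P i) ≠ 0 := fun e => by simpa [e] using (hP i).2
    rw [← Finset.mul_prod_erase _ P (Finset.mem_univ i), map_mul, map_mul, map_mul, map_natCast]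
    field_simp
  obtain ⟨H, k1, hH⟩ : ∃ H : Fin m → MvPolynomial (Fin m) Ω,
      (∀ a μ, (H a).coeff μ ∈ E.toSubring ⊓ v.integer) ∧
        ∀ a, eval x (H a) = h a * eval x (∏ j, P j) := ⟨_, k1, hH⟩
  generalize (∏ j, P j) = D at k2 hD hH
  have hS1 : v (∏ b, eval x (S b) ^ 2) = 1 := by
    rw [map_prod]
    exact Finset.prod_eq_one fun b _ => by rw [map_pow, (hS b).2, one_pow]
  have h2 := hN H D (fun a μ => (k1 a μ).2) (fun μ => (k2 μ).2) ?_ (fun a μ => ?_) a
  · have h3 := ev_lt hx one_ne_zero h2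
    rwa [hH, map_mul, hD, mul_one] at h3
  · obtain ⟨ν, hν⟩ := hG.norm hx (fun μ => (k2 μ).1) fun e => by simp [e] at hD
    exact ⟨ν, hν.symm.trans hD⟩
  refine (hG _ (dEq_co E.toSubring p hΦ (fun a μ => (k1 a μ).1) (fun μ => (k2 μ).1) a) μ).trans_lt ?_
  have h3 := mul_lt_mul_of_pos_left (he a) (zero_lt_iff.2 h0)
  rw [mul_one, ← one_mul (v p * _), ← hS1, ← one_mul (v _ * _), ← one_pow p, ← hD, ← map_pow,
    ← map_mul, ← map_mul, ← map_mul] at h3
  refine Eq.trans_lt (congrArg v ?_) h3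
  have h4 : ∀ b, pderiv a ((p : MvPolynomial (Fin m) Ω) * R b) = p * pderiv a (R b) :=
    fun b => by rw [← nsmul_eq_mul, ← nsmul_eq_mul, map_nsmul]
  have h5 : eval x D ^ p = eval x D ^ (p - 1) * eval x D := by
    rw [← pow_succ, Nat.sub_add_cancel (Fact.out : p.Prime).pos]
  rw [mul_sub, mul_sub, mul_sub, Finset.mul_sum, Finset.mul_sum, Finset.mul_sum, dEq, map_sub,
    map_sum]
  simp only [← hR, h4, ← (hS _).1, map_sub, map_mul, map_pow, map_prod, map_natCast, eval_X, hH,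
    mul_pow]
  refine congrArg₂ _ ?_ (Finset.sum_congr rfl fun b _ => ?_)
  · rw [h5]
    ring
  · have h1 : eval x (S b) ≠ 0 := fun e => by simpa [e] using (hS b).2
    rw [← Finset.mul_prod_erase _ (fun b => eval x (S b) ^ 2) (Finset.mem_univ b)]
    field_simp

end Pool.Agent.Work.MP_dd0d16_nt.T
end

-- merged part: Pool.Agent.Work.MP_dd0d16_nt.D.TaR
section
/-!
The linear relation in the residue field.

PLAN. Take `κ, res, k` (`exists_resF`), `ε` (`log_res`), `η, R` (`exists_RS`), `A i, w i` (`exists_A`);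
lift everything to `v.integer` (`int_lift`, `coe_eval`, `res_eval`, `pderiv_map`, `ResF.eq`, `ResF.co`),
`t = res ∘ x`, apply `cp_main` (`Gau.idp`) with `ρ i = res (g i)` and `n0 + 1`. For `n ≥ n0`:
`res (s a) = res a ^ p`, so `res ((s.symm)^[n] a) ^ p ^ n = res a`; `res_mem`, `FX_pow` with the exponent
`n + 1` put `ρ i ^ p ^ (n + 1)` and `res z ^ p ^ (n + 1)` into `FX k (t ^ p)`;
`res ((s.symm)^[n] (T i) / p) ^ p ^ (n + 1) = res (s (T i) / p) = res (w i) + ε * res (w i) ^ p` because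
`s (T i) = p * T i + L (1 + p * w i)`, `v (T i) ≤ v p` (`Frb.log_le`), `Sm.lt`. With `c` from `cp_main`
apply `nd_use` (the element in `he` is integral, quotients by units: if `b * q = a` in `v.integer` and
`res b ≠ 0` then `res q = res a / res b`); contradiction with `hind`.
-/

set_option autoImplicit false

namespace Pool.Agent.Work.MP_dd0d16_nt.T

open MvPolynomial

variable {Ω Γ : Type} [Field Ω] [CharZero Ω] [LinearOrderedCommGroupWithZero Γ]
  {v : Valuation Ω Γ} {L : Ω → Ω} {E W : Subfield Ω} {p m : ℕ} [Fact p.Prime] {s : Ω ≃+* Ω}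
  {x : Fin m → Ω} {Φ : Fin m → MvPolynomial (Option (Fin m)) Ω}

section

variable {κ : Type} [Field κ] {res : v.integer →+* κ} {k : Subfield κ}

omit [CharZero Ω] [Fact p.Prime] in
theorem DTaR_fr (hk : ResF v E res k) (hs : Frb p v L s W) {a b : v.integer}
    (e : (a : Ω) = s b) : res a = res b ^ p := by
  rw [← map_pow]
  exact hk.eq (e ▸ hs.frob _ b.2)

omit [CharZero Ω] [Fact p.Prime] in
theorem DTaR_it (hk : ResF v E res k) (hs : Frb p v L s W) (n : ℕ) {a b : v.integer}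
    (e : (b : Ω) = s.symm^[n] a) : res b ^ p ^ n = res a := by
  induction n generalizing b with
  | zero => rw [pow_zero, pow_one, show b = a from Subtype.ext e]
  | succ n ih =>
    rw [Function.iterate_succ_apply', s.eq_symm_apply] at e
    rw [pow_succ', pow_mul, ← DTaR_fr hk hs (a := ⟨s b, (hs.val b).trans_le b.2⟩) rfl]
    exact ih e

omit [CharZero Ω] in
theorem DTaR_val (hs : Frb p v L s W) (n : ℕ) (a : Ω) : v (s.symm^[n] a) = v a := by
  induction n with
  | zero => rfl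
  | succ n ih => rw [Function.iterate_succ_apply', hs.val_symm, ih]

omit [CharZero Ω] [Fact p.Prime] in
theorem DTaR_div (n : ℕ) (a : Ω) : s.symm^[n] (a / p) = s.symm^[n] a / p := by
  induction n with
  | zero => rfl
  | succ n ih => rw [Function.iterate_succ_apply', Function.iterate_succ_apply', ih, map_div₀,
      map_natCast]

omit [CharZero Ω] in
theorem DTaR_inv (res : v.integer →+* κ) {b : v.integer} (hb : v (b : Ω) = 1) :
    ∃ u : v.integer, (u : Ω) = (b : Ω)⁻¹ ∧ res u = (res b)⁻¹ := by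
  refine ⟨⟨(b : Ω)⁻¹, show v _ ≤ 1 by rw [map_inv₀, hb, inv_one]⟩, rfl,
    eq_inv_of_mul_eq_one_left ?_⟩
  rw [← map_mul, ← map_one res]
  exact congrArg _ (Subtype.ext (inv_mul_cancel₀ fun e => by simp [e] at hb))

omit [CharZero Ω] [Fact p.Prime] in
theorem DTaR_pow (h : LF p v L E) {a : Ω} (ha : a ≠ 0) (n : ℕ) : L (a ^ n) = n * L a := by
  induction n with
  | zero => simpa using h.one
  | succ n ih => rw [pow_succ, h.mul _ _ (pow_ne_zero _ ha) ha, ih, Nat.cast_succ, add_one_mul]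

theorem DTaR_log (hk : ResF v E res k) (hW : LF p v L W) (hT : Tail p v L) (hs : Frb p v L s W)
    {ε : ℤ} (hε : ∀ y, Bd v p y → Sm v p (L (1 + p * y) / p - (y + ε * y ^ p))) {a : Ω}
    (ha : a ∈ W) (h1 : v a = 1) {w τ : v.integer} (e : s a = a ^ p * (1 + p * w))
    (hτ : (τ : Ω) = L a / p) : res τ ^ p = res w + ε * res w ^ p := by
  have hp : (p : Ω) ≠ 0 := (map_ne_zero v).1 hW.p0
  have h0 : a ≠ 0 := fun e => by simp [e] at h1
  have h2 : 1 + p * (w : Ω) ≠ 0 := right_ne_zero_of_mul (e ▸ (map_ne_zero s).2 h0)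
  rw [← DTaR_fr hk hs (a := ⟨s τ, (hs.val τ).trans_le τ.2⟩) rfl, ← map_pow, ← map_intCast res,
    ← map_mul, ← map_add]
  refine hk.eq ?_
  push_cast
  rw [hτ, map_div₀, map_natCast, ← hs.log a h0, e, hW.mul _ _ (pow_ne_zero _ h0) h2,
    DTaR_pow hW h0, add_div, mul_div_cancel_left₀ _ hp, add_sub_assoc]
  exact v.map_add_lt ((hs.log_le hW hT ha h1).trans_lt hW.p1)
    ((hε _ (Bd.of_le hW.p1 w.2)).lt hW.p1)

omit [CharZero Ω] in
theorem DTaR_pd (R : Subring Ω) {σ : Type} {P : MvPolynomial σ Ω} (h : ∀ μ, P.coeff μ ∈ R) (a : σ)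
    (μ : σ →₀ ℕ) : (pderiv a P).coeff μ ∈ R := by
  rw [coeff_pderiv]
  exact mul_mem (h _) (add_mem (natCast_mem _ _) (one_mem _))

omit [CharZero Ω] in
theorem DTaR_mem [CharP κ p] (hk : ResF v E res k) (hs : Frb p v L s W) (h1 : v p < 1)
    {x : Fin m → v.integer} {n : ℕ} (hG : Gau v E fun a => s.symm^[n] (x a)) {y : v.integer}
    (hy : (y : Ω) ∈ AR v p (FX E fun a => s.symm^[n] (x a))) :
    res y ^ p ^ (n + 1) ∈ FX k fun a => res (x a) ^ p := by
  let x' : Fin m → v.integer := fun a => ⟨s.symm^[n] (x a), (DTaR_val hs n _).trans_le (x a).2⟩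
  have h2 := FX_pow (p := p) (res_mem hk h1 (x := x') hG hy) (n + 1)
  have e : ∀ a, res (x' a) ^ p ^ (n + 1) = res (x a) ^ p := fun a => by
    rw [pow_succ, pow_mul, DTaR_it hk hs n (a := x a) rfl]
  simpa only [e] using h2

end

theorem taF_rel (h : LF p v L E) (hW : LF p v L W) (hT : Tail p v L) (hs : Frb p v L s W)
    (hE : Unf v s W E) (hx : DifW v s W E x Φ) (hG : Gau v E x) (hN : NDv v p Φ)
    (hG' : ∀ n, Gau v E fun a => s.symm^[n] (x a)) {Q : Type}
    [Fintype Q] (P : Q → MvPolynomial (Fin m) Ω) (hP : ∀ i, Cw v W E (P i) ∧ v (eval x (P i)) = 1)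
    (hind : ∀ c : Q → ℕ, (∀ i, c i < p) → c ≠ 0 →
      ∃ a, ¬ v (∑ i, c i * (eval x (pderiv a (P i)) / eval x (P i))) < 1)
    (g : Q → Ω) {i0 : Q} (hg : g i0 = 1) (n0 : ℕ)
    (hn : ∀ n, n0 ≤ n → (∀ i, g i ∈ AR v p (FX E fun a => s.symm^[n] (x a))) ∧
      ∃ z ∈ AR v p (FX E fun a => s.symm^[n] (x a)),
        v (z - ∑ i, g i * (s.symm^[n] (L (eval x (P i))) / p)) ≤ v p) : False := by
  have h0 := h.p0
  have h1 := h.p1
  obtain ⟨κ, _, _, res, hk⟩ := exists_resF h1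
  obtain ⟨k, hk⟩ := hk E
  obtain ⟨ε, hε⟩ := log_res h0 h1 hT
  obtain ⟨η, R, hR⟩ := exists_RS h0 h1 hs hx hG
  choose hη1 hη2 hRc hR1 hS1 hR2 using hR
  choose A w hAc hw1 hw2 hA hw3 using fun i => exists_A h0 h1 hs hE (fun a => ⟨hx.mem a, hx.int a⟩)
    hG (fun b => ⟨hη1 b, hη2 b⟩) (hP i).1 (hP i).2
  have hPW : ∀ i, eval x (P i) ∈ W := fun i =>
    ev_mem W.toSubring hx.mem fun μ => ((hP i).1 μ).2.1
  choose S hS using fun b => int_lift (v := v) (P := dSub p b (pderiv none (Φ b)))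
    (dSub_co v.integer p b (DTaR_pd v.integer (fun μ => (hx.co b μ).2.2) none))
  have hSc : ∀ b μ, (map v.integer.subtype (S b)).coeff μ ∈ E := fun b => hS b ▸
    dSub_co E.toSubring p b (DTaR_pd E.toSubring (fun μ => (hx.co b μ).1) none)
  have nd := nd_use h0 hx.int hG hN (fun b μ => (hx.co b μ).1) hR1
    (S := fun b => map v.integer.subtype (S b)) (fun b => ⟨hS b, (hS b).symm ▸ hS1 b⟩) P
    fun i => ⟨fun μ => ⟨((hP i).1 μ).1, ((hP i).1 μ).2.2⟩, (hP i).2⟩
  simp only [← hS] at hS1 hR2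
  choose R' eR using fun b => int_lift fun μ => (hRc b μ).2
  choose A' eA using fun i => int_lift fun μ => (hAc i μ).2
  choose P' eP using fun i => int_lift fun μ => ((hP i).1 μ).2.2
  obtain rfl := funext eR
  obtain rfl := funext eA
  obtain rfl := funext eP
  lift x to Fin m → v.integer using hx.int
  lift η to Fin m → v.integer using hη1
  lift w to Q → v.integer using hw1
  lift g to Q → v.integer using fun i => ((hn n0 le_rfl).1 i).1
  have hP1 := fun i => (hP i).2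
  simp only [pderiv_map, ← coe_eval] at hS1 hR2 hw2 hA hw3 hPW nd hind hn hP1
  have ne : ∀ {b : v.integer}, v (b : Ω) = 1 → res b ≠ 0 := fun hb e =>
    ((hk.zero _).1 e).ne hb
  have hτ : ∀ i, v (L (eval x (P' i) : v.integer) / p) ≤ 1 := fun i => by
    rw [map_div₀]
    exact div_le_one_of_le₀ (hs.log_le hW hT (hPW i) (hP1 i)) zero_le
  obtain ⟨c, hc, hc0, hm⟩ := cp_main (hG.idp hk) (π := fun i => map res (P' i))
    (A := fun i => map res (A' i)) (R := fun b => map res (R' b)) (S := fun b => map res (S b))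
    (η := fun b => res (η b)) (w := fun i => res (w i))
    (fun i => hk.co fun μ => ((hP i).1 μ).1) (fun i => hk.co fun μ => (hAc i μ).1)
    (fun b => hk.co fun μ => (hRc b μ).1) (fun b => hk.co (hSc b))
    (fun i => res_eval res x _ ▸ ne (hP1 i)) (fun b => res_eval res x _ ▸ ne (hS1 b))
    (fun b => by
      simp only [← res_eval res x]
      rw [← map_mul, ← map_neg]
      exact hk.eq (by simpa using hR2 b))
    (fun i a => by
      simp only [pderiv_map, ← res_eval res x]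
      simp only [← map_pow res, ← map_mul res, ← map_sub res]
      exact hk.eq (hA i a))
    (fun i => by
      simp only [pderiv_map, ← res_eval res x]
      simp only [← map_pow res, ← map_mul res, ← map_sum res, ← map_add res]
      exact hk.eq (by push_cast; exact hw3 i))
    ε (fun i => res (g i))
    (fun e => by simpa [show g i0 = 1 from Subtype.ext hg] using congrFun e i0) (n0 + 1)
    fun n hn0 => by
      obtain ⟨n, rfl⟩ := Nat.exists_eq_add_of_le' (le_of_add_le_right hn0)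
      obtain ⟨h2, z, h3, h4⟩ := hn n (by omega)
      refine ⟨fun i => DTaR_mem hk hs h1 (hG' n) (h2 i), ?_⟩
      lift z to v.integer using h3.1
      let τ : Q → v.integer := fun i => ⟨s.symm^[n] (L (eval x (P' i) : v.integer) / p),
        (DTaR_val hs n _).trans_le (hτ i)⟩
      have h5 : res z = res (∑ i, g i * τ i) :=
        hk.eq (by push_cast [τ, DTaR_div]; exact h4.trans_lt h1)
      have h6 := DTaR_mem hk hs h1 (hG' n) h3
      rw [h5, map_sum, sum_pow_char_pow] at h6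
      convert h6 using 2 with i
      rw [map_mul, mul_pow, pow_succ p, pow_mul (res (τ i)),
        DTaR_it hk hs n (a := ⟨_, hτ i⟩) rfl,
        DTaR_log hk hW hT hs hε (hPW i) (hP1 i) (hw2 i) (τ := ⟨_, hτ i⟩) rfl]
  obtain ⟨a, ha⟩ := hind c hc hc0
  choose u hu hu' using fun i => DTaR_inv res (hP1 i)
  choose u' hv hv' using fun b => DTaR_inv res (hS1 b)
  let H : Fin m → v.integer := fun a => ∑ i, c i * (eval x (pderiv a (P' i)) * u i)
  simp only [pderiv_map, ← res_eval res x] at hm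
  refine ha (nd c _ (fun _ => rfl) (fun a => ?_) a)
  have h2 := hm (fun a => res (H a)) (fun a => by simp [H, hu', div_eq_mul_inv]) a
  simp only [div_eq_mul_inv, ← inv_pow, ← hv'] at h2
  simp only [← map_pow res, ← map_mul res, ← map_sum res, ← map_sub res] at h2
  have h3 := (hk.zero _).1 h2
  push_cast [H, hu, hv] at h3
  simpa only [div_eq_mul_inv, inv_pow] using h3

end Pool.Agent.Work.MP_dd0d16_nt.T
end
end
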